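import Pool.Agent.Helper859.NC.Fin

set_option autoImplicit false
open Finset Filter Topology

namespace NC.Alg

/-- The space `ℓ_p`: a distribution on the circle is given by its sequence of Fourier coefficients in `ℓ^p(ℤ)`. -/
abbrev Ell (p : ENNReal) : Type := lp (fun _ : ℤ => ℂ) p

/-- The exponential `e^{imθ}` as an element of `ℓ_p`: its Fourier coefficients form the `m`-th unit vector. -/
noncomputable def expo (p : ENNReal) (m : ℤ) : Ell p := lp.single p m (1 : ℂ)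

/-- The bounded operator `T` on `ℓ_p` is multiplication by the function `φ` on the circle with Fourier coefficients
`c n`: for every `m`, `T (e^{imθ}) = φ e^{imθ}`, whose `n`-th Fourier coefficient is `c (n - m)`. (For `p < ∞` the
exponentials span a dense subspace of `ℓ_p`.) -/
def IsMultiplication (p : ENNReal) [Fact (1 ≤ p)] (T : Ell p →L[ℂ] Ell p) (c : ℤ → ℂ) : Prop :=
  ∀ m n : ℤ, (T (expo p m)) n = c (n - m)

theorem apply_hasSum {p : ENNReal} [Fact (1 ≤ p)] [hp : Fact (p ≠ ⊤)] {T : Ell p →L[ℂ] Ell p} {c : ℤ → ℂ}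
    (hT : IsMultiplication p T c) (x : Ell p) (n : ℤ) : HasSum (fun k : ℤ => c (n - k) * x k) ((T x) n) := by
  have h1 : HasSum (fun k : ℤ => lp.single p k (x k)) x := lp.hasSum_single hp.out x
  have h2 := h1.mapL T
  have h3 : HasSum (fun k : ℤ => (T (lp.single p k (x k))) n) ((T x) n) :=
    h2.map (lp.evalCLM (𝕜 := ℂ) (fun _ : ℤ => ℂ) p n) (ContinuousLinearMap.continuous _)
  refine h3.congr_fun fun k => ?_
  have h4 : lp.single (E := fun _ : ℤ => ℂ) p k (x k) = (x k) • expo p k := by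
    rw [expo, ← lp.single_smul]
    simp
  rw [h4, map_smul, lp.coeFn_smul, Pi.smul_apply, smul_eq_mul, hT k n, mul_comm]

theorem expo_apply (p : ENNReal) (m n : ℤ) : (expo p m) n = if n = m then 1 else 0 := by
  change (Pi.single (M := fun _ : ℤ => ℂ) m (1 : ℂ)) n = _
  by_cases h : n = m
  · subst h; simp
  · rw [Pi.single_eq_of_ne h, if_neg h]

/-- The algebra `M_p` of multipliers of `ℓ_p` (`1 ≤ p < ∞`): the bounded operators on `ℓ_p` that are multiplication
by a function, with the operator norm, pointwise sums, and composition as product. -/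
def M (p : ENNReal) [Fact (1 ≤ p)] [Fact (p ≠ ⊤)] : Subalgebra ℂ (Ell p →L[ℂ] Ell p) where
  carrier := {T | ∃ c : ℤ → ℂ, IsMultiplication p T c}
  mul_mem' := by
    rintro T S ⟨c, hc⟩ ⟨d, hd⟩
    refine ⟨fun j => ∑' k : ℤ, c (j - k) * d k, fun m n => ?_⟩
    have h1 := (apply_hasSum hc (S (expo p m)) n).tsum_eq
    change (T (S (expo p m))) n = _
    rw [← h1, ← (Equiv.addRight m).tsum_eq]
    refine tsum_congr fun k => ?_
    rw [hd, Equiv.coe_addRight, show n - (k + m) = n - m - k by ring, show k + m - m = k by ring]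
  add_mem' := by
    rintro T S ⟨c, hc⟩ ⟨d, hd⟩
    refine ⟨fun j => c j + d j, fun m n => ?_⟩
    change (T (expo p m) + S (expo p m) : Ell p) n = _
    rw [lp.coeFn_add, Pi.add_apply, hc m n, hd m n]
  algebraMap_mem' := by
    intro r
    refine ⟨fun j => if j = 0 then r else 0, fun m n => ?_⟩
    simp only [ContinuousLinearMap.algebraMap_apply, lp.coeFn_smul, Pi.smul_apply, expo_apply, smul_eq_mul, mul_ite,
      mul_one, mul_zero, sub_eq_zero]

variable {p : ENNReal} [Fact (1 ≤ p)] [Fact (p ≠ ⊤)]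

/-- The Fourier coefficients of the multiplier `f ∈ M_p`, that is, those of `f · 1 ∈ ℓ_p`. -/
noncomputable def coef (f : M p) (n : ℤ) : ℂ := ((f : Ell p →L[ℂ] Ell p) (expo p 0)) n

variable (p) in
/-- `M_pA = {f ∈ M_p : the n-th Fourier coefficient of f vanishes for n < 0}`. -/
def MA : Set (M p) := {f | ∀ n : ℤ, n < 0 → coef f n = 0}

/-- The analytic extension `f(z)`, `|z| < 1`, of `f ∈ M_pA`. -/
noncomputable def ext (f : M p) (z : ℂ) : ℂ := ∑' n : ℕ, coef f n * z ^ n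

theorem isMul_coef (f : M p) : IsMultiplication p (f : Ell p →L[ℂ] Ell p) (coef f) := by
  obtain ⟨c, hc⟩ := f.2
  intro m n
  rw [hc m n, coef, hc 0 (n - m), sub_zero]

theorem coef_mul (f g : M p) (n : ℤ) : coef (f * g) n = ∑' k : ℤ, coef f (n - k) * coef g k := by
  have h1 := (apply_hasSum (isMul_coef f) ((g : Ell p →L[ℂ] Ell p) (expo p 0)) n).tsum_eq
  change ((f : Ell p →L[ℂ] Ell p) ((g : Ell p →L[ℂ] Ell p) (expo p 0))) n = _
  rw [← h1]
  rfl

theorem coef_one (n : ℤ) : coef (1 : M p) n = if n = 0 then 1 else 0 := expo_apply p 0 n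

theorem coef_add (f g : M p) (n : ℤ) : coef (f + g) n = coef f n + coef g n := rfl

theorem norm_coef_le (f : M p) (n : ℤ) : ‖coef f n‖ ≤ ‖(f : Ell p →L[ℂ] Ell p) (expo p 0)‖ :=
  lp.norm_apply_le_norm (by
    have : (1 : ENNReal) ≤ p := Fact.out
    intro h
    rw [h] at this
    simp at this) _ n

theorem summable_ext (f : M p) {z : ℂ} (hz : ‖z‖ < 1) : Summable fun n : ℕ => ‖coef f n * z ^ n‖ := by
  refine Summable.of_nonneg_of_le (fun n => norm_nonneg _) (fun n => ?_)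
    ((summable_geometric_of_lt_one (norm_nonneg z) hz).mul_left ‖(f : Ell p →L[ℂ] Ell p) (expo p 0)‖)
  rw [norm_mul, norm_pow]
  exact mul_le_mul_of_nonneg_right (norm_coef_le f n) (by positivity)

theorem coef_mul_nat {f g : M p} (hf : f ∈ MA p) (hg : g ∈ MA p) (n : ℕ) :
    coef (f * g) n = ∑ x ∈ antidiagonal n, coef f x.1 * coef g x.2 := by
  rw [coef_mul, Finset.Nat.sum_antidiagonal_eq_sum_range_succ_mk, ← Finset.sum_range_reflect]
  rw [← (Nat.cast_injective (R := ℤ)).tsum_eq]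
  · rw [tsum_eq_sum (s := range (n + 1))]
    · refine Finset.sum_congr rfl fun k hk => ?_
      have hk' : k ≤ n := Nat.lt_succ_iff.1 (Finset.mem_range.1 hk)
      have e1 : n + 1 - 1 - k = n - k := by omega
      have e2 : n - (n - k) = k := by omega
      simp only [e1, e2]
      rw [Nat.cast_sub hk']
    · intro k hk
      rw [Finset.mem_range, not_lt] at hk
      rw [hf ((n : ℤ) - k) (by omega), zero_mul]
  · intro k hk
    rw [Function.mem_support] at hk
    by_contra hcon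
    have hk0 : k < 0 := by
      by_contra h0
      exact hcon ⟨k.toNat, Int.toNat_of_nonneg (not_lt.1 h0)⟩
    rw [hg k hk0, mul_zero] at hk
    exact hk rfl

theorem ext_mul {f g : M p} (hf : f ∈ MA p) (hg : g ∈ MA p) {z : ℂ} (hz : ‖z‖ < 1) :
    ext (f * g) z = ext f z * ext g z := by
  have h := tsum_mul_tsum_eq_tsum_sum_antidiagonal_of_summable_norm (summable_ext f hz) (summable_ext g hz)
  rw [ext, ext, ext, h]
  refine tsum_congr fun n => ?_
  rw [coef_mul_nat hf hg, Finset.sum_mul]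
  refine Finset.sum_congr rfl fun x hx => ?_
  rw [← Finset.HasAntidiagonal.mem_antidiagonal.1 hx, pow_add]
  ring

theorem ext_add (f g : M p) {z : ℂ} (hz : ‖z‖ < 1) : ext (f + g) z = ext f z + ext g z := by
  rw [ext, ext, ext, ← (summable_ext f hz).of_norm.tsum_add (summable_ext g hz).of_norm]
  refine tsum_congr fun n => ?_
  rw [coef_add, add_mul]

theorem ext_one (z : ℂ) : ext (1 : M p) z = 1 := by
  rw [ext, tsum_eq_single 0]
  · rw [coef_one]; simp
  · intro n hn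
    rw [coef_one, if_neg (by exact_mod_cast hn), zero_mul]

theorem ext_series (f : M p) : HasFPowerSeriesOnBall (ext f)
    (FormalMultilinearSeries.ofScalars ℂ (fun n : ℕ => coef f n)) 0 1 := by
  have hr : (1 : ENNReal) ≤ (FormalMultilinearSeries.ofScalars ℂ (fun n : ℕ => coef f n)).radius := by
    have h := (FormalMultilinearSeries.ofScalars ℂ (fun n : ℕ => coef f n)).le_radius_of_bound
      ‖(f : Ell p →L[ℂ] Ell p) (expo p 0)‖ (r := 1) (fun n => by
        rw [FormalMultilinearSeries.ofScalars_norm, NNReal.coe_one, one_pow, mul_one]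
        exact norm_coef_le f n)
    exact_mod_cast h
  refine ⟨hr, one_pos, ?_⟩
  intro y hy
  have hy' : ‖y‖ < 1 := by
    rw [Metric.mem_eball, edist_zero_right] at hy
    rw [← ofReal_norm] at hy
    exact ENNReal.ofReal_lt_one.1 hy
  have h := (summable_ext f hy').of_norm.hasSum
  rw [zero_add]
  refine h.congr_fun fun n => ?_
  rw [FormalMultilinearSeries.ofScalars_apply_eq]
  rw [smul_eq_mul]

theorem ext_diff (f : M p) : DifferentiableOn ℂ (ext f) (Metric.ball 0 1) := by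
  have h := (ext_series f).differentiableOn
  rw [show Metric.ball (0 : ℂ) 1 = Metric.eball (0 : ℂ) 1 by
    rw [← ENNReal.ofReal_one, Metric.eball_ofReal]]
  exact h

theorem cf_ext {f : M p} (hf : f ∈ MA p) (n : ℤ) : VG.cf (ext f) n = coef f n := by
  by_cases hn : 0 ≤ n
  · obtain ⟨k, rfl⟩ := Int.eq_ofNat_of_zero_le hn
    rw [VG.cf_natCast]
    have h1 := (ext_series f).hasFPowerSeriesAt
    have h2 := (ext_series f).analyticAt.hasFPowerSeriesAt
    have h3 := h2.eq_formalMultilinearSeries h1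
    have h4 := congrArg (fun s => FormalMultilinearSeries.coeff s k) h3
    simp only [FormalMultilinearSeries.coeff_ofScalars] at h4
    exact h4
  · rw [hf n (by omega), VG.cf, if_neg hn]

theorem M_mul_comm (f g : M p) : f * g = g * f := by
  have hc : ∀ n, coef (f * g) n = coef (g * f) n := by
    intro n
    rw [coef_mul, coef_mul, ← (Equiv.subLeft n).tsum_eq]
    refine tsum_congr fun k => ?_
    rw [Equiv.subLeft_apply, sub_sub_cancel, mul_comm]
  apply Subtype.ext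
  apply ContinuousLinearMap.ext
  intro x
  apply lp.ext
  funext n
  have h1 := apply_hasSum (isMul_coef (f * g)) x n
  have h2 := apply_hasSum (isMul_coef (g * f)) x n
  simp only [hc] at h1
  exact h1.unique h2

theorem isClosed_M : IsClosed ((M p : Set (Ell p →L[ℂ] Ell p))) := by
  have h0 : ((M p : Set (Ell p →L[ℂ] Ell p))) =
      ⋂ m : ℤ, ⋂ n : ℤ, {T : Ell p →L[ℂ] Ell p | (T (expo p m)) n = (T (expo p 0)) (n - m)} := by
    ext T
    simp only [Set.mem_iInter, Set.mem_ofPred_eq, SetLike.mem_coe]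
    constructor
    · intro h m n
      obtain ⟨c, hc⟩ := h
      rw [hc m n, hc 0 (n - m), sub_zero]
    · intro h
      exact ⟨fun n => (T (expo p 0)) n, h⟩
  have hc : ∀ (x : Ell p) (n : ℤ), Continuous fun T : Ell p →L[ℂ] Ell p => (T x) n := by
    intro x n
    exact (lp.evalCLM (𝕜 := ℂ) (fun _ : ℤ => ℂ) p n).continuous.comp (ContinuousLinearMap.apply ℂ (Ell p) x).continuous
  rw [h0]
  exact isClosed_iInter fun m => isClosed_iInter fun n => isClosed_eq (hc _ _) (hc _ _)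

instance complete_M : CompleteSpace (M p) := isClosed_M.completeSpace_coe

theorem char_bound (m : M p →ₐ[ℂ] ℂ) (f : M p) : ‖m f‖ ≤ ‖f‖ * ‖(1 : M p)‖ :=
  AlgHom.norm_apply_le_self_mul_norm_one m f

instance fact4 : Fact ((1 : ENNReal) ≤ 4) := ⟨by norm_num⟩
instance fact4' : Fact ((4 : ENNReal) ≠ ⊤) := ⟨by norm_num⟩

theorem toMult (f : M 4) : (f : Ell 4 →L[ℂ] Ell 4) ∈ NC.MultAlg 4 := by
  intro x y hxy n
  have h1 := (apply_hasSum (isMul_coef f) y n).tsum_eq
  have h2 := (apply_hasSum (isMul_coef f) x (n - 1)).tsum_eq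
  change ((f : Ell 4 →L[ℂ] Ell 4) y) n = ((f : Ell 4 →L[ℂ] Ell 4) x) (n - 1)
  rw [← h1, ← h2, ← (Equiv.addRight (1 : ℤ)).tsum_eq]
  refine tsum_congr fun k => ?_
  rw [Equiv.coe_addRight, hxy, show n - (k + 1) = n - 1 - k by ring, show k + 1 - 1 = k by ring]

theorem ofMult (T : NC.MultAlg 4) : (T : Ell 4 →L[ℂ] Ell 4) ∈ M 4 :=
  ⟨fun n => ((T : Ell 4 →L[ℂ] Ell 4) (NC.e0 4)) n, fun m n => NC.apply_single T m n⟩

theorem conv_bound (f : M 4) (hf : f ∈ MA 4) : ∃ K : ℝ, 0 ≤ K ∧ ∀ (a : ℤ →₀ ℂ) (s : Finset ℤ),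
    ∑ n ∈ s, ‖∑ m ∈ a.support, VG.cf (ext f) (n - m) * a m‖ ^ 4 ≤ K ^ 4 * ∑ m ∈ a.support, ‖a m‖ ^ 4 := by
  refine ⟨‖(f : Ell 4 →L[ℂ] Ell 4)‖, norm_nonneg _, fun a s => ?_⟩
  simp only [cf_ext hf]
  exact NC.bound_of_mult ⟨_, toMult f⟩ a s

/-- The counterexample. -/
theorem main : ∃ f₁ f₂ : M 4, f₁ ∈ MA 4 ∧ f₂ ∈ MA 4 ∧ IsUnit f₁ ∧
    (∀ z : ℂ, ‖z‖ < 1 → 1 / 2 ≤ ‖ext f₂ z‖) ∧
    ¬ ∃ g₁ g₂ : M 4, g₁ ∈ MA 4 ∧ g₂ ∈ MA 4 ∧
      ∀ z : ℂ, ‖z‖ < 1 → ext f₁ z * ext g₁ z + ext f₂ z * ext g₂ z = 1 := by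
  obtain ⟨K, F, G, hK, hF, hG, -, -, hG2, hFb, hGb, hF2, hFa, hno⟩ := NC.main2
  obtain ⟨T, S, hT, hTS⟩ := NC.exists_mult_inv K hK (VG.cf F) hFb hF2 hFa
  obtain ⟨T', hT'⟩ := NC.exists_mult K hK (VG.cf G) hGb
  have hneg : ∀ (H : ℂ → ℂ) (n : ℤ), n < 0 → VG.cf H n = 0 := by
    intro H n hn
    rw [VG.cf, if_neg (by omega)]
  have e1 : ∀ n : ℤ, coef (⟨_, ofMult T⟩ : M 4) n = VG.cf F n := hT
  have e2 : ∀ n : ℤ, coef (⟨_, ofMult T'⟩ : M 4) n = VG.cf G n := hT'
  have hx1 : ∀ z : ℂ, ‖z‖ < 1 → ext (⟨_, ofMult T⟩ : M 4) z = F z := by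
    intro z hz
    rw [ext]
    simp only [e1]
    exact (NC.cf_hasSum hF z hz).tsum_eq
  have hx2 : ∀ z : ℂ, ‖z‖ < 1 → ext (⟨_, ofMult T'⟩ : M 4) z = G z := by
    intro z hz
    rw [ext]
    simp only [e2]
    exact (NC.cf_hasSum hG z hz).tsum_eq
  have hm1 : (⟨_, ofMult T⟩ : M 4) ∈ MA 4 := fun n hn => by rw [e1, hneg F n hn]
  have hm2 : (⟨_, ofMult T'⟩ : M 4) ∈ MA 4 := fun n hn => by rw [e2, hneg G n hn]
  refine ⟨⟨_, ofMult T⟩, ⟨_, ofMult T'⟩, hm1, hm2, ?_, ?_, ?_⟩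
  · have h5 : (T : Ell 4 →L[ℂ] Ell 4) * (S : Ell 4 →L[ℂ] Ell 4) = 1 :=
      congrArg (fun R : NC.MultAlg 4 => (R : Ell 4 →L[ℂ] Ell 4)) hTS
    have h6 : (⟨_, ofMult T⟩ : M 4) * (⟨_, ofMult S⟩ : M 4) = 1 := Subtype.ext h5
    refine isUnit_iff_exists.2 ⟨⟨_, ofMult S⟩, h6, ?_⟩
    rw [M_mul_comm]
    exact h6
  · intro z hz
    rw [hx2 z hz]
    exact hG2 z (mem_ball_zero_iff.2 hz)
  · rintro ⟨g₁, g₂, hg₁, hg₂, hb⟩
    obtain ⟨K', hK', hb'⟩ := conv_bound g₂ hg₂
    refine hno K' (ext g₁) (ext g₂) hK' (ext_diff g₂) hb' fun z hz => ?_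
    have hz' := mem_ball_zero_iff.1 hz
    rw [← hx1 z hz', ← hx2 z hz']
    exact hb z hz'

end NC.Alg
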