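import Pool.Agent.Helper859.NC.Given

set_option autoImplicit false
open Finset Filter Topology

namespace NC
open VG

/-- analytic block facts -/
structure AB (C μ : ℝ) (V : ℂ → ℂ) : Prop where
  an : ∃ c, AN c V
  le_one : ∀ z : ℂ, ‖z‖ ≤ 1 → ‖V z‖ ≤ 1
  one : V 1 = 1
  mb : ∀ (N : ℕ) [NeZero N], IM.MB C (fun j : ZMod N => V (IM.E j))
  mbs : ∀ (N : ℕ) [NeZero N], IM.MB μ (fun j : ZMod N => (1 - IM.E j) * (V (IM.E j) - 1))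
  near : ∀ z : ℂ, ‖z‖ ≤ 1 → ‖(1 - z) * (V z - 1)‖ ≤ μ

/-- a pair of blocks: `U` is inner, `V` is bounded below but its inverse has large norm on the kernels of zeros of `U` -/
structure PB (C ρ M0 μ : ℝ) (U V : ℂ → ℂ) (n : ℕ) (ev η : ℕ → ℂ) : Prop where
  u : AB C μ U
  v : AB C μ V
  unim : ∀ z : ℂ, ‖z‖ = 1 → ‖U z‖ = 1
  low : ∀ z : ℂ, ‖z‖ ≤ 1 → 1 - ρ ≤ ‖V z‖
  zero : ∀ k < n, ‖ev k‖ < 1 ∧ U (ev k) = 0
  s1 : Summable (fun x : ℕ => ‖∑ k ∈ range n, η k * ev k ^ x‖ ^ 4)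
  s2 : Summable (fun x : ℕ => ‖∑ k ∈ range n, η k / V (ev k) * ev k ^ x‖ ^ 4)
  big : M0 ^ 4 * ∑' x : ℕ, ‖∑ k ∈ range n, η k * ev k ^ x‖ ^ 4 <
    ∑' x : ℕ, ‖∑ k ∈ range n, η k / V (ev k) * ev k ^ x‖ ^ 4

theorem pb_exists : ∃ C : ℝ, 1 ≤ C ∧ ∀ ρ M0 μ : ℝ, 0 < ρ → 0 ≤ M0 → 0 < μ →
    ∃ (U V : ℂ → ℂ) (n : ℕ) (ev η : ℕ → ℂ), PB C ρ M0 μ U V n ev η := by
  obtain ⟨C1, hC1, hU⟩ := U_props
  refine ⟨max C1 300, le_trans hC1 (le_max_left _ _), ?_⟩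
  intro ρ M0 μ hρ hM0 hμ
  -- choice of sigma
  obtain ⟨σ, hσ7, hσ⟩ : ∃ σ : ℕ, 7 ≤ σ ∧ 64 / (2 : ℝ) ^ σ ≤ ρ := by
    obtain ⟨m, hm⟩ := exists_nat_gt (64 / ρ)
    refine ⟨max m 7, le_max_right _ _, ?_⟩
    have h1 : (m : ℝ) ≤ 2 ^ (max m 7) := by
      have h2 : (m : ℝ) < 2 ^ m := by exact_mod_cast Nat.lt_two_pow_self
      have h3 : (2 : ℝ) ^ m ≤ 2 ^ (max m 7) := pow_le_pow_right₀ (by norm_num) (le_max_left _ _)
      linarith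
    rw [div_le_iff₀ (by positivity)]
    have h4 : 64 / ρ < 2 ^ (max m 7) := lt_of_lt_of_le hm h1
    rw [div_lt_iff₀ hρ] at h4
    linarith
  obtain ⟨q, hq1, hnoise⟩ := noise σ hσ7 M0 hM0
  have hpow : 2 * 2 ^ (4 * σ * q - 1) = 2 ^ (4 * σ * q) := by
    rw [← pow_succ']
    congr 1
    have : 1 ≤ 4 * σ * q := Nat.mul_pos (by omega) (by omega)
    omega
  set n : ℕ := 2 ^ (4 * σ * q - 1) with hn
  have hn1 : 1 ≤ n := Nat.one_le_two_pow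
  obtain ⟨M1, hM1⟩ := hnoise n hpow (μ / 200) (by positivity)
  obtain ⟨L0, hL0⟩ := hU n μ hn1 hμ
  set M : ℕ := max M1 (max L0 100) with hM
  obtain ⟨δ', hδ', t, ht, η, hs1, hs2, hbig⟩ := hM1 M (le_max_left _ _)
  have hLM : M ≤ 2 * n * M := by nlinarith
  have hL0' : L0 ≤ 2 * n * M := le_trans (le_trans (le_max_left _ _) (le_max_right _ _)) hLM
  have hL100 : 100 ≤ 2 * n * M := le_trans (le_trans (le_max_right _ _) (le_max_right _ _)) hLM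
  obtain ⟨u1, u2, u3, u4, u5, u6, u7, u8⟩ := hL0 (2 * n * M) hL0'
  obtain ⟨v1, v2, v3, v4, v5, v6, v7⟩ := Vb_props σ q M hσ7 hq1 (μ / 200) δ' (by positivity) hδ' t ht
  refine ⟨vB 10 n ((2 * n * M : ℕ) : ℝ), Vb σ q M (μ / 200) δ' t, 2 * n, lam n (2 * n * M), η, ?_⟩
  have e200 : 200 * (μ / 200) = μ := by ring
  constructor
  · exact ⟨u1, u2, u4, fun N _ => (u5 N).mono (le_max_left _ _), u6, u7⟩
  · refine ⟨v1, v3, v2, fun N _ => (v5 N).mono (le_max_right _ _), fun N _ => ?_, fun z hz => ?_⟩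
    · exact (v6 N).mono e200.le
    · exact (v7 z hz).trans e200.le
  · exact u3
  · intro z hz
    have := v4 z hz
    linarith
  · intro k hk
    refine ⟨?_, u8 k hk⟩
    rw [norm_lam n hL100 k]
    have h1 := rad_lt hL100
    have h2 : (0 : ℝ) < 1 / ((2 * n * M : ℕ) : ℝ) := by
      have : 0 < 2 * n * M := by omega
      positivity
    linarith
  · exact hs1
  · exact hs2
  · exact hbig

end NC
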