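import Mathlib

set_option autoImplicit false
open Finset

namespace NC

/-- Rudin-Shapiro pair -/
noncomputable def rs : ℕ → ℂ → ℂ × ℂ
  | 0, _ => (1, 1)
  | s + 1, w => ((rs s w).1 + w ^ (2 ^ s) * (rs s w).2, (rs s w).1 - w ^ (2 ^ s) * (rs s w).2)

noncomputable def rsP (s : ℕ) (w : ℂ) : ℂ := (rs s w).1

/-- localisation to the zone `δ' ≪ |1 - z| ≪ δ` -/
noncomputable def lc (δ δ' : ℝ) (z : ℂ) : ℂ := (1 - z) * δ / ((1 - z + δ') * (1 - z + δ))

/-- the second block -/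
noncomputable def Vb (σ q M : ℕ) (δ δ' : ℝ) (t : ℕ → ℂ) (z : ℂ) : ℂ :=
  1 - (48 / 2 ^ σ) * lc δ δ' z +
    (8 / q) * (1 / 8 ^ σ) * lc δ δ' z ^ 2 * ∑ i ∈ range q, t i * rsP (4 * σ) (z ^ (M * 2 ^ (4 * σ * i)))

/-- radius of the zeros -/
noncomputable def rad (L : ℕ) : ℝ := (1 - Real.pi * 10 / L) / (1 + Real.pi * 10 / L)

/-- lattice of zeros -/
noncomputable def lam (n L k : ℕ) : ℂ :=
  (rad L : ℂ) * Complex.exp (2 * Real.pi * Complex.I * ((k : ℂ) - n + 1 / 2) / L)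

/-- The multiplier algebra `M_p`, realised as the algebra of all bounded linear operators on `ℓ^p(ℤ)` that commute
with the translation `x ↦ (x (n - 1))_n`. -/
def MultAlg (p : ENNReal) [Fact (1 ≤ p)] :
    Subalgebra ℂ (lp (fun _ : ℤ => ℂ) p →L[ℂ] lp (fun _ : ℤ => ℂ) p) where
  carrier := {T | ∀ x y : lp (fun _ : ℤ => ℂ) p, (∀ n : ℤ, y n = x (n - 1)) → ∀ n : ℤ, (T y) n = (T x) (n - 1)}
  mul_mem' := by
    intro T S hT hS x y hxy n
    exact hT (S x) (S y) (hS x y hxy) n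
  add_mem' := by
    intro T S hT hS x y hxy n
    have h1 := hT x y hxy n
    have h2 := hS x y hxy n
    simp only [ContinuousLinearMap.add_apply, lp.coeFn_add, Pi.add_apply, h1, h2]
  algebraMap_mem' := by
    intro r x y hxy n
    simp only [ContinuousLinearMap.algebraMap_apply, lp.coeFn_smul, Pi.smul_apply, hxy n]

/-- the unit vector `e_0` -/
noncomputable def e0 (p : ENNReal) : lp (fun _ : ℤ => ℂ) p := lp.single p (0 : ℤ) (1 : ℂ)

instance fact4 : Fact ((1 : ENNReal) ≤ 4) := ⟨by norm_num⟩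

end NC
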