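import Pool.Agent.Helper859.NC.Rec2

set_option autoImplicit false
open Finset Filter Topology

namespace NC
open VG

lemma cf_neg' (G : ℂ → ℂ) {n : ℤ} (hn : n < 0) : cf G n = 0 := by
  unfold cf; rw [if_neg (not_le.2 hn)]

lemma AN_cf {c : ℝ} {f : ℂ → ℂ} (h : AN c f) : ∃ k : ℕ → ℂ, (Summable fun m => ‖k m‖) ∧
    (∀ m : ℕ, cf f m = k m) ∧ (∀ z : ℂ, ‖z‖ ≤ 1 → f z = ∑' m, k m * z ^ m) ∧
    (Summable fun n : ℤ => ‖cf f n‖) ∧ ∀ z : ℂ, ‖z‖ = 1 → f z = ∑' n : ℤ, cf f n * z ^ n := by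
  obtain ⟨k, hk, -, hf⟩ := h
  have hcf : ∀ n : ℤ, cf f n = if 0 ≤ n then k n.toNat else 0 :=
    cf_of_series k hk f (fun z hz => hf z hz.le)
  have hcn : ∀ m : ℕ, cf f m = k m := by
    intro m; rw [hcf]; simp
  have hinj : Function.Injective (Nat.cast : ℕ → ℤ) := Nat.cast_injective
  have hout : ∀ n : ℤ, n ∉ Set.range (Nat.cast : ℕ → ℤ) → cf f n = 0 := by
    intro n hn
    apply cf_neg'
    by_contra hc
    exact hn ⟨n.toNat, by simp [not_lt.1 hc]⟩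
  refine ⟨k, hk, hcn, hf, ?_, ?_⟩
  · rw [← hinj.summable_iff]
    · refine hk.congr fun m => ?_
      simp [hcn]
    · intro n hn; rw [hout n hn]; simp
  · intro z hz
    rw [hf z hz.le]
    have hs : Summable fun m => k m * z ^ m := by
      apply Summable.of_norm
      refine hk.congr fun m => ?_
      rw [norm_mul, norm_pow, hz, one_pow, mul_one]
    have h2 : HasSum (fun n : ℤ => cf f n * z ^ n) (∑' m, k m * z ^ m) := by
      rw [← hinj.hasSum_iff]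
      · refine hs.hasSum.congr_fun fun m => ?_
        simp [hcn]
      · intro n hn; rw [hout n hn]; simp
    exact h2.tsum_eq.symm

lemma AN_prod {u : ℕ → ℂ → ℂ} (hAN : ∀ j, ∃ c, AN c (u j)) (J : ℕ) : ∃ c, AN c (fun z => ∏ j ∈ range J, u j z) := by
  induction J with
  | zero => exact ⟨_, W702.AN_congr (W702.AN_const 1) fun z _ => by simp⟩
  | succ J ih =>
    obtain ⟨c, hc⟩ := ih
    obtain ⟨c', hc'⟩ := hAN J
    exact ⟨_, W702.AN_congr (W702.AN_mul hc hc') fun z _ => by rw [Finset.prod_range_succ]⟩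

theorem limit_mult (K : ℝ) (hK : 0 ≤ K) (u : ℕ → ℂ → ℂ) (hAN : ∀ j, ∃ c, AN c (u j))
    (hle : ∀ j z, ‖z‖ ≤ 1 → ‖u j z‖ ≤ 1) (hnear : ∀ j z, ‖z‖ ≤ 1 → ‖(1 - z) * (u j z - 1)‖ ≤ (1 / 2) ^ j)
    (hMB : ∀ J, ∃ l : ℕ, 0 < l ∧ ∀ (N : ℕ) [NeZero N], l ∣ N → IM.MB K (fun i : ZMod N => ∏ j ∈ range J, u j (IM.E i))) :
    ∃ F : ℂ → ℂ, DifferentiableOn ℂ F (Metric.ball 0 1) ∧ (∀ z ∈ Metric.ball (0 : ℂ) 1, ‖F z‖ ≤ 1) ∧
      (∀ z ∈ Metric.ball (0 : ℂ) 1, Tendsto (fun J => ∏ j ∈ range J, u j z) atTop (𝓝 (F z))) ∧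
      (∀ n : ℤ, Tendsto (fun J => cf (fun z => ∏ j ∈ range J, u j z) n) atTop (𝓝 (cf F n))) ∧
      ∀ (a : ℤ →₀ ℂ) (s : Finset ℤ),
        ∑ n ∈ s, ‖∑ m ∈ a.support, cf F (n - m) * a m‖ ^ 4 ≤ K ^ 4 * ∑ m ∈ a.support, ‖a m‖ ^ 4 := by
  have hb : ∀ z ∈ Metric.ball (0 : ℂ) 1, ‖z‖ ≤ 1 := fun z hz => (mem_ball_zero_iff.1 hz).le
  obtain ⟨F, h1, h2, h3, h4⟩ := prod_limit u (fun j => by obtain ⟨c, hc⟩ := hAN j; exact AN_diff hc)
    (fun j z hz => hle j z (hb z hz)) (fun j z hz => hnear j z (hb z hz))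
  refine ⟨F, h1, h2, h3, h4, ?_⟩
  intro a s
  have hfin : ∀ J : ℕ, ∑ n ∈ s, ‖∑ m ∈ a.support, cf (fun z => ∏ j ∈ range J, u j z) (n - m) * a m‖ ^ 4 ≤
      K ^ 4 * ∑ m ∈ a.support, ‖a m‖ ^ 4 := by
    intro J
    obtain ⟨c, hc⟩ := AN_prod hAN J
    obtain ⟨k, -, -, -, hs, hz⟩ := AN_cf hc
    obtain ⟨l, hl, hl'⟩ := hMB J
    exact transfer2 K hK _ hs _ hz l hl (fun N _ hN => hl' N hN) a s
  have hT : Tendsto (fun J : ℕ => ∑ n ∈ s, ‖∑ m ∈ a.support, cf (fun z => ∏ j ∈ range J, u j z) (n - m) * a m‖ ^ 4)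
      atTop (𝓝 (∑ n ∈ s, ‖∑ m ∈ a.support, cf F (n - m) * a m‖ ^ 4)) := by
    apply tendsto_finsetSum
    intro n _
    apply Tendsto.pow
    apply Tendsto.norm
    apply tendsto_finsetSum
    intro j _
    exact (h4 (n - j)).mul_const _
  exact le_of_tendsto' hT hfin

lemma prod_low (u : ℕ → ℂ) (h : ∀ j, 1 - (1 / 2 : ℝ) ^ (j + 2) ≤ ‖u j‖) (J : ℕ) :
    1 / 2 + (1 / 2 : ℝ) ^ (J + 1) ≤ ‖∏ j ∈ range J, u j‖ := by
  induction J with
  | zero => simp; norm_num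
  | succ J ih =>
    rw [Finset.prod_range_succ, norm_mul]
    have h0 := h J
    have hx : (0 : ℝ) < (1 / 2) ^ (J + 1) := by positivity
    have hx1 : (1 / 2 : ℝ) ^ (J + 1) ≤ 1 / 2 := by
      calc (1 / 2 : ℝ) ^ (J + 1) ≤ (1 / 2) ^ 1 := pow_le_pow_of_le_one (by norm_num) (by norm_num) (by omega)
        _ = 1 / 2 := by norm_num
    have e1 : (1 / 2 : ℝ) ^ (J + 2) = (1 / 2) ^ (J + 1) / 2 := by rw [pow_succ]; ring
    have e2 : (1 / 2 : ℝ) ^ (J + 1 + 1) = (1 / 2) ^ (J + 1) / 2 := by rw [pow_succ]; ring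
    rw [e1] at h0
    rw [e2]
    have h1 : 0 ≤ 1 - (1 / 2 : ℝ) ^ (J + 1) / 2 := by linarith
    calc 1 / 2 + (1 / 2 : ℝ) ^ (J + 1) / 2 ≤ (1 / 2 + (1 / 2) ^ (J + 1)) * (1 - (1 / 2) ^ (J + 1) / 2) := by
          nlinarith
      _ ≤ ‖∏ j ∈ range J, u j‖ * ‖u J‖ := by gcongr

/-- the main construction -/
theorem main2 : ∃ (K : ℝ) (F G : ℂ → ℂ), 0 ≤ K ∧ DifferentiableOn ℂ F (Metric.ball 0 1) ∧
    DifferentiableOn ℂ G (Metric.ball 0 1) ∧ (∀ z ∈ Metric.ball (0 : ℂ) 1, ‖F z‖ ≤ 1) ∧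
    (∀ z ∈ Metric.ball (0 : ℂ) 1, ‖G z‖ ≤ 1) ∧ (∀ z ∈ Metric.ball (0 : ℂ) 1, 1 / 2 ≤ ‖G z‖) ∧
    (∀ (a : ℤ →₀ ℂ) (s : Finset ℤ),
        ∑ n ∈ s, ‖∑ m ∈ a.support, cf F (n - m) * a m‖ ^ 4 ≤ K ^ 4 * ∑ m ∈ a.support, ‖a m‖ ^ 4) ∧
    (∀ (a : ℤ →₀ ℂ) (s : Finset ℤ),
        ∑ n ∈ s, ‖∑ m ∈ a.support, cf G (n - m) * a m‖ ^ 4 ≤ K ^ 4 * ∑ m ∈ a.support, ‖a m‖ ^ 4) ∧
    (Summable fun n : ℤ => ‖cf F n‖ ^ 2) ∧
    (∀ n : ℤ, ∑' m : ℤ, cf F (n + m) * (starRingEnd ℂ) (cf F m) = if n = 0 then 1 else 0) ∧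
    ∀ (K' : ℝ) (g1 g2 : ℂ → ℂ), 0 ≤ K' → DifferentiableOn ℂ g2 (Metric.ball 0 1) →
      (∀ (a : ℤ →₀ ℂ) (s : Finset ℤ),
        ∑ n ∈ s, ‖∑ m ∈ a.support, cf g2 (n - m) * a m‖ ^ 4 ≤ K' ^ 4 * ∑ m ∈ a.support, ‖a m‖ ^ 4) →
      ¬ ∀ z ∈ Metric.ball (0 : ℂ) 1, F z * g1 z + G z * g2 z = 1 := by
  classical
  obtain ⟨K, C, ε₀, h, hK, hG, hU, hV, hl⟩ := rec2_exists
  have hnear : ∀ j z, ‖z‖ ≤ 1 → ‖(1 - z) * ((h j).U z - 1)‖ ≤ (1 / 2) ^ j := fun j z hz =>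
    ((hG j).pb.u.near z hz).trans (hG j).μJ
  have hnearV : ∀ j z, ‖z‖ ≤ 1 → ‖(1 - z) * ((h j).V z - 1)‖ ≤ (1 / 2) ^ j := fun j z hz =>
    ((hG j).pb.v.near z hz).trans (hG j).μJ
  obtain ⟨F, F1, F2, F3, F4, F5⟩ := limit_mult K hK (fun j => (h j).U) (fun j => (hG j).pb.u.an)
    (fun j => (hG j).pb.u.le_one) hnear (fun J => ⟨(h J).l, hl J, fun N _ hN => hU J N hN⟩)
  -- products over subsets
  have hsub : ∀ S : Set ℕ, ∃ W : ℂ → ℂ, DifferentiableOn ℂ W (Metric.ball 0 1) ∧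
      (∀ z ∈ Metric.ball (0 : ℂ) 1, ‖W z‖ ≤ 1) ∧
      (∀ z ∈ Metric.ball (0 : ℂ) 1, Tendsto (fun J => ∏ j ∈ range J, (if j ∈ S then (h j).V z else 1)) atTop (𝓝 (W z))) ∧
      ∀ (a : ℤ →₀ ℂ) (s : Finset ℤ),
        ∑ n ∈ s, ‖∑ m ∈ a.support, cf W (n - m) * a m‖ ^ 4 ≤ K ^ 4 * ∑ m ∈ a.support, ‖a m‖ ^ 4 := by
    intro S
    obtain ⟨W, W1, W2, W3, W4, W5⟩ := limit_mult K hK (fun j z => if j ∈ S then (h j).V z else 1)
      (fun j => by
        by_cases hj : j ∈ S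
        · simp only [hj, if_true]; exact (hG j).pb.v.an
        · simp only [hj, if_false]; exact ⟨_, W702.AN_const 1⟩)
      (fun j z hz => by
        by_cases hj : j ∈ S
        · simp only [hj, if_true]; exact (hG j).pb.v.le_one z hz
        · simp only [hj, if_false]; simp)
      (fun j z hz => by
        by_cases hj : j ∈ S
        · simp only [hj, if_true]; exact hnearV j z hz
        · simp only [hj, if_false]; simp)
      (fun J => ⟨(h J).l, hl J, fun N _ hN => by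
        refine (hV J ((range J).filter (· ∈ S)) N hN).congr fun i => ?_
        refine Finset.prod_congr rfl fun j hj => ?_
        simp [Finset.mem_filter, Finset.mem_range.1 hj]⟩)
    exact ⟨W, W1, W2, W3, W5⟩
  obtain ⟨G, G1, G2, G3, G5⟩ := hsub Set.univ
  have G3' : ∀ z ∈ Metric.ball (0 : ℂ) 1, Tendsto (fun J => ∏ j ∈ range J, (h j).V z) atTop (𝓝 (G z)) := by
    intro z hz
    refine (G3 z hz).congr fun J => ?_
    simp
  have hball : ∀ z ∈ Metric.ball (0 : ℂ) 1, ‖z‖ ≤ 1 := fun z hz => (mem_ball_zero_iff.1 hz).le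
  -- Fourier coefficients of the stages
  have hUAN := AN_prod (u := fun j => (h j).U) (fun j => (hG j).pb.u.an)
  choose cc hcc using hUAN
  choose k k1 k2 k3 k4 k5 using fun J => AN_cf (hcc J)
  have hua := fun j => (hG j).pb.u.an
  choose c0 hc0 using hua
  choose u u1 u2 u3 u4 u5 using fun J => AN_cf (hc0 J)
  have hac := autocorr (fun j => (h j).U) k u (fun m => cf F m) u1 u3 (fun J z hz => (hG J).pb.unim z hz)
    (fun J => by
      have := hnear J 0 (by simp)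
      simpa using this) k1 k3
    (fun m => by
      refine (F4 m).congr fun J => ?_
      exact k2 J m)
  obtain ⟨hac1, hac2⟩ := hac
  have hinj : Function.Injective (Nat.cast : ℕ → ℤ) := Nat.cast_injective
  have hout : ∀ n : ℤ, n ∉ Set.range (Nat.cast : ℕ → ℤ) → cf F n = 0 := by
    intro n hn
    apply cf_neg'
    by_contra hc
    exact hn ⟨n.toNat, by simp [not_lt.1 hc]⟩
  have hpos : ∀ d : ℕ, ∑' m : ℤ, cf F (d + m) * (starRingEnd ℂ) (cf F m) = if d = 0 then 1 else 0 := by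
    intro d
    rw [← hac2 d]
    have := hinj.tsum_eq (f := fun m : ℤ => cf F (d + m) * (starRingEnd ℂ) (cf F m)) (by
      intro m hm
      by_contra hc
      apply hm
      show cf F (d + m) * (starRingEnd ℂ) (cf F m) = 0
      rw [hout m hc]; simp)
    rw [← this]
    apply tsum_congr
    intro m
    rw [show ((d : ℤ) + (m : ℤ)) = ((m + d : ℕ) : ℤ) by push_cast; ring]
  refine ⟨K, F, G, hK, F1, G1, F2, G2, ?_, F5, G5, ?_, ?_, ?_⟩
  · intro z hz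
    refine ge_of_tendsto' (G3' z hz).norm fun J => ?_
    have h1 := prod_low (fun j => (h j).V z) (fun j => (hG j).pb.low z (hball z hz)) J
    have h2 : (0 : ℝ) < (1 / 2) ^ (J + 1) := by positivity
    linarith
  · rw [← hinj.summable_iff]
    · exact hac1
    · intro n hn; rw [hout n hn]; simp
  · intro n
    rcases le_or_gt 0 n with hn | hn
    · obtain ⟨d, rfl⟩ := Int.eq_ofNat_of_zero_le hn
      rw [hpos d]
      simp
    · obtain ⟨d, hd⟩ := Int.eq_ofNat_of_zero_le (show 0 ≤ -n by omega)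
      have h1 := hpos d
      have hd0 : d ≠ 0 := by omega
      rw [if_neg hd0] at h1
      rw [if_neg (by omega)]
      have h2 : ∑' m : ℤ, cf F (n + m) * (starRingEnd ℂ) (cf F m) =
          (starRingEnd ℂ) (∑' m : ℤ, cf F (d + m) * (starRingEnd ℂ) (cf F m)) := by
        rw [Complex.conj_tsum]
        rw [← (Equiv.addRight (d : ℤ)).tsum_eq]
        apply tsum_congr
        intro m
        simp only [Equiv.coe_addRight, map_mul, Complex.conj_conj]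
        rw [show n + (m + d) = m by omega, show m + (d : ℤ) = d + m by ring]
        ring
      rw [h2, h1]; simp
  · intro K' g1 g2 hK' hg2 hb hbez
    obtain ⟨J, hJ⟩ := exists_nat_gt (K * K')
    obtain ⟨W, W1, W2, W3, W5⟩ := hsub {j | j ≠ J}
    have hfac : ∀ z ∈ Metric.ball (0 : ℂ) 1, G z = (h J).V z * W z := by
      intro z hz
      refine tendsto_nhds_unique (G3' z hz) ?_
      refine ((W3 z hz).const_mul ((h J).V z)).congr' ?_
      filter_upwards [eventually_gt_atTop J] with J' hJ'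
      have hm : J ∈ range J' := Finset.mem_range.2 hJ'
      rw [← Finset.mul_prod_erase _ _ hm, ← Finset.mul_prod_erase (range J') (fun j => (h j).V z) hm]
      simp only [ne_eq, not_true_eq_false, if_false, one_mul]
      congr 1
      refine Finset.prod_congr rfl fun j hj => ?_
      rw [if_pos (Finset.ne_of_mem_erase hj)]
    have hzero : ∀ k < (h J).n, F ((h J).ev k) = 0 := by
      intro k hk
      obtain ⟨hk1, hk2⟩ := (hG J).pb.zero k hk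
      refine tendsto_nhds_unique (F3 _ (mem_ball_zero_iff.2 hk1)) ?_
      refine tendsto_const_nhds.congr' ?_
      filter_upwards [eventually_gt_atTop J] with J' hJ'
      exact (Finset.prod_eq_zero (Finset.mem_range.2 hJ') hk2).symm
    have hinv : ∀ k < (h J).n, 1 / (h J).V ((h J).ev k) = W ((h J).ev k) * g2 ((h J).ev k) := by
      intro k hk
      have hk1 := (mem_ball_zero_iff (a := (h J).ev k) (r := 1)).2 ((hG J).pb.zero k hk).1
      have h1 := hbez _ hk1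
      rw [hzero k hk, zero_mul, zero_add, hfac _ hk1] at h1
      have h2 : (h J).V ((h J).ev k) ≠ 0 := by
        intro h0
        rw [h0] at h1
        simp at h1
      rw [div_eq_iff h2]
      linear_combination -h1
    have t1 := eval_transfer K' hK' (cf g2) (fun n hn => cf_neg' _ hn) hb g2 (fun z hz => cf_hasSum hg2 z hz)
      (h J).n (h J).ev (h J).η (fun k hk => ((hG J).pb.zero k hk).1)
    have t2 := eval_transfer K hK (cf W) (fun n hn => cf_neg' _ hn) W5 W (fun z hz => cf_hasSum W1 z hz)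
      (h J).n (h J).ev (fun k => (h J).η k * g2 ((h J).ev k)) (fun k hk => ((hG J).pb.zero k hk).1)
    have e1 : ∀ x : ℕ, ∑ k ∈ range (h J).n, (h J).η k / (h J).V ((h J).ev k) * (h J).ev k ^ x =
        ∑ k ∈ range (h J).n, (h J).η k * g2 ((h J).ev k) * W ((h J).ev k) * (h J).ev k ^ x := by
      intro x
      refine Finset.sum_congr rfl fun k hk => ?_
      have := hinv k (Finset.mem_range.1 hk)
      rw [div_eq_mul_one_div, this]
      ring
    have hbig := (hG J).pb.big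
    simp_rw [e1] at hbig
    have hT0 : 0 ≤ ∑' x : ℕ, ‖∑ k ∈ range (h J).n, (h J).η k * (h J).ev k ^ x‖ ^ 4 :=
      tsum_nonneg fun x => by positivity
    have h5 : (K * K') ^ 4 ≤ (J : ℝ) ^ 4 := by gcongr
    have h6 := t2.2.2.trans (mul_le_mul_of_nonneg_left t1.2.2 (by positivity))
    have h7 : K ^ 4 * (K' ^ 4 * ∑' x : ℕ, ‖∑ k ∈ range (h J).n, (h J).η k * (h J).ev k ^ x‖ ^ 4) ≤
        (J : ℝ) ^ 4 * ∑' x : ℕ, ‖∑ k ∈ range (h J).n, (h J).η k * (h J).ev k ^ x‖ ^ 4 := by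
      rw [← mul_assoc, ← mul_pow]
      exact mul_le_mul_of_nonneg_right h5 hT0
    exact absurd hbig (not_lt.2 (h6.trans h7))

end NC
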