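import Pool.Agent.Helper859.NC.Defs
import Pool.Agent.MP58366f.Base
set_option autoImplicit false
open Finset

namespace NC

end NC

namespace NC

noncomputable def pq {G : Type} [AddCommGroup G] (d : G) (F : G → ℂ) : ℕ → (G → ℂ) × (G → ℂ)
  | 0 => (F, F)
  | s + 1 => (fun x => (pq d F s).1 x + (pq d F s).2 (x - (2 ^ s : ℕ) • d),
      fun x => (pq d F s).1 x - (pq d F s).2 (x - (2 ^ s : ℕ) • d))

theorem E_pow_nc {N : ℕ} [NeZero N] (j : ZMod N) (k : ℕ) : IM.E j ^ k = IM.E (j * (k : ZMod N)) := by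
  induction k with
  | zero => simp [IM.E_zero]
  | succ k ih => rw [pow_succ, ih, Nat.cast_succ, mul_add, IM.E_add, mul_one]

theorem T_sub_symb {N : ℕ} [NeZero N] (m m' f : ZMod N → ℂ) :
    IM.T (fun j => m j - m' j) f = IM.T m f - IM.T m' f := by
  have h : (fun j => m j - m' j) = fun j => m j + (fun j => (-1 : ℂ) * m' j) j := by
    funext j; ring
  rw [h, IM.T_add_symb, IM.T_smul_symb]
  simp [sub_eq_add_neg]

theorem T_rs {N : ℕ} [NeZero N] (D : ℕ) (f : ZMod N → ℂ) (s : ℕ) :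
    IM.T (fun j => (rs s (IM.E j ^ D)).1) f = (pq (D : ZMod N) f s).1 ∧
    IM.T (fun j => (rs s (IM.E j ^ D)).2) f = (pq (D : ZMod N) f s).2 := by
  induction s with
  | zero => exact ⟨IM.T_one f, IM.T_one f⟩
  | succ s ih =>
    have h1 : IM.T (fun j => (IM.E j ^ D) ^ (2 ^ s) * (rs s (IM.E j ^ D)).2) f =
        fun x => (pq (D : ZMod N) f s).2 (x - (2 ^ s : ℕ) • (D : ZMod N)) := by
      have h2 : (fun j : ZMod N => (IM.E j ^ D) ^ (2 ^ s) * (rs s (IM.E j ^ D)).2) =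
          fun j => (fun j => IM.E (j * ((2 ^ s : ℕ) • (D : ZMod N)))) j *
            (fun j => (rs s (IM.E j ^ D)).2) j := by
        funext j
        simp only
        congr 1
        rw [← pow_mul, E_pow_nc]
        congr 2
        rw [nsmul_eq_mul]; push_cast; ring
      rw [h2, IM.T_mul, ih.2, IM.T_trans]
    constructor
    · show IM.T (fun j => (rs s (IM.E j ^ D)).1 + (IM.E j ^ D) ^ (2 ^ s) * (rs s (IM.E j ^ D)).2) f = _
      rw [IM.T_add_symb, ih.1, h1]; rfl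
    · show IM.T (fun j => (rs s (IM.E j ^ D)).1 - (IM.E j ^ D) ^ (2 ^ s) * (rs s (IM.E j ^ D)).2) f = _
      rw [T_sub_symb, ih.1, h1]; rfl

theorem pq_l2 {G : Type} [AddCommGroup G] [Fintype G] (d : G) (F : G → ℂ) (s : ℕ) :
    ∑ x, (‖(pq d F s).1 x‖ ^ 2 + ‖(pq d F s).2 x‖ ^ 2) = 2 ^ s * (2 * ∑ x, ‖F x‖ ^ 2) := by
  induction s with
  | zero => simp only [pq, pow_zero, one_mul, mul_sum]; exact sum_congr rfl (fun x _ => by ring)
  | succ s ih =>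
    have h1 : ∀ x, ‖(pq d F (s+1)).1 x‖ ^ 2 + ‖(pq d F (s+1)).2 x‖ ^ 2 =
        2 * ‖(pq d F s).1 x‖ ^ 2 + 2 * ‖(pq d F s).2 (x - (2 ^ s : ℕ) • d)‖ ^ 2 := by
      intro x
      have := parallelogram_law_with_norm ℝ ((pq d F s).1 x) ((pq d F s).2 (x - (2 ^ s : ℕ) • d))
      simp only [pq]
      nlinarith [this]
    rw [sum_congr rfl (fun x _ => h1 x), sum_add_distrib]
    have h2 : ∑ x, 2 * ‖(pq d F s).2 (x - (2 ^ s : ℕ) • d)‖ ^ 2 = ∑ x, 2 * ‖(pq d F s).2 x‖ ^ 2 :=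
      (Equiv.subRight ((2 ^ s : ℕ) • d)).sum_comp (fun n => 2 * ‖(pq d F s).2 n‖ ^ 2)
    rw [h2, ← sum_add_distrib]
    have h3 : ∑ x, (2 * ‖(pq d F s).1 x‖ ^ 2 + 2 * ‖(pq d F s).2 x‖ ^ 2) =
        2 * ∑ x, (‖(pq d F s).1 x‖ ^ 2 + ‖(pq d F s).2 x‖ ^ 2) := by
      rw [mul_sum]; exact sum_congr rfl (fun x _ => by ring)
    rw [h3, ih]; ring

theorem pq_local {N M : ℕ} [NeZero N] [NeZero M] (D : ZMod N) (f : ZMod N → ℂ) (x : ZMod N) (s : ℕ) :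
    ∀ j : ℕ, 2 ^ s ≤ j + 1 → j < M →
      (pq (1 : ZMod M) (fun u => f (x + u.val • D)) s).1 (j : ZMod M) = (pq D f s).1 (x + j • D) ∧
      (pq (1 : ZMod M) (fun u => f (x + u.val • D)) s).2 (j : ZMod M) = (pq D f s).2 (x + j • D) := by
  induction s with
  | zero =>
    intro j _ hj
    simp only [pq]
    rw [ZMod.val_cast_of_lt hj]
    exact ⟨rfl, rfl⟩
  | succ s ih =>
    intro j hj hjM
    have hp : 2 ^ (s+1) = 2 ^ s + 2 ^ s := by ring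
    have hpos : 0 < 2 ^ s := by positivity
    obtain ⟨i, rfl⟩ : ∃ i, j = 2 ^ s + i := ⟨j - 2 ^ s, by omega⟩
    have h1 := ih (2 ^ s + i) (by omega) hjM
    have h2 := ih i (by omega) (by omega)
    have e1 : ((2 ^ s + i : ℕ) : ZMod M) - (2 ^ s : ℕ) • (1 : ZMod M) = (i : ZMod M) := by
      rw [nsmul_eq_mul]; push_cast; ring
    have e2 : x + (2 ^ s + i) • D - (2 ^ s : ℕ) • D = x + i • D := by
      rw [add_nsmul]; abel
    constructor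
    · simp only [pq]
      rw [e1, e2, h1.1, h2.2]
    · simp only [pq]
      rw [e1, e2, h1.1, h2.2]

theorem pq_bd {G : Type} [AddCommGroup G] (d : G) (F : G → ℂ) (s : ℕ) : ∀ x : G,
    ‖(pq d F s).1 x‖ ≤ ∑ m ∈ range (2 ^ s), ‖F (x - m • d)‖ ∧
    ‖(pq d F s).2 x‖ ≤ ∑ m ∈ range (2 ^ s), ‖F (x - m • d)‖ := by
  induction s with
  | zero => intro x; simp [pq]
  | succ s ih =>
    intro x
    have h1 : ∑ m ∈ range (2 ^ (s+1)), ‖F (x - m • d)‖ =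
        ∑ m ∈ range (2 ^ s), ‖F (x - m • d)‖ + ∑ m ∈ range (2 ^ s), ‖F (x - (2 ^ s : ℕ) • d - m • d)‖ := by
      rw [show 2 ^ (s+1) = 2 ^ s + 2 ^ s by ring, sum_range_add]
      congr 1
      refine sum_congr rfl (fun m _ => ?_)
      rw [add_nsmul]; congr 2; abel
    rw [h1]
    have a1 := (ih x).1
    have a2 := (ih (x - (2 ^ s : ℕ) • d)).2
    constructor
    · exact (norm_add_le _ _).trans (add_le_add a1 a2)
    · exact (norm_sub_le _ _).trans (add_le_add a1 a2)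

theorem sum4 {ι : Type} (t : Finset ι) (b : ι → ℝ) :
    (∑ i ∈ t, b i) ^ 4 ≤ (#t : ℝ) ^ 3 * ∑ i ∈ t, b i ^ 4 := by
  have h1 : (∑ i ∈ t, b i) ^ 2 ≤ #t * ∑ i ∈ t, b i ^ 2 := sq_sum_le_card_mul_sum_sq
  have h2 : (∑ i ∈ t, b i ^ 2) ^ 2 ≤ #t * ∑ i ∈ t, (b i ^ 2) ^ 2 := sq_sum_le_card_mul_sum_sq
  have h3 : ∑ i ∈ t, (b i ^ 2) ^ 2 = ∑ i ∈ t, b i ^ 4 := sum_congr rfl (fun i _ => by ring)
  rw [h3] at h2
  calc (∑ i ∈ t, b i) ^ 4 = ((∑ i ∈ t, b i) ^ 2) ^ 2 := by ring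
    _ ≤ (#t * ∑ i ∈ t, b i ^ 2) ^ 2 := by
        apply pow_le_pow_left₀ (by positivity) h1
    _ = (#t : ℝ) ^ 2 * (∑ i ∈ t, b i ^ 2) ^ 2 := by ring
    _ ≤ (#t : ℝ) ^ 2 * (#t * ∑ i ∈ t, b i ^ 4) := by
        apply mul_le_mul_of_nonneg_left h2 (by positivity)
    _ = _ := by ring

theorem key {N : ℕ} [NeZero N] (D : ZMod N) (f : ZMod N → ℂ) (s : ℕ) (x : ZMod N) :
    ∑ j ∈ Ico (2 ^ s) (2 * 2 ^ s), ‖(pq D f s).1 (x + j • D)‖ ^ 4 ≤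
      3 * (2 ^ s : ℝ) ^ 3 * ∑ u ∈ range (2 * 2 ^ s), ‖f (x + u • D)‖ ^ 4 := by
  set R : ℕ := 2 ^ s with hR
  have hRpos : 0 < R := by positivity
  set W : ℝ := ∑ u ∈ range (2 * R), ‖f (x + u • D)‖ ^ 4 with hW
  have hW0 : 0 ≤ W := sum_nonneg (fun _ _ => by positivity)
  haveI : NeZero (2 * R) := ⟨by omega⟩
  set α : ℝ := Real.sqrt ((R : ℝ) ^ 3 * W) with hα
  have hα2 : α ^ 2 = (R : ℝ) ^ 3 * W := Real.sq_sqrt (by positivity)
  have hα0 : 0 ≤ α := Real.sqrt_nonneg _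
  -- (i)
  have h1 : ∑ j ∈ Ico R (2 * R), ‖(pq D f s).1 (x + j • D)‖ ^ 2 ≤
      2 * R * ∑ u ∈ range (2 * R), ‖f (x + u • D)‖ ^ 2 := by
    have e1 : ∑ j ∈ Ico R (2 * R), ‖(pq D f s).1 (x + j • D)‖ ^ 2 =
        ∑ j ∈ Ico R (2 * R), ‖(pq (1 : ZMod (2 * R)) (fun u => f (x + u.val • D)) s).1 (j : ZMod (2 * R))‖ ^ 2 := by
      refine sum_congr rfl (fun j hj => ?_)
      rw [mem_Ico] at hj
      rw [(pq_local (M := 2 * R) D f x s j (by omega) hj.2).1]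
    have e2 : ∀ g : ZMod (2 * R) → ℝ, ∑ u : ZMod (2 * R), g u = ∑ j ∈ range (2 * R), g (j : ZMod (2 * R)) := by
      intro g
      refine (Finset.sum_bij' (fun (j : ℕ) _ => (j : ZMod (2 * R))) (fun u _ => u.val) ?_ ?_ ?_ ?_ ?_).symm
      · intro j _; exact mem_univ _
      · intro u _; rw [mem_range]; exact ZMod.val_lt u
      · intro j hj; rw [mem_range] at hj; exact ZMod.val_cast_of_lt hj
      · intro u _; exact ZMod.natCast_zmod_val u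
      · intro j _; rfl
    have e3 := pq_l2 (1 : ZMod (2 * R)) (fun u => f (x + u.val • D)) s
    rw [e1]
    calc ∑ j ∈ Ico R (2 * R), ‖(pq (1 : ZMod (2 * R)) (fun u => f (x + u.val • D)) s).1 (j : ZMod (2 * R))‖ ^ 2
        ≤ ∑ j ∈ range (2 * R), ‖(pq (1 : ZMod (2 * R)) (fun u => f (x + u.val • D)) s).1 (j : ZMod (2 * R))‖ ^ 2 := by
          refine sum_le_sum_of_subset_of_nonneg ?_ (fun _ _ _ => by positivity)
          intro j hj; rw [mem_Ico] at hj; rw [mem_range]; exact hj.2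
      _ = ∑ u : ZMod (2 * R), ‖(pq (1 : ZMod (2 * R)) (fun u => f (x + u.val • D)) s).1 u‖ ^ 2 :=
          (e2 (fun u => ‖(pq (1 : ZMod (2 * R)) (fun u => f (x + u.val • D)) s).1 u‖ ^ 2)).symm
      _ ≤ ∑ u : ZMod (2 * R), (‖(pq (1 : ZMod (2 * R)) (fun u => f (x + u.val • D)) s).1 u‖ ^ 2 +
            ‖(pq (1 : ZMod (2 * R)) (fun u => f (x + u.val • D)) s).2 u‖ ^ 2) :=
          sum_le_sum (fun u _ => le_add_of_nonneg_right (by positivity))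
      _ = 2 * R * ∑ u ∈ range (2 * R), ‖f (x + u • D)‖ ^ 2 := by
          rw [e3, e2 (fun u => ‖f (x + u.val • D)‖ ^ 2)]
          have : ∑ j ∈ range (2 * R), ‖f (x + ((j : ZMod (2 * R)).val) • D)‖ ^ 2 =
              ∑ j ∈ range (2 * R), ‖f (x + j • D)‖ ^ 2 := by
            refine sum_congr rfl (fun j hj => ?_)
            rw [mem_range] at hj
            rw [ZMod.val_cast_of_lt hj]
          rw [this, hR]; push_cast; ring
  have h2 : (∑ u ∈ range (2 * R), ‖f (x + u • D)‖ ^ 2) ^ 2 ≤ 2 * R * W := by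
    have := sq_sum_le_card_mul_sum_sq (s := range (2 * R)) (f := fun u => ‖f (x + u • D)‖ ^ 2)
    rw [card_range] at this
    have e : ∑ u ∈ range (2 * R), (‖f (x + u • D)‖ ^ 2) ^ 2 = W := by
      rw [hW]; exact sum_congr rfl (fun i _ => by ring)
    rw [e] at this; push_cast at this; exact this
  have h3 : ∑ j ∈ Ico R (2 * R), ‖(pq D f s).1 (x + j • D)‖ ^ 2 ≤ 3 * α := by
    apply le_of_sq_le_sq _ (by positivity)
    have h0 : 0 ≤ ∑ j ∈ Ico R (2 * R), ‖(pq D f s).1 (x + j • D)‖ ^ 2 := sum_nonneg (fun _ _ => by positivity)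
    calc (∑ j ∈ Ico R (2 * R), ‖(pq D f s).1 (x + j • D)‖ ^ 2) ^ 2
        ≤ (2 * R * ∑ u ∈ range (2 * R), ‖f (x + u • D)‖ ^ 2) ^ 2 := pow_le_pow_left₀ h0 h1 2
      _ = 4 * (R : ℝ) ^ 2 * (∑ u ∈ range (2 * R), ‖f (x + u • D)‖ ^ 2) ^ 2 := by ring
      _ ≤ 4 * (R : ℝ) ^ 2 * (2 * R * W) := mul_le_mul_of_nonneg_left h2 (by positivity)
      _ = 8 * ((R : ℝ) ^ 3 * W) := by ring
      _ = 8 * α ^ 2 := by rw [hα2]
      _ ≤ (3 * α) ^ 2 := by nlinarith [sq_nonneg α]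
  have h4 : ∀ j ∈ Ico R (2 * R), ‖(pq D f s).1 (x + j • D)‖ ^ 2 ≤ α := by
    intro j hj
    rw [mem_Ico] at hj
    apply le_of_sq_le_sq _ hα0
    rw [hα2]
    have b1 := (pq_bd D f s (x + j • D)).1
    have b2 := sum4 (range (2 ^ s)) (fun m => ‖f (x + j • D - m • D)‖)
    rw [card_range] at b2
    have b3 : ∑ m ∈ range (2 ^ s), ‖f (x + j • D - m • D)‖ ^ 4 ≤ W := by
      have c1 : ∑ m ∈ range (2 ^ s), ‖f (x + j • D - m • D)‖ ^ 4 =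
          ∑ m ∈ range (2 ^ s), ‖f (x + (j - m) • D)‖ ^ 4 := by
        refine sum_congr rfl (fun m hm => ?_)
        rw [mem_range, ← hR] at hm
        congr 3
        obtain ⟨i, rfl⟩ : ∃ i, j = m + i := ⟨j - m, by omega⟩
        rw [Nat.add_sub_cancel_left, add_nsmul]; abel
      rw [c1, ← sum_image (s := range (2 ^ s)) (g := fun m => j - m) (f := fun u => ‖f (x + u • D)‖ ^ 4)]
      · refine sum_le_sum_of_subset_of_nonneg ?_ (fun _ _ _ => by positivity)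
        intro u hu
        rw [mem_image] at hu
        obtain ⟨m, hm, rfl⟩ := hu
        rw [mem_range] at hm ⊢; omega
      · intro m hm m' hm' h
        simp only [coe_range, Set.mem_Iio, ← hR] at hm hm'
        simp only at h
        omega
    calc (‖(pq D f s).1 (x + j • D)‖ ^ 2) ^ 2 = ‖(pq D f s).1 (x + j • D)‖ ^ 4 := by ring
      _ ≤ (∑ m ∈ range (2 ^ s), ‖f (x + j • D - m • D)‖) ^ 4 := pow_le_pow_left₀ (norm_nonneg _) b1 4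
      _ ≤ ((2 ^ s : ℕ) : ℝ) ^ 3 * ∑ m ∈ range (2 ^ s), ‖f (x + j • D - m • D)‖ ^ 4 := b2
      _ ≤ (R : ℝ) ^ 3 * W := mul_le_mul_of_nonneg_left b3 (by positivity)
  calc ∑ j ∈ Ico R (2 * R), ‖(pq D f s).1 (x + j • D)‖ ^ 4
      ≤ ∑ j ∈ Ico R (2 * R), α * ‖(pq D f s).1 (x + j • D)‖ ^ 2 := by
        refine sum_le_sum (fun j hj => ?_)
        have := h4 j hj
        calc ‖(pq D f s).1 (x + j • D)‖ ^ 4 = ‖(pq D f s).1 (x + j • D)‖ ^ 2 * ‖(pq D f s).1 (x + j • D)‖ ^ 2 := by ring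
          _ ≤ α * ‖(pq D f s).1 (x + j • D)‖ ^ 2 := mul_le_mul_of_nonneg_right this (by positivity)
    _ = α * ∑ j ∈ Ico R (2 * R), ‖(pq D f s).1 (x + j • D)‖ ^ 2 := by rw [mul_sum]
    _ ≤ α * (3 * α) := mul_le_mul_of_nonneg_left h3 hα0
    _ = 3 * α ^ 2 := by ring
    _ = 3 * ((2 ^ s : ℕ) : ℝ) ^ 3 * W := by rw [hα2]; ring
    _ = 3 * (2 ^ s : ℝ) ^ 3 * W := by push_cast; ring

theorem rsP_MB (σ : ℕ) (N : ℕ) [NeZero N] (D : ℕ) :
    IM.MB (2 * 8 ^ σ) (fun j : ZMod N => rsP (4 * σ) (IM.E j ^ D)) := by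
  intro f
  have hT : IM.T (fun j : ZMod N => rsP (4 * σ) (IM.E j ^ D)) f = (pq (D : ZMod N) f (4 * σ)).1 :=
    (T_rs D f (4 * σ)).1
  rw [hT]
  set s := 4 * σ with hs
  have hf0 := IM.N4_nonneg f
  apply IM.N4_le_of_pow (by positivity)
  rw [mul_pow, IM.N4_pow]
  have hR0 : (0 : ℝ) < 2 ^ s := by positivity
  have h1 : ∑ x : ZMod N, ∑ j ∈ Ico (2 ^ s) (2 * 2 ^ s), ‖(pq (D : ZMod N) f s).1 (x + j • (D : ZMod N))‖ ^ 4 ≤
      ∑ x : ZMod N, 3 * (2 ^ s : ℝ) ^ 3 * ∑ u ∈ range (2 * 2 ^ s), ‖f (x + u • (D : ZMod N))‖ ^ 4 :=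
    sum_le_sum (fun x _ => key (D : ZMod N) f s x)
  rw [sum_comm, ← mul_sum, sum_comm (s := univ)] at h1
  have h2 : ∀ (g : ZMod N → ℝ) (a : ZMod N), ∑ x, g (x + a) = ∑ x, g x :=
    fun g a => Equiv.sum_comp (Equiv.addRight a) g
  have h3 : ∀ j ∈ Ico (2 ^ s) (2 * 2 ^ s), ∑ x, ‖(pq (D : ZMod N) f s).1 (x + j • (D : ZMod N))‖ ^ 4 =
      ∑ x, ‖(pq (D : ZMod N) f s).1 x‖ ^ 4 := fun j _ => h2 (fun x => ‖(pq (D : ZMod N) f s).1 x‖ ^ 4) _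
  have h4 : ∀ u ∈ range (2 * 2 ^ s), ∑ x, ‖f (x + u • (D : ZMod N))‖ ^ 4 = ∑ x, ‖f x‖ ^ 4 :=
    fun j _ => h2 (fun x => ‖f x‖ ^ 4) _
  rw [sum_congr rfl h3, sum_congr rfl h4, sum_const, sum_const, Nat.card_Ico, card_range,
    nsmul_eq_mul, nsmul_eq_mul] at h1
  have h5 : ((2 * 2 ^ s - 2 ^ s : ℕ) : ℝ) = 2 ^ s := by
    rw [show 2 * 2 ^ s - 2 ^ s = 2 ^ s by omega]; push_cast; ring
  rw [h5] at h1
  set A := ∑ x, ‖(pq (D : ZMod N) f s).1 x‖ ^ 4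
  set B := ∑ x, ‖f x‖ ^ 4 with hB
  have hB0 : 0 ≤ B := sum_nonneg (fun _ _ => by positivity)
  have h6 : A ≤ 6 * (2 ^ s : ℝ) ^ 3 * B := by
    push_cast at h1
    have : (2 : ℝ) ^ s * A ≤ 2 ^ s * (6 * (2 ^ s : ℝ) ^ 3 * B) := by nlinarith [h1]
    exact le_of_mul_le_mul_left this hR0
  have h7 : ((2 : ℝ) * 8 ^ σ) ^ 4 = 16 * (2 ^ s : ℝ) ^ 3 := by
    have e8 : (8 : ℝ) ^ σ = 2 ^ (3 * σ) := by rw [pow_mul]; norm_num
    rw [e8, mul_pow, ← pow_mul, ← pow_mul, hs, show 3 * σ * 4 = 4 * σ * 3 by ring]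
    norm_num
  rw [h7]
  have : 0 ≤ (2 ^ s : ℝ) ^ 3 * B := by positivity
  nlinarith [h6, this]

end NC
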