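import Pool.Agent.Helper859.VG.Lim
set_option autoImplicit false
open Finset Filter Topology

namespace VG

end VG

namespace NC
open VG

theorem cf_congr {G H : ℂ → ℂ} (h : ∀ z ∈ Metric.ball (0 : ℂ) 1, G z = H z) (n : ℤ) : cf G n = cf H n := by
  have hev : G =ᶠ[𝓝 (0 : ℂ)] H := by
    filter_upwards [Metric.ball_mem_nhds (0 : ℂ) one_pos] with z hz
    exact h z hz
  unfold cf
  rw [hev.iteratedDeriv_eq n.toNat]

theorem cf_hasSum {G : ℂ → ℂ} (hG : DifferentiableOn ℂ G (Metric.ball 0 1)) (z : ℂ) (hz : ‖z‖ < 1) :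
    HasSum (fun u : ℕ => cf G u * z ^ u) (G z) := by
  have hz' : z ∈ Metric.ball (0 : ℂ) 1 := by simpa using hz
  have h := Complex.hasSum_taylorSeries_on_ball hG hz'
  refine h.congr_fun ?_ |> fun h => h
  intro u
  unfold cf
  simp only [sub_zero, smul_eq_mul, Int.toNat_natCast, Int.natCast_nonneg, if_true]
  rw [div_eq_mul_inv]
  ring

theorem cf_of_series (k : ℕ → ℂ) (hk : Summable fun m => ‖k m‖) (G : ℂ → ℂ)
    (hG : ∀ z : ℂ, ‖z‖ < 1 → G z = ∑' m, k m * z ^ m) (n : ℤ) : cf G n = if 0 ≤ n then k n.toNat else 0 := by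
  have hrad : (1 : ENNReal) ≤ (FormalMultilinearSeries.ofScalars ℂ k).radius := by
    have h1 := (FormalMultilinearSeries.ofScalars ℂ k).le_radius_of_summable (r := 1) (by
      simpa [FormalMultilinearSeries.ofScalars_norm] using hk)
    simpa using h1
  have hser : HasFPowerSeriesOnBall G (FormalMultilinearSeries.ofScalars ℂ k) 0 1 := by
    refine ⟨hrad, by norm_num, ?_⟩
    intro y hy
    have hy1 : ‖y‖ < 1 := by
      rw [Metric.mem_eball, edist_zero_right] at hy
      have : (‖y‖₊ : ENNReal) < 1 := hy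
      exact_mod_cast this
    rw [zero_add, hG y hy1]
    have hs : Summable fun m => k m * y ^ m := by
      apply Summable.of_norm
      refine Summable.of_nonneg_of_le (fun _ => norm_nonneg _) (fun m => ?_) hk
      rw [norm_mul, norm_pow]
      exact mul_le_of_le_one_right (norm_nonneg _) (pow_le_one₀ (norm_nonneg _) hy1.le)
    have h2 : (fun n => FormalMultilinearSeries.ofScalars ℂ k n (fun _ => y)) =
        fun m => k m * y ^ m := by
      funext n
      rw [FormalMultilinearSeries.ofScalars_apply_eq]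
      rfl
    rw [h2]
    exact hs.hasSum
  have key : ∀ n : ℕ, iteratedDeriv n G 0 / (n.factorial : ℂ) = k n := by
    intro n
    have h3 := hser.analyticAt.hasFPowerSeriesAt
    have h4 := h3.eq_formalMultilinearSeries hser.hasFPowerSeriesAt
    have h5 := FormalMultilinearSeries.ofScalars_series_injective ℂ ℂ h4
    exact congrFun h5 n
  unfold cf
  rw [key]

/-- infinite products and convergence of Taylor coefficients -/
theorem prod_limit (u : ℕ → ℂ → ℂ) (hd : ∀ j, DifferentiableOn ℂ (u j) (Metric.ball 0 1))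
    (h1 : ∀ j, ∀ z ∈ Metric.ball (0 : ℂ) 1, ‖u j z‖ ≤ 1)
    (h3 : ∀ j, ∀ z ∈ Metric.ball (0 : ℂ) 1, ‖(1 - z) * (u j z - 1)‖ ≤ (1 / 2) ^ j) :
    ∃ F : ℂ → ℂ, DifferentiableOn ℂ F (Metric.ball 0 1) ∧ (∀ z ∈ Metric.ball (0 : ℂ) 1, ‖F z‖ ≤ 1) ∧
      (∀ z ∈ Metric.ball (0 : ℂ) 1, Tendsto (fun J => ∏ j ∈ range J, u j z) atTop (𝓝 (F z))) ∧
      ∀ n : ℤ, Tendsto (fun J => cf (fun z => ∏ j ∈ range J, u j z) n) atTop (𝓝 (cf F n)) := by
  classical
  obtain ⟨P, hP⟩ : ∃ P : ℕ → ℂ → ℂ, P = fun J z => ∏ j ∈ range J, u j z := ⟨_, rfl⟩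
  have hPle : ∀ J, ∀ z ∈ Metric.ball (0 : ℂ) 1, ‖P J z‖ ≤ 1 := by
    intro J z hz
    rw [hP]
    simp only [norm_prod]
    exact Finset.prod_le_one (fun i _ => norm_nonneg _) (fun i _ => h1 i z hz)
  have hPsucc : ∀ J z, P (J + 1) z - P J z = P J z * (u J z - 1) := by
    intro J z
    rw [hP]
    simp only [Finset.prod_range_succ]
    ring
  have hPd : ∀ J, DifferentiableOn ℂ (P J) (Metric.ball 0 1) := by
    intro J
    rw [hP]
    exact DifferentiableOn.fun_finsetProd (fun i _ => hd i)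
  obtain ⟨F, hF⟩ : ∃ F : ℂ → ℂ, F = fun z => 1 + ∑' J, (P (J + 1) z - P J z) := ⟨_, rfl⟩
  have hunif : ∀ r : ℝ, r < 1 → TendstoUniformlyOn P F atTop (Metric.closedBall 0 r) := by
    intro r hr
    have hb : ∀ (J : ℕ) (z : ℂ), z ∈ Metric.closedBall (0 : ℂ) r →
        ‖P (J + 1) z - P J z‖ ≤ (1 / 2) ^ J / (1 - r) := by
      intro J z hz
      rw [mem_closedBall_zero_iff] at hz
      have hzb : z ∈ Metric.ball (0 : ℂ) 1 := by
        rw [mem_ball_zero_iff]
        linarith
      have hz2 : 1 - r ≤ ‖1 - z‖ := by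
        have : ‖(1 : ℂ)‖ - ‖z‖ ≤ ‖1 - z‖ := norm_sub_norm_le _ _
        rw [norm_one] at this
        linarith
      have hs : 0 < 1 - r := by linarith
      rw [hPsucc, norm_mul]
      have h4 := h3 J z hzb
      rw [norm_mul] at h4
      have h5 := hPle J z hzb
      have h6 : ‖u J z - 1‖ ≤ (1 / 2) ^ J / (1 - r) := by
        rw [le_div_iff₀ hs]
        calc ‖u J z - 1‖ * (1 - r) ≤ ‖u J z - 1‖ * ‖1 - z‖ := by gcongr
          _ = ‖1 - z‖ * ‖u J z - 1‖ := by ring
          _ ≤ (1 / 2) ^ J := h4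
      calc ‖P J z‖ * ‖u J z - 1‖ ≤ 1 * ‖u J z - 1‖ := by gcongr
        _ = ‖u J z - 1‖ := one_mul _
        _ ≤ _ := h6
    have hsum : Summable (fun J : ℕ => ((1 : ℝ) / 2) ^ J / (1 - r)) :=
      (summable_geometric_two).div_const _
    have h7 := tendstoUniformlyOn_tsum_nat hsum hb
    have h8 : ∀ (N : ℕ) (z : ℂ), P N z = 1 + ∑ J ∈ range N, (P (J + 1) z - P J z) := by
      intro N z
      rw [Finset.sum_range_sub (fun J => P J z)]
      have : P 0 z = 1 := by rw [hP]; simp
      rw [this]; ring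
    rw [Metric.tendstoUniformlyOn_iff] at h7 ⊢
    intro ε hε
    filter_upwards [h7 ε hε] with N hN z hz
    have := hN z hz
    rw [hF]
    simp only
    rw [h8 N z, dist_add_left]
    exact this
  have hloc : TendstoLocallyUniformlyOn P F atTop (Metric.ball 0 1) := by
    intro v hv x hx
    rw [mem_ball_zero_iff] at hx
    refine ⟨Metric.closedBall 0 ((1 + ‖x‖) / 2), ?_, ?_⟩
    · refine mem_nhdsWithin_of_mem_nhds ?_
      refine Metric.closedBall_mem_nhds_of_mem ?_
      rw [mem_ball_zero_iff]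
      linarith
    · exact hunif ((1 + ‖x‖) / 2) (by linarith) v hv
  have hpt : ∀ z ∈ Metric.ball (0 : ℂ) 1, Tendsto (fun J => P J z) atTop (𝓝 (F z)) :=
    fun z hz => hloc.tendsto_at hz
  have hit : ∀ n : ℕ, (∀ J, DifferentiableOn ℂ (iteratedDeriv n (P J)) (Metric.ball 0 1)) ∧
      TendstoLocallyUniformlyOn (fun J => iteratedDeriv n (P J)) (iteratedDeriv n F) atTop
        (Metric.ball 0 1) := by
    intro n
    induction n with
    | zero =>
      refine ⟨fun J => ?_, ?_⟩
      · rw [iteratedDeriv_zero]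
        exact hPd J
      · simp only [iteratedDeriv_zero]
        exact hloc
    | succ n ih =>
      refine ⟨fun J => ?_, ?_⟩
      · rw [iteratedDeriv_succ]
        exact (ih.1 J).deriv Metric.isOpen_ball
      · simp only [iteratedDeriv_succ]
        exact ih.2.deriv (Eventually.of_forall ih.1) Metric.isOpen_ball
  refine ⟨F, ?_, ?_, ?_, ?_⟩
  · exact hloc.differentiableOn (Eventually.of_forall hPd) Metric.isOpen_ball
  · intro z hz
    exact le_of_tendsto (hpt z hz).norm (Eventually.of_forall (fun J => hPle J z hz))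
  · intro z hz
    have := hpt z hz
    rw [hP] at this
    exact this
  · intro n
    have h := ((hit n.toNat).2.tendsto_at (Metric.mem_ball_self one_pos)).div_const
      (n.toNat.factorial : ℂ)
    rw [hP] at h
    unfold cf
    by_cases hn : 0 ≤ n
    · simp only [hn, if_true]
      exact h
    · simp only [hn, if_false]
      exact tendsto_const_nhds

end NC
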