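import Pool.Agent.Helper859.NC.Defs
set_option autoImplicit false
open Finset Filter Topology

namespace NC

theorem toReal4 : (4 : ENNReal).toReal = 4 := by norm_num

theorem apply_single (T : MultAlg 4) (m : ℤ) :
    ∀ n : ℤ, ((T : lp (fun _ : ℤ => ℂ) 4 →L[ℂ] lp (fun _ : ℤ => ℂ) 4) (lp.single 4 m (1 : ℂ))) n =
      ((T : lp (fun _ : ℤ => ℂ) 4 →L[ℂ] lp (fun _ : ℤ => ℂ) 4) (e0 4)) (n - m) := by
  have key : ∀ k : ℤ, ∀ n : ℤ,
      ((T : lp (fun _ : ℤ => ℂ) 4 →L[ℂ] lp (fun _ : ℤ => ℂ) 4) (lp.single 4 (k + 1) (1 : ℂ))) n =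
      ((T : lp (fun _ : ℤ => ℂ) 4 →L[ℂ] lp (fun _ : ℤ => ℂ) 4) (lp.single 4 k (1 : ℂ))) (n - 1) := by
    intro k n
    apply T.2
    intro j
    simp only [lp.single_apply]
    by_cases hj : j = k + 1
    · subst hj
      simp
    · rw [Pi.single_eq_of_ne hj, Pi.single_eq_of_ne]
      omega
  induction m using Int.induction_on with
  | zero => intro n; simp [e0]
  | succ i ih =>
    intro n
    rw [key, ih, show n - 1 - (i : ℤ) = n - ((i : ℤ) + 1) by ring]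
  | pred i ih =>
    intro n
    have h := key (-(i : ℤ) - 1) (n + 1)
    rw [show -(i : ℤ) - 1 + 1 = -(i : ℤ) by ring, show n + 1 - 1 = n by ring] at h
    rw [← h, ih, show n + 1 - -(i : ℤ) = n - (-(i : ℤ) - 1) by ring]

theorem bound_of_mult (T : MultAlg 4) (a : ℤ →₀ ℂ) (s : Finset ℤ) :
    ∑ n ∈ s, ‖∑ m ∈ a.support, ((T : lp (fun _ : ℤ => ℂ) 4 →L[ℂ] lp (fun _ : ℤ => ℂ) 4) (e0 4)) (n - m) * a m‖ ^ 4 ≤
      ‖(T : lp (fun _ : ℤ => ℂ) 4 →L[ℂ] lp (fun _ : ℤ => ℂ) 4)‖ ^ 4 * ∑ m ∈ a.support, ‖a m‖ ^ 4 := by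
  set T' : lp (fun _ : ℤ => ℂ) 4 →L[ℂ] lp (fun _ : ℤ => ℂ) 4 := T.1 with hT'
  have hx : ∀ n : ℤ, (T' (∑ m ∈ a.support, lp.single 4 m (a m))) n =
      ∑ m ∈ a.support, (T' (e0 4)) (n - m) * a m := by
    intro n
    rw [map_sum, lp.coeFn_sum, Finset.sum_apply]
    refine Finset.sum_congr rfl fun m _ => ?_
    have h1 : lp.single (E := fun _ : ℤ => ℂ) 4 m (a m) = (a m) • lp.single (E := fun _ : ℤ => ℂ) 4 m (1 : ℂ) := by
      rw [← lp.single_smul]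
      simp
    rw [h1, map_smul, lp.coeFn_smul, Pi.smul_apply, smul_eq_mul, hT', apply_single T m n, mul_comm]
  have h4 : (0 : ℝ) < (4 : ENNReal).toReal := by rw [toReal4]; norm_num
  have h1 := lp.sum_rpow_le_norm_rpow h4 (T' (∑ m ∈ a.support, lp.single 4 m (a m))) s
  have h2 := lp.norm_sum_single (E := fun _ : ℤ => ℂ) h4 (fun m => a m) a.support
  rw [toReal4] at h1 h2
  have e1 : ∀ x : ℝ, x ^ (4 : ℝ) = x ^ (4 : ℕ) := fun x => by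
    rw [← Real.rpow_natCast]; norm_num
  simp only [e1] at h1 h2
  simp only [hx] at h1
  refine h1.trans ?_
  rw [← h2, ← mul_pow]
  exact pow_le_pow_left₀ (norm_nonneg _) (T'.le_opNorm _) 4

theorem fin_bound (K : ℝ) (c : ℤ → ℂ)
    (hb : ∀ (a : ℤ →₀ ℂ) (s : Finset ℤ),
      ∑ n ∈ s, ‖∑ m ∈ a.support, c (n - m) * a m‖ ^ 4 ≤ K ^ 4 * ∑ m ∈ a.support, ‖a m‖ ^ 4)
    (x : ℤ → ℂ) (F s : Finset ℤ) :
    ∑ n ∈ s, ‖∑ m ∈ F, c (n - m) * x m‖ ^ 4 ≤ K ^ 4 * ∑ m ∈ F, ‖x m‖ ^ 4 := by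
  classical
  set a : ℤ →₀ ℂ := Finsupp.onFinset F (fun m => if m ∈ F then x m else 0) (by
    intro m hm
    by_contra h
    simp [h] at hm) with ha
  have hsub : a.support ⊆ F := Finsupp.support_onFinset_subset
  have hav : ∀ m ∈ F, a m = x m := by
    intro m hm
    simp [ha, hm]
  have h1 : ∀ n, ∑ m ∈ a.support, c (n - m) * a m = ∑ m ∈ F, c (n - m) * x m := by
    intro n
    rw [Finset.sum_subset hsub (fun m _ hm => by
      rw [Finsupp.notMem_support_iff] at hm; rw [hm, mul_zero])]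
    exact Finset.sum_congr rfl fun m hm => by rw [hav m hm]
  have h2 : ∑ m ∈ a.support, ‖a m‖ ^ 4 = ∑ m ∈ F, ‖x m‖ ^ 4 := by
    rw [Finset.sum_subset hsub (fun m _ hm => by
      rw [Finsupp.notMem_support_iff] at hm; rw [hm]; simp)]
    exact Finset.sum_congr rfl fun m hm => by rw [hav m hm]
  have := hb a s
  simp only [h1, h2] at this
  exact this

theorem summable_43 (K : ℝ) (hK : 0 ≤ K) (c : ℤ → ℂ)
    (hf : ∀ (x : ℤ → ℂ) (F s : Finset ℤ),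
      ∑ n ∈ s, ‖∑ m ∈ F, c (n - m) * x m‖ ^ 4 ≤ K ^ 4 * ∑ m ∈ F, ‖x m‖ ^ 4) :
    Summable fun m : ℤ => ‖c m‖ ^ (4 / 3 : ℝ) := by
  have key : ∀ F : Finset ℤ, ∑ m ∈ F, ‖c (-m)‖ ^ (4 / 3 : ℝ) ≤ (K ^ 4) ^ (1 / 3 : ℝ) := by
    intro F
    set S := ∑ m ∈ F, ‖c (-m)‖ ^ (4 / 3 : ℝ) with hS
    have hS0 : 0 ≤ S := Finset.sum_nonneg fun m _ => Real.rpow_nonneg (norm_nonneg _) _
    set x : ℤ → ℂ := fun m => if c (-m) = 0 then 0 else
      (starRingEnd ℂ) (c (-m)) / (‖c (-m)‖ : ℂ) * ((‖c (-m)‖ ^ (1 / 3 : ℝ) : ℝ) : ℂ) with hx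
    have h1 : ∀ m, c (0 - m) * x m = ((‖c (-m)‖ ^ (4 / 3 : ℝ) : ℝ) : ℂ) := by
      intro m
      rw [zero_sub]
      simp only [hx]
      split_ifs with h
      · rw [h]; simp
      · have hn : ‖c (-m)‖ ≠ 0 := norm_ne_zero_iff.2 h
        have hnc : (‖c (-m)‖ : ℂ) ≠ 0 := by exact_mod_cast hn
        have e1 : c (-m) * ((starRingEnd ℂ) (c (-m)) / (‖c (-m)‖ : ℂ) * ((‖c (-m)‖ ^ (1 / 3 : ℝ) : ℝ) : ℂ))
            = (c (-m) * (starRingEnd ℂ) (c (-m))) / (‖c (-m)‖ : ℂ) * ((‖c (-m)‖ ^ (1 / 3 : ℝ) : ℝ) : ℂ) := by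
          ring
        rw [e1, Complex.mul_conj, Complex.normSq_eq_norm_sq]
        push_cast
        rw [sq, mul_div_assoc, div_self hnc, mul_one]
        rw [← Complex.ofReal_mul]
        congr 1
        have : ‖c (-m)‖ * ‖c (-m)‖ ^ (1 / 3 : ℝ) = ‖c (-m)‖ ^ (1 + 1 / 3 : ℝ) := by
          rw [Real.rpow_add (norm_pos_iff.2 h), Real.rpow_one]
        rw [this]
        norm_num
    have h2 : ∀ m, ‖x m‖ ^ 4 = ‖c (-m)‖ ^ (4 / 3 : ℝ) := by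
      intro m
      simp only [hx]
      split_ifs with h
      · rw [h]; simp
      · have hn : ‖c (-m)‖ ≠ 0 := norm_ne_zero_iff.2 h
        rw [norm_mul, norm_div, Complex.norm_conj]
        have e2 : ‖((‖c (-m)‖ : ℝ) : ℂ)‖ = ‖c (-m)‖ := by
          rw [Complex.norm_real]; simp
        rw [e2, div_self hn, one_mul, Complex.norm_real, Real.norm_of_nonneg (Real.rpow_nonneg (norm_nonneg _) _),
          ← Real.rpow_natCast, ← Real.rpow_mul (norm_nonneg _)]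
        norm_num
    have h3 := hf x F {0}
    rw [Finset.sum_singleton] at h3
    simp only [h1, h2] at h3
    rw [← Complex.ofReal_sum, ← hS, Complex.norm_real, Real.norm_of_nonneg hS0] at h3
    by_cases hSz : S = 0
    · rw [hSz]
      positivity
    · have hSp : 0 < S := lt_of_le_of_ne hS0 (Ne.symm hSz)
      have h4 : S ^ 3 ≤ K ^ 4 := by
        have : S ^ 4 = S ^ 3 * S := by ring
        rw [this] at h3
        exact le_of_mul_le_mul_right h3 hSp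
      calc S = (S ^ 3) ^ (1 / 3 : ℝ) := by
            rw [← Real.rpow_natCast, ← Real.rpow_mul hS0]; norm_num
        _ ≤ (K ^ 4) ^ (1 / 3 : ℝ) := Real.rpow_le_rpow (by positivity) h4 (by norm_num)
  have hs : Summable fun m : ℤ => ‖c (-m)‖ ^ (4 / 3 : ℝ) :=
    summable_of_sum_le (fun m => Real.rpow_nonneg (norm_nonneg _) _) key
  have := (Equiv.neg ℤ).summable_iff.2 hs
  refine this.congr fun m => ?_
  simp

theorem summable_conv (c : ℤ → ℂ) (h43 : Summable fun m : ℤ => ‖c m‖ ^ (4 / 3 : ℝ))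
    (x : lp (fun _ : ℤ => ℂ) 4) (n : ℤ) : Summable fun m : ℤ => c (n - m) * x m := by
  have hx : Summable fun m : ℤ => ‖x m‖ ^ (4 : ℝ) := by
    have := (lp.memℓp x).summable (by rw [toReal4]; norm_num)
    rw [toReal4] at this
    exact this
  have hc : Summable fun m : ℤ => ‖c (n - m)‖ ^ (4 / 3 : ℝ) :=
    (Equiv.subLeft n).summable_iff.2 h43
  have hsum : Summable fun m : ℤ => ‖c (n - m)‖ ^ (4 / 3 : ℝ) / (4 / 3) + ‖x m‖ ^ (4 : ℝ) / 4 :=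
    (hc.div_const _).add (hx.div_const _)
  refine Summable.of_norm_bounded hsum fun m => ?_
  rw [norm_mul]
  have hh : (4 / 3 : ℝ).HolderConjugate 4 := by
    rw [Real.holderConjugate_iff]
    constructor <;> norm_num
  exact Real.young_inequality_of_nonneg (norm_nonneg _) (norm_nonneg _) hh

theorem conv_bound (K : ℝ) (c : ℤ → ℂ)
    (h43 : Summable fun m : ℤ => ‖c m‖ ^ (4 / 3 : ℝ))
    (hf : ∀ (x : ℤ → ℂ) (F s : Finset ℤ),
      ∑ n ∈ s, ‖∑ m ∈ F, c (n - m) * x m‖ ^ 4 ≤ K ^ 4 * ∑ m ∈ F, ‖x m‖ ^ 4)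
    (x : lp (fun _ : ℤ => ℂ) 4) (s : Finset ℤ) :
    ∑ n ∈ s, ‖∑' m : ℤ, c (n - m) * x m‖ ^ 4 ≤ (K ^ 4) * ‖x‖ ^ 4 := by
  have h4 : (0 : ℝ) < (4 : ENNReal).toReal := by rw [toReal4]; norm_num
  have e1 : ∀ x : ℝ, x ^ (4 : ℝ) = x ^ (4 : ℕ) := fun x => by
    rw [← Real.rpow_natCast]; norm_num
  have hlim : Tendsto (fun F : Finset ℤ => ∑ n ∈ s, ‖∑ m ∈ F, c (n - m) * x m‖ ^ 4) atTop
      (𝓝 (∑ n ∈ s, ‖∑' m : ℤ, c (n - m) * x m‖ ^ 4)) := by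
    refine tendsto_finsetSum _ fun n _ => ?_
    exact ((summable_conv c h43 x n).hasSum.norm).pow 4
  refine le_of_tendsto hlim (Eventually.of_forall fun F => ?_)
  refine (hf (fun m => x m) F s).trans ?_
  have h1 := lp.sum_rpow_le_norm_rpow h4 x F
  rw [toReal4] at h1
  simp only [e1] at h1
  exact mul_le_mul_of_nonneg_left h1 (by positivity)

theorem exists_mult' (K : ℝ) (hK : 0 ≤ K) (c : ℤ → ℂ)
    (hf : ∀ (x : ℤ → ℂ) (F s : Finset ℤ),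
      ∑ n ∈ s, ‖∑ m ∈ F, c (n - m) * x m‖ ^ 4 ≤ K ^ 4 * ∑ m ∈ F, ‖x m‖ ^ 4) :
    ∃ T : MultAlg 4, ∀ (x : lp (fun _ : ℤ => ℂ) 4) (n : ℤ),
      ((T : lp (fun _ : ℤ => ℂ) 4 →L[ℂ] lp (fun _ : ℤ => ℂ) 4) x) n = ∑' m : ℤ, c (n - m) * x m := by
  have h43 := summable_43 K hK c hf
  have hcb := conv_bound K c h43 hf
  have e1 : ∀ x : ℝ, x ^ (4 : ℝ) = x ^ (4 : ℕ) := fun x => by
    rw [← Real.rpow_natCast]; norm_num
  have h4 : (0 : ℝ) < (4 : ENNReal).toReal := by rw [toReal4]; norm_num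
  have hmem : ∀ x : lp (fun _ : ℤ => ℂ) 4, Memℓp (fun n : ℤ => ∑' m : ℤ, c (n - m) * x m) 4 := by
    intro x
    refine memℓp_gen' (C := K ^ 4 * ‖x‖ ^ 4) fun s => ?_
    rw [toReal4]
    simp only [e1]
    exact hcb x s
  let L : lp (fun _ : ℤ => ℂ) 4 →ₗ[ℂ] lp (fun _ : ℤ => ℂ) 4 :=
    { toFun := fun x => ⟨fun n : ℤ => ∑' m : ℤ, c (n - m) * x m, hmem x⟩
      map_add' := by
        intro x y
        apply lp.ext
        funext n
        change ∑' m : ℤ, c (n - m) * (x + y : lp (fun _ : ℤ => ℂ) 4) m =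
          ∑' m : ℤ, c (n - m) * x m + ∑' m : ℤ, c (n - m) * y m
        rw [← (summable_conv c h43 x n).tsum_add (summable_conv c h43 y n)]
        refine tsum_congr fun m => ?_
        rw [lp.coeFn_add, Pi.add_apply, mul_add]
      map_smul' := by
        intro r x
        apply lp.ext
        funext n
        change ∑' m : ℤ, c (n - m) * (r • x : lp (fun _ : ℤ => ℂ) 4) m =
          r * ∑' m : ℤ, c (n - m) * x m
        rw [← tsum_mul_left]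
        refine tsum_congr fun m => ?_
        rw [lp.coeFn_smul, Pi.smul_apply, smul_eq_mul]
        ring }
  have hL : ∀ x n, (L x) n = ∑' m : ℤ, c (n - m) * x m := fun x n => rfl
  have hbd : ∀ x, ‖L x‖ ≤ K * ‖x‖ := by
    intro x
    refine lp.norm_le_of_forall_sum_le h4 (by positivity) fun s => ?_
    rw [toReal4]
    simp only [e1, mul_pow, hL]
    exact hcb x s
  refine ⟨⟨L.mkContinuous K hbd, ?_⟩, fun x n => hL x n⟩
  intro x y hxy n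
  change (L y) n = (L x) (n - 1)
  rw [hL, hL, ← (Equiv.addRight (1 : ℤ)).tsum_eq]
  refine tsum_congr fun m => ?_
  rw [Equiv.coe_addRight, hxy, show n - (m + 1) = n - 1 - m by ring, show m + 1 - 1 = m by ring]

theorem conv_e0 (c : ℤ → ℂ) (n : ℤ) : ∑' m : ℤ, c (n - m) * (e0 4) m = c n := by
  rw [tsum_eq_single (0 : ℤ)]
  · simp [e0]
  · intro m hm
    rw [e0, lp.single_apply_ne (E := fun _ : ℤ => ℂ) 4 0 (1 : ℂ) hm, mul_zero]

theorem exists_mult (K : ℝ) (hK : 0 ≤ K) (c : ℤ → ℂ)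
    (hb : ∀ (a : ℤ →₀ ℂ) (s : Finset ℤ),
      ∑ n ∈ s, ‖∑ m ∈ a.support, c (n - m) * a m‖ ^ 4 ≤ K ^ 4 * ∑ m ∈ a.support, ‖a m‖ ^ 4) :
    ∃ T : MultAlg 4, ∀ n : ℤ, ((T : lp (fun _ : ℤ => ℂ) 4 →L[ℂ] lp (fun _ : ℤ => ℂ) 4) (e0 4)) n = c n := by
  obtain ⟨T, hT⟩ := exists_mult' K hK c (fin_bound K c hb)
  exact ⟨T, fun n => by rw [hT, conv_e0]⟩

theorem refl_bound (K : ℝ) (c : ℤ → ℂ)
    (hf : ∀ (x : ℤ → ℂ) (F s : Finset ℤ),
      ∑ n ∈ s, ‖∑ m ∈ F, c (n - m) * x m‖ ^ 4 ≤ K ^ 4 * ∑ m ∈ F, ‖x m‖ ^ 4)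
    (x : ℤ → ℂ) (F s : Finset ℤ) :
      ∑ n ∈ s, ‖∑ m ∈ F, (starRingEnd ℂ) (c (-(n - m))) * x m‖ ^ 4 ≤
        K ^ 4 * ∑ m ∈ F, ‖x m‖ ^ 4 := by
  have h := hf (fun m => (starRingEnd ℂ) (x (-m))) (F.map (Equiv.neg ℤ).toEmbedding)
    (s.map (Equiv.neg ℤ).toEmbedding)
  simp only [Finset.sum_map, Equiv.coe_toEmbedding, Equiv.neg_apply, neg_neg, Complex.norm_conj] at h
  refine le_trans (le_of_eq ?_) h
  refine Finset.sum_congr rfl fun n _ => ?_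
  congr 1
  rw [← Complex.norm_conj, map_sum]
  congr 1
  refine Finset.sum_congr rfl fun m _ => ?_
  rw [map_mul, Complex.conj_conj]
  congr 2
  ring

theorem eq_one_of (R : MultAlg 4)
    (h : (R : lp (fun _ : ℤ => ℂ) 4 →L[ℂ] lp (fun _ : ℤ => ℂ) 4) (e0 4) = e0 4) : R = 1 := by
  apply Subtype.ext
  have key : (R : lp (fun _ : ℤ => ℂ) 4 →L[ℂ] lp (fun _ : ℤ => ℂ) 4) =
      ContinuousLinearMap.id ℂ (lp (fun _ : ℤ => ℂ) 4) := by
    refine lp.ext_continuousLinearMap (p := 4) (by norm_num) fun m => ?_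
    apply ContinuousLinearMap.ext_ring
    apply lp.ext
    funext n
    have h1 := apply_single R m n
    rw [h] at h1
    refine h1.trans ?_
    change (Pi.single (M := fun _ : ℤ => ℂ) (0 : ℤ) (1 : ℂ)) (n - m) = (Pi.single (M := fun _ : ℤ => ℂ) m (1 : ℂ)) n
    by_cases h : n = m
    · subst h; simp
    · rw [Pi.single_eq_of_ne h, Pi.single_eq_of_ne (sub_ne_zero.2 h)]
  exact key

theorem comp_e0 (c : ℤ → ℂ)
    (hac : ∀ n : ℤ, ∑' m : ℤ, c (n + m) * (starRingEnd ℂ) (c m) = if n = 0 then 1 else 0)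
    (T S : MultAlg 4)
    (hT : ∀ (x : lp (fun _ : ℤ => ℂ) 4) (n : ℤ),
      ((T : lp (fun _ : ℤ => ℂ) 4 →L[ℂ] lp (fun _ : ℤ => ℂ) 4) x) n = ∑' m : ℤ, c (n - m) * x m)
    (hS : ∀ m : ℤ, ((S : lp (fun _ : ℤ => ℂ) 4 →L[ℂ] lp (fun _ : ℤ => ℂ) 4) (e0 4)) m =
        (starRingEnd ℂ) (c (-m))) :
    (T : lp (fun _ : ℤ => ℂ) 4 →L[ℂ] lp (fun _ : ℤ => ℂ) 4)
      ((S : lp (fun _ : ℤ => ℂ) 4 →L[ℂ] lp (fun _ : ℤ => ℂ) 4) (e0 4)) = e0 4 := by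
  apply lp.ext
  funext n
  rw [hT]
  simp only [hS]
  rw [← (Equiv.neg ℤ).tsum_eq]
  simp only [Equiv.neg_apply, neg_neg, sub_neg_eq_add]
  rw [hac n]
  change (if n = 0 then (1 : ℂ) else 0) = (Pi.single (M := fun _ : ℤ => ℂ) (0 : ℤ) (1 : ℂ)) n
  by_cases hn : n = 0
  · subst hn; simp
  · rw [if_neg hn, Pi.single_eq_of_ne hn]

theorem exists_mult_inv (K : ℝ) (hK : 0 ≤ K) (c : ℤ → ℂ)
    (hb : ∀ (a : ℤ →₀ ℂ) (s : Finset ℤ),
      ∑ n ∈ s, ‖∑ m ∈ a.support, c (n - m) * a m‖ ^ 4 ≤ K ^ 4 * ∑ m ∈ a.support, ‖a m‖ ^ 4)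
    (h2 : Summable fun n : ℤ => ‖c n‖ ^ 2)
    (hac : ∀ n : ℤ, ∑' m : ℤ, c (n + m) * (starRingEnd ℂ) (c m) = if n = 0 then 1 else 0) :
    ∃ T S : MultAlg 4, (∀ n : ℤ, ((T : lp (fun _ : ℤ => ℂ) 4 →L[ℂ] lp (fun _ : ℤ => ℂ) 4) (e0 4)) n = c n) ∧
      T * S = 1 := by
  have hf := fin_bound K c hb
  obtain ⟨T, hT⟩ := exists_mult' K hK c hf
  obtain ⟨S, hS⟩ := exists_mult' K hK (fun k => (starRingEnd ℂ) (c (-k))) (refl_bound K c hf)
  have hS0 : ∀ m : ℤ, ((S : lp (fun _ : ℤ => ℂ) 4 →L[ℂ] lp (fun _ : ℤ => ℂ) 4) (e0 4)) m =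
        (starRingEnd ℂ) (c (-m)) := by
    intro m
    have h1 := hS (e0 4) m
    rw [h1]
    exact conv_e0 (fun k : ℤ => (starRingEnd ℂ) (c (-k))) m
  refine ⟨T, S, fun n => ?_, ?_⟩
  · have h1 := hT (e0 4) n
    rw [h1]
    exact conv_e0 c n
  · exact eq_one_of (T * S) (comp_e0 c hac T S hT hS0)

end NC
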