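import Pool.Agent.Helper859.VG.JA
set_option autoImplicit false
open Finset Filter Topology

namespace NC
open VG

/-- extension by zero -/
noncomputable def ac_ext (a : ℕ → ℂ) (n : ℤ) : ℂ := if 0 ≤ n then a n.toNat else 0

theorem ac_ext_cast (a : ℕ → ℂ) (n : ℕ) : ac_ext a (n : ℤ) = a n := by
  unfold ac_ext
  rw [if_pos (Int.natCast_nonneg n), Int.toNat_natCast]

theorem ac_ext_zero (a : ℕ → ℂ) {n : ℤ} (h : n ∉ Set.range (Nat.cast : ℕ → ℤ)) : ac_ext a n = 0 := by
  unfold ac_ext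
  rw [if_neg]
  intro hn
  exact h ⟨n.toNat, Int.toNat_of_nonneg hn⟩

theorem ac_ext_summable {a : ℕ → ℂ} (h : Summable fun m => ‖a m‖) :
    Summable fun n : ℤ => ‖ac_ext a n‖ := by
  have hinj : Function.Injective (Nat.cast : ℕ → ℤ) := Nat.cast_injective
  refine (hinj.summable_iff (f := fun n : ℤ => ‖ac_ext a n‖) ?_).1 ?_
  · intro n hn
    rw [ac_ext_zero a hn, norm_zero]
  · refine h.congr fun m => ?_
    show ‖a m‖ = ‖ac_ext a (m : ℤ)‖
    rw [ac_ext_cast]

theorem ac_ext_tsum (a : ℕ → ℂ) (z : ℂ) :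
    ∑' n : ℤ, ac_ext a n * z ^ n = ∑' m : ℕ, a m * z ^ m := by
  have hinj : Function.Injective (Nat.cast : ℕ → ℤ) := Nat.cast_injective
  rw [← hinj.tsum_eq (f := fun n : ℤ => ac_ext a n * z ^ n)]
  · exact tsum_congr fun m => by rw [ac_ext_cast, zpow_natCast]
  · intro n hn
    by_contra hc
    apply hn
    show ac_ext a n * z ^ n = 0
    rw [ac_ext_zero a hc, zero_mul]

/-- the autocorrelation coefficients -/
noncomputable def ac_r (a b : ℕ → ℂ) (n : ℤ) : ℂ :=
  ∑' m : ℕ, ac_ext a (n + m) * (starRingEnd ℂ) (b m)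

/-- shear -/
def ac_shear : ℤ × ℕ ≃ ℤ × ℕ where
  toFun p := (p.1 + p.2, p.2)
  invFun p := (p.1 - p.2, p.2)
  left_inv p := by simp
  right_inv p := by simp

theorem ac_prod_summable {a b : ℕ → ℂ} (ha : Summable fun m => ‖a m‖)
    (hb : Summable fun m => ‖b m‖) :
    Summable fun p : ℤ × ℕ => ‖ac_ext a (p.1 + p.2) * (starRingEnd ℂ) (b p.2)‖ := by
  have h1 : Summable fun p : ℤ × ℕ => ‖ac_ext a p.1 * (starRingEnd ℂ) (b p.2)‖ := by
    have h2 : Summable fun p : ℤ × ℕ => ‖ac_ext a p.1‖ * ‖b p.2‖ :=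
      (ac_ext_summable ha).mul_of_nonneg hb (fun _ => norm_nonneg _) (fun _ => norm_nonneg _)
    refine h2.congr fun p => ?_
    rw [norm_mul, RCLike.norm_conj]
  exact (ac_shear.summable_iff (f := fun p : ℤ × ℕ =>
    ‖ac_ext a p.1 * (starRingEnd ℂ) (b p.2)‖)).2 h1

theorem ac_r_summable {a b : ℕ → ℂ} (ha : Summable fun m => ‖a m‖)
    (hb : Summable fun m => ‖b m‖) : Summable fun n : ℤ => ‖ac_r a b n‖ := by
  have h := ac_prod_summable ha hb
  refine Summable.of_nonneg_of_le (fun n => norm_nonneg _) (fun n => ?_) h.prod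
  unfold ac_r
  exact norm_tsum_le_tsum_norm (h.prod_factor n)

theorem ac_r_tsum {a b : ℕ → ℂ} (ha : Summable fun m => ‖a m‖)
    (hb : Summable fun m => ‖b m‖) {z : ℂ} (hz : ‖z‖ = 1) :
    ∑' n : ℤ, ac_r a b n * z ^ n =
      (∑' m : ℕ, a m * z ^ m) * (starRingEnd ℂ) (∑' m : ℕ, b m * z ^ m) := by
  have hz0 : z ≠ 0 := by
    intro h; rw [h, norm_zero] at hz; exact zero_ne_one hz
  have h := ac_prod_summable ha hb
  have hH : Summable fun p : ℤ × ℕ =>
      ac_ext a (p.1 + p.2) * (starRingEnd ℂ) (b p.2) * z ^ p.1 := by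
    apply Summable.of_norm
    refine h.congr fun p => ?_
    rw [norm_mul _ (z ^ p.1), norm_zpow, hz, one_zpow, mul_one]
  have e1 : ∑' n : ℤ, ac_r a b n * z ^ n =
      ∑' p : ℤ × ℕ, ac_ext a (p.1 + p.2) * (starRingEnd ℂ) (b p.2) * z ^ p.1 := by
    rw [hH.tsum_prod]
    exact tsum_congr fun n => by unfold ac_r; rw [← tsum_mul_right]
  have e2 : ∑' p : ℤ × ℕ, ac_ext a (p.1 + p.2) * (starRingEnd ℂ) (b p.2) * z ^ p.1 =
      ∑' p : ℤ × ℕ, (ac_ext a p.1 * z ^ p.1) * (starRingEnd ℂ) (b p.2 * z ^ p.2) := by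
    rw [← ac_shear.tsum_eq (fun p : ℤ × ℕ => (ac_ext a p.1 * z ^ p.1) *
      (starRingEnd ℂ) (b p.2 * z ^ p.2))]
    refine tsum_congr fun p => ?_
    show _ = (ac_ext a (p.1 + p.2) * z ^ (p.1 + (p.2 : ℤ))) * (starRingEnd ℂ) (b p.2 * z ^ p.2)
    have hc : (starRingEnd ℂ) z = z⁻¹ := by
      rw [Complex.inv_def, Complex.normSq_eq_norm_sq, hz]; simp
    rw [map_mul, map_pow, hc, zpow_add₀ hz0, zpow_natCast, inv_pow]
    field_simp
  have s1 : Summable fun n : ℤ => ‖ac_ext a n * z ^ n‖ := by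
    refine (ac_ext_summable ha).congr fun n => ?_
    rw [norm_mul, norm_zpow, hz, one_zpow, mul_one]
  have s2 : Summable fun m : ℕ => ‖(starRingEnd ℂ) (b m * z ^ m)‖ := by
    refine hb.congr fun n => ?_
    rw [RCLike.norm_conj, norm_mul, norm_pow, hz, one_pow, mul_one]
  rw [e1, e2, ← ac_ext_tsum a z, Complex.conj_tsum, tsum_mul_tsum_of_summable_norm s1 s2]

theorem ac_r_nat (a b : ℕ → ℂ) (d : ℕ) :
    ac_r a b (d : ℤ) = ∑' m : ℕ, a (m + d) * (starRingEnd ℂ) (b m) := by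
  unfold ac_r
  refine tsum_congr fun m => ?_
  have : ((d : ℤ) + (m : ℤ)) = ((m + d : ℕ) : ℤ) := by push_cast; ring
  rw [this, ac_ext_cast]

/-- the space of square summable sequences -/
noncomputable abbrev ac_E := lp (fun _ : ℕ => ℂ) 2

theorem ac_mem {a : ℕ → ℂ} (h : Summable fun m => ‖a m‖) : Memℓp (E := fun _ : ℕ => ℂ) a 2 := by
  have h1 : Memℓp (E := fun _ : ℕ => ℂ) a 1 := by
    apply memℓp_gen
    refine h.congr fun m => ?_
    simp
  exact h1.of_exponent_ge (by norm_num)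

theorem ac_sq_summable (x : ac_E) : Summable fun m => ‖x m‖ ^ 2 := by
  have h := (lp.memℓp x).summable (by norm_num)
  refine h.congr fun m => ?_
  simp

/-- the shift -/
noncomputable def ac_sh (d : ℕ) (x : ac_E) : ac_E :=
  ⟨fun m => x (m + d), by
    apply memℓp_gen
    have h := ac_sq_summable x
    have h2 : Summable fun m => ‖x (m + d)‖ ^ 2 := (summable_nat_add_iff d).2 h
    refine h2.congr fun m => ?_
    simp⟩

theorem ac_sh_apply (d : ℕ) (x : ac_E) (m : ℕ) : ac_sh d x m = x (m + d) := rfl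

theorem ac_norm_sq (x : ac_E) : ‖x‖ ^ 2 = ∑' m, ‖x m‖ ^ 2 := by
  have h := lp.norm_rpow_eq_tsum (p := 2) (by norm_num) x
  simpa using h

theorem ac_sh_norm (d : ℕ) (x : ac_E) : ‖ac_sh d x‖ ≤ ‖x‖ := by
  have h : ‖ac_sh d x‖ ^ 2 ≤ ‖x‖ ^ 2 := by
    rw [ac_norm_sq, ac_norm_sq]
    have h1 := ac_sq_summable x
    have h2 : Summable fun m => ‖x (m + d)‖ ^ 2 := (summable_nat_add_iff d).2 h1
    exact Summable.tsum_le_tsum_of_inj (fun m => m + d) (add_left_injective d)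
      (fun c _ => by positivity) (fun m => by rw [ac_sh_apply]) h2 h1
  exact le_of_sq_le_sq h (norm_nonneg _) 

theorem ac_sh_sub (d : ℕ) (x y : ac_E) : ac_sh d x - ac_sh d y = ac_sh d (x - y) := by
  ext m
  rfl

theorem ac_inner (x y : ac_E) : inner ℂ x y = ∑' m, y m * (starRingEnd ℂ) (x m) := by
  rw [lp.inner_eq_tsum]
  exact tsum_congr fun m => by rw [RCLike.inner_apply]

/-- autocorrelation of the limit coefficients of products of unimodular analytic functions -/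
theorem autocorr (U : ℕ → ℂ → ℂ) (k : ℕ → ℕ → ℂ) (u : ℕ → ℕ → ℂ) (c : ℕ → ℂ)
    (hu : ∀ J, Summable fun m => ‖u J m‖) (hU : ∀ J z, ‖z‖ ≤ 1 → U J z = ∑' m, u J m * z ^ m)
    (hU1 : ∀ J z, ‖z‖ = 1 → ‖U J z‖ = 1) (hU0 : ∀ J, ‖U J 0 - 1‖ ≤ (1 / 2) ^ J)
    (hk : ∀ J, Summable fun m => ‖k J m‖)
    (hP : ∀ J z, ‖z‖ ≤ 1 → ∏ j ∈ range J, U j z = ∑' m, k J m * z ^ m)
    (hlim : ∀ m, Tendsto (fun J => k J m) atTop (𝓝 (c m))) :
    Summable (fun m => ‖c m‖ ^ 2) ∧
      ∀ d : ℕ, ∑' m : ℕ, c (m + d) * (starRingEnd ℂ) (c m) = if d = 0 then 1 else 0 := by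
  have hk0 : ∀ J, Summable fun m => ‖k J m‖ := hk
  have hprod1 : ∀ J z, ‖z‖ = 1 → ‖∏ j ∈ range J, U j z‖ = 1 := by
    intro J z hz
    rw [norm_prod]
    exact prod_eq_one fun j _ => hU1 j z hz
  have hconj1 : ∀ w : ℂ, ‖w‖ = 1 → w * (starRingEnd ℂ) w = 1 := by
    intro w hw
    rw [Complex.mul_conj, Complex.normSq_eq_norm_sq, hw]; simp
  -- first identity
  have key1 : ∀ (J d : ℕ), ∑' m : ℕ, k J (m + d) * (starRingEnd ℂ) (k J m) =
      if d = 0 then 1 else 0 := by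
    intro J d
    have h := coeff_unique (k := ac_r (k J) (k J)) (k' := fun n : ℤ => if n = 0 then 1 else 0)
      (ac_r_summable (hk J) (hk J)) (by
        apply summable_of_ne_finset_zero (s := {0})
        intro n hn
        rw [mem_singleton] at hn
        simp [hn]) (by
        intro z hz
        rw [ac_r_tsum (hk J) (hk J) hz, ← hP J z hz.le, hconj1 _ (hprod1 J z hz)]
        rw [tsum_eq_single 0]
        · simp
        · intro n hn
          simp [hn])
    rw [← ac_r_nat, h]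
    simp only [Nat.cast_eq_zero]
  -- second identity
  have key2 : ∀ J : ℕ, ∑' m : ℕ, k (J + 1) m * (starRingEnd ℂ) (k J m) = U J 0 := by
    intro J
    have h := coeff_unique (k := ac_r (k (J + 1)) (k J)) (k' := ac_ext (u J))
      (ac_r_summable (hk (J + 1)) (hk J)) (ac_ext_summable (hu J)) (by
        intro z hz
        rw [ac_r_tsum (hk (J + 1)) (hk J) hz, ← hP J z hz.le, ← hP (J + 1) z hz.le,
          prod_range_succ, ac_ext_tsum, ← hU J z hz.le]
        have := hconj1 _ (hprod1 J z hz)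
        linear_combination (U J z) * this)
    have h1 := ac_r_nat (k (J + 1)) (k J) 0
    simp only [add_zero] at h1
    rw [← h1, h, ac_ext_cast, hU J 0 (by simp)]
    rw [tsum_eq_single 0]
    · simp
    · intro n hn
      simp [hn]
  set x : ℕ → ac_E := fun J => ⟨k J, ac_mem (hk J)⟩ with hx
  have hxa : ∀ J m, x J m = k J m := fun J m => rfl
  have hin : ∀ J d, inner ℂ (x J) (ac_sh d (x J)) = (if d = 0 then 1 else 0 : ℂ) := by
    intro J d
    rw [ac_inner, ← key1 J d]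
    rfl
  have hnorm : ∀ J, ‖x J‖ ^ 2 = 1 := by
    intro J
    have h1 : inner ℂ (x J) (x J) = (1 : ℂ) := by
      rw [ac_inner]
      have := key1 J 0
      simpa using this
    have h2 := inner_self_eq_norm_sq (𝕜 := ℂ) (x J)
    rw [h1] at h2
    rw [← h2]; simp
  have hdist : ∀ J, dist (x J) (x (J + 1)) ≤ 2 * (3 / 4) ^ J := by
    intro J
    rw [dist_eq_norm]
    have h1 : ‖x J - x (J + 1)‖ ^ 2 = 2 * (1 - (U J 0).re) := by
      have h2 : inner ℂ (x J) (x (J + 1)) = U J 0 := by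
        rw [ac_inner]; exact key2 J
      rw [norm_sub_sq (𝕜 := ℂ), hnorm, hnorm, h2]
      simp only [RCLike.re_to_complex]
      ring
    have h3 : 1 - (U J 0).re ≤ (1 / 2) ^ J := by
      have h4 := Complex.abs_re_le_norm (U J 0 - 1)
      have h5 := neg_abs_le ((U J 0 - 1).re)
      simp only [Complex.sub_re, Complex.one_re] at h4 h5
      have h6 := hU0 J
      linarith
    have h7 : ((1 : ℝ) / 2) ^ J ≤ (9 / 16) ^ J := pow_le_pow_left₀ (by norm_num) (by norm_num) J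
    have h8 : ‖x J - x (J + 1)‖ ^ 2 ≤ (2 * (3 / 4) ^ J) ^ 2 := by
      have h9 : (2 * ((3 : ℝ) / 4) ^ J) ^ 2 = 4 * (9 / 16) ^ J := by
        rw [mul_pow, ← pow_mul, mul_comm J 2, pow_mul]; norm_num
      have h10 : (0 : ℝ) ≤ (9 / 16) ^ J := by positivity
      rw [h9, h1]
      linarith
    exact le_of_sq_le_sq h8 (by positivity)
  obtain ⟨X, hX⟩ := cauchySeq_tendsto_of_complete
    (cauchySeq_of_le_geometric (3 / 4) 2 (by norm_num) hdist)
  have hX0 : Tendsto (fun J => ‖x J - X‖) atTop (𝓝 0) := tendsto_iff_norm_sub_tendsto_zero.1 hX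
  have hcX : ∀ m, c m = X m := by
    intro m
    refine tendsto_nhds_unique (hlim m) ?_
    rw [tendsto_iff_norm_sub_tendsto_zero]
    refine squeeze_zero (fun J => norm_nonneg _) (fun J => ?_) hX0
    have h1 := lp.norm_apply_le_norm (p := 2) (by norm_num) (x J - X) m
    exact h1
  have hfin : ∀ d, inner ℂ X (ac_sh d X) = (if d = 0 then 1 else 0 : ℂ) := by
    intro d
    have hsh : Tendsto (fun J => ac_sh d (x J)) atTop (𝓝 (ac_sh d X)) := by
      rw [tendsto_iff_norm_sub_tendsto_zero]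
      refine squeeze_zero (fun J => norm_nonneg _) (fun J => ?_) hX0
      rw [ac_sh_sub]
      exact ac_sh_norm d _
    have h1 : Tendsto (fun J => inner ℂ (x J) (ac_sh d (x J))) atTop (𝓝 (inner ℂ X (ac_sh d X))) :=
      hX.inner hsh
    simp only [hin] at h1
    exact (tendsto_nhds_unique h1 tendsto_const_nhds)
  refine ⟨?_, ?_⟩
  · refine (ac_sq_summable X).congr fun m => ?_
    rw [hcX m]
  · intro d
    rw [← hfin d, ac_inner]
    refine tsum_congr fun m => ?_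
    rw [hcX m, hcX (m + d)]
    rfl

end NC

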