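import Pool.Agent.Helper859.NC.Defs
set_option autoImplicit false
open Finset

namespace NC

end NC

namespace NC

theorem rs_pair_bound (s : ℕ) {w : ℂ} (hw : ‖w‖ ≤ 1) :
    ‖(rs s w).1‖ ^ 2 + ‖(rs s w).2‖ ^ 2 ≤ 2 ^ (s + 1) := by
  induction s with
  | zero => simp [rs]; norm_num
  | succ s ih =>
    have hv : ‖w ^ (2 ^ s)‖ ≤ 1 := by
      rw [norm_pow]
      exact pow_le_one₀ (norm_nonneg w) hw
    have h1 := parallelogram_law_with_norm ℝ (rs s w).1 (w ^ (2 ^ s) * (rs s w).2)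
    have h2 : ‖w ^ (2 ^ s) * (rs s w).2‖ ≤ ‖(rs s w).2‖ := by
      rw [norm_mul]
      exact mul_le_of_le_one_left (norm_nonneg _) hv
    have h3 : ‖w ^ (2 ^ s) * (rs s w).2‖ ^ 2 ≤ ‖(rs s w).2‖ ^ 2 :=
      pow_le_pow_left₀ (norm_nonneg _) h2 2
    have h4 : (2 : ℝ) ^ (s + 1 + 1) = 2 * 2 ^ (s + 1) := by ring
    rw [h4]
    show ‖(rs s w).1 + w ^ (2 ^ s) * (rs s w).2‖ ^ 2 + ‖(rs s w).1 - w ^ (2 ^ s) * (rs s w).2‖ ^ 2 ≤ _
    nlinarith

theorem rsP_bound (s : ℕ) {w : ℂ} (hw : ‖w‖ ≤ 1) : ‖rsP s w‖ ^ 2 ≤ 2 ^ (s + 1) := by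
  have h := rs_pair_bound s hw
  have h2 : 0 ≤ ‖(rs s w).2‖ ^ 2 := by positivity
  unfold rsP
  linarith

theorem rs_pair_coef (s : ℕ) : ∃ a b : ℕ → ℝ, (∀ m, a m = 1 ∨ a m = -1) ∧ (∀ m, b m = 1 ∨ b m = -1) ∧
    ∀ w : ℂ, (rs s w).1 = ∑ m ∈ range (2 ^ s), (a m : ℂ) * w ^ m ∧
      (rs s w).2 = ∑ m ∈ range (2 ^ s), (b m : ℂ) * w ^ m := by
  induction s with
  | zero =>
    refine ⟨fun _ => 1, fun _ => 1, fun _ => Or.inl rfl, fun _ => Or.inl rfl, fun w => ?_⟩
    simp [rs]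
  | succ s ih =>
    obtain ⟨a, b, ha, hb, h⟩ := ih
    refine ⟨fun m => if m < 2 ^ s then a m else b (m - 2 ^ s),
      fun m => if m < 2 ^ s then a m else - b (m - 2 ^ s), ?_, ?_, ?_⟩
    · intro m
      by_cases hm : m < 2 ^ s
      · simp only [hm, if_true]; exact ha m
      · simp only [hm, if_false]; exact hb _
    · intro m
      by_cases hm : m < 2 ^ s
      · simp only [hm, if_true]; exact ha m
      · simp only [hm, if_false]
        rcases hb (m - 2 ^ s) with h1 | h1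
        · right; rw [h1]
        · left; rw [h1]; norm_num
    · intro w
      obtain ⟨h1, h2⟩ := h w
      have hpow : 2 ^ (s + 1) = 2 ^ s + 2 ^ s := by ring
      constructor
      · show (rs s w).1 + w ^ (2 ^ s) * (rs s w).2 = _
        rw [hpow, Finset.sum_range_add, h1, h2]
        congr 1
        · refine Finset.sum_congr rfl (fun m hm => ?_)
          rw [Finset.mem_range] at hm
          simp only [hm, if_true]
        · rw [Finset.mul_sum]
          refine Finset.sum_congr rfl (fun m _ => ?_)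
          have h3 : ¬ (2 ^ s + m < 2 ^ s) := by omega
          simp only [h3, if_false, Nat.add_sub_cancel_left]
          rw [pow_add]
          ring
      · show (rs s w).1 - w ^ (2 ^ s) * (rs s w).2 = _
        rw [hpow, Finset.sum_range_add, h1, h2, sub_eq_add_neg]
        congr 1
        · refine Finset.sum_congr rfl (fun m hm => ?_)
          rw [Finset.mem_range] at hm
          simp only [hm, if_true]
        · rw [Finset.mul_sum, ← Finset.sum_neg_distrib]
          refine Finset.sum_congr rfl (fun m _ => ?_)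
          have h3 : ¬ (2 ^ s + m < 2 ^ s) := by omega
          simp only [h3, if_false, Nat.add_sub_cancel_left]
          rw [pow_add]
          push_cast
          ring

theorem rsP_coef (s : ℕ) : ∃ ε : ℕ → ℝ, (∀ m, ε m = 1 ∨ ε m = -1) ∧
    ∀ w : ℂ, rsP s w = ∑ m ∈ range (2 ^ s), (ε m : ℂ) * w ^ m := by
  obtain ⟨a, b, ha, _, h⟩ := rs_pair_coef s
  exact ⟨a, ha, fun w => (h w).1⟩

theorem sum_block (f : ℕ → ℂ) (a b : ℕ) :
    ∑ m ∈ range (a * b), f m = ∑ j ∈ range b, ∑ i ∈ range a, f (a * j + i) := by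
  induction b with
  | zero => simp
  | succ b ih => rw [Nat.mul_succ, Finset.sum_range_add, ih, Finset.sum_range_succ]

theorem prod_rs (s q : ℕ) : ∃ g : ℕ → ℝ, (∀ m, g m = 1 ∨ g m = -1) ∧
    ∀ w : ℂ, ∏ i ∈ range q, rsP s (w ^ (2 ^ (s * i))) = ∑ m ∈ range (2 ^ (s * q)), (g m : ℂ) * w ^ m := by
  obtain ⟨ε, hε, hrs⟩ := rsP_coef s
  induction q with
  | zero =>
    refine ⟨fun _ => 1, fun _ => Or.inl rfl, fun w => ?_⟩
    simp
  | succ q ih =>
    obtain ⟨g, hg, h⟩ := ih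
    refine ⟨fun m => g (m % 2 ^ (s * q)) * ε (m / 2 ^ (s * q)), ?_, ?_⟩
    · intro m
      rcases hg (m % 2 ^ (s * q)) with h1 | h1 <;> rcases hε (m / 2 ^ (s * q)) with h2 | h2 <;>
        simp only [h1, h2] <;> norm_num
    · intro w
      have hpow : 2 ^ (s * (q + 1)) = 2 ^ (s * q) * 2 ^ s := by
        rw [← pow_add]; congr 1
      rw [Finset.prod_range_succ, h, hrs, hpow, sum_block, Finset.sum_mul_sum, Finset.sum_comm]
      refine Finset.sum_congr rfl (fun j _ => Finset.sum_congr rfl (fun i hi => ?_))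
      rw [Finset.mem_range] at hi
      have hpos : 0 < 2 ^ (s * q) := by positivity
      have e1 : (2 ^ (s * q) * j + i) % 2 ^ (s * q) = i := by
        rw [Nat.mul_add_mod, Nat.mod_eq_of_lt hi]
      have e2 : (2 ^ (s * q) * j + i) / 2 ^ (s * q) = j := by
        rw [Nat.mul_add_div hpos, Nat.div_eq_of_lt hi, Nat.add_zero]
      simp only [e1, e2]
      rw [pow_add, pow_mul]
      push_cast
      ring

end NC
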