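import Pool.Agent.Helper859.NC.Defs
import Pool.Agent.MP58366f.Wiener
set_option autoImplicit false
open Finset

namespace NC

end NC

namespace NC

theorem lc_one (δ δ' : ℝ) : lc δ δ' 1 = 0 := by
  unfold lc
  simp

theorem j3410_re {z : ℂ} (hz : ‖z‖ ≤ 1) : 0 ≤ (1 - z).re := by
  have := (Complex.re_le_norm z).trans hz
  rw [Complex.sub_re, Complex.one_re]
  linarith

theorem j3410_ne {z : ℂ} (hz : ‖z‖ ≤ 1) {d : ℝ} (hd : 0 < d) : (1 - z + d : ℂ) ≠ 0 := by
  intro h
  have h1 := congrArg Complex.re h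
  rw [Complex.add_re, Complex.ofReal_re, Complex.zero_re] at h1
  linarith [j3410_re hz]

theorem j3410_g1 {d : ℝ} (hd : 0 < d) : AN 1 (fun z => (d : ℂ) / (1 - z + d)) := by
  have hq : ‖((1 / (1 + d) : ℝ) : ℂ)‖ = 1 / (1 + d) := by
    rw [Complex.norm_real, Real.norm_of_nonneg (by positivity)]
  have hr : 1 / (1 + d) < 1 := by
    rw [div_lt_one (by linarith)]
    linarith
  have h1 := W702.AN_mul (W702.AN_const ((d / (1 + d) : ℝ) : ℂ)) (W702.AN_geom hq hr)
  refine W702.AN_congr (W702.AN_mono h1 ?_) ?_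
  · rw [Complex.norm_real, Real.norm_of_nonneg (by positivity)]
    have h2 : 1 - 1 / (1 + d) = d / (1 + d) := by field_simp; ring
    rw [h2]
    have h3 : d / (1 + d) * (1 / (d / (1 + d))) = 1 := by field_simp
    exact h3.le
  · intro z hz
    have h2 := j3410_ne hz hd
    have h3 : (1 + d : ℂ) ≠ 0 := by
      intro h
      have := congrArg Complex.re h
      simp at this
      linarith
    have h4 : (1 - ((1 / (1 + d) : ℝ) : ℂ) * z) = (1 - z + d) / (1 + d) := by
      push_cast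
      field_simp
      ring
    rw [h4]
    push_cast
    field_simp

theorem j3410_g2 {d : ℝ} (hd : 0 < d) : AN 2 (fun z => (1 - z : ℂ) / (1 - z + d)) := by
  have h1 := W702.AN_add (W702.AN_const 1) (W702.AN_mul (W702.AN_const (-1)) (j3410_g1 hd))
  refine W702.AN_congr (W702.AN_mono h1 ?_) ?_
  · norm_num
  · intro z hz
    have h2 := j3410_ne hz hd
    field_simp
    ring

theorem lc_re (δ δ' : ℝ) (hδ : 0 < δ) (hδ' : 0 < δ') {z : ℂ} (hz : ‖z‖ ≤ 1) :
    ‖lc δ δ' z‖ ^ 2 ≤ (lc δ δ' z).re := by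
  have hx := j3410_re hz
  unfold lc
  rw [← Complex.normSq_eq_norm_sq, Complex.normSq_div, Complex.div_re, ← add_div]
  apply div_le_div_of_nonneg_right _ (Complex.normSq_nonneg _)
  generalize (1 - z) = ξ at hx ⊢
  simp only [Complex.normSq_apply, Complex.mul_re, Complex.mul_im, Complex.add_re, Complex.add_im,
    Complex.ofReal_re, Complex.ofReal_im]
  have h1 : 0 ≤ (ξ.re * ξ.re + ξ.im * ξ.im) * (ξ.re + δ') * δ := by
    have : 0 ≤ ξ.re * ξ.re + ξ.im * ξ.im := by nlinarith [sq_nonneg ξ.re, sq_nonneg ξ.im]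
    positivity
  have h2 : 0 ≤ δ * δ' * ξ.re * δ := by positivity
  nlinarith [h1, h2]

theorem lc_norm (δ δ' : ℝ) (hδ : 0 < δ) (hδ' : 0 < δ') {z : ℂ} (hz : ‖z‖ ≤ 1) : ‖lc δ δ' z‖ ≤ 1 := by
  have h1 := lc_re δ δ' hδ hδ' hz
  have h2 := Complex.re_le_norm (lc δ δ' z)
  have h3 := norm_nonneg (lc δ δ' z)
  by_contra h
  push Not at h
  nlinarith

theorem lc_AN (δ δ' : ℝ) (hδ : 0 < δ) (hδ' : 0 < δ') :
    AN 2 (lc δ δ') ∧ AN (4 * δ) (fun z => (1 - z) * lc δ δ' z) := by
  constructor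
  · refine W702.AN_congr (W702.AN_mono (W702.AN_mul (j3410_g2 hδ') (j3410_g1 hδ)) ?_) ?_
    · norm_num
    · intro z hz
      have h1 := j3410_ne hz hδ
      have h2 := j3410_ne hz hδ'
      unfold lc
      rw [div_mul_div_comm]
  · refine W702.AN_congr (W702.AN_mono (W702.AN_mul (W702.AN_const (δ : ℂ))
      (W702.AN_mul (j3410_g2 hδ') (j3410_g2 hδ))) ?_) ?_
    · rw [Complex.norm_real, Real.norm_of_nonneg hδ.le]
      linarith
    · intro z hz
      have h1 := j3410_ne hz hδ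
      have h2 := j3410_ne hz hδ'
      unfold lc
      rw [div_mul_div_comm, mul_div_assoc', mul_div_assoc']
      congr 1
      ring

theorem lc_near (δ δ' : ℝ) (hδ : 0 < δ) (hδ' : 0 < δ') {z : ℂ} (hz : ‖z‖ < 1) :
    ‖lc δ δ' z - 1‖ ≤ δ' / (1 - ‖z‖) + ‖1 - z‖ / δ := by
  have h1 := j3410_ne hz.le hδ
  have h2 := j3410_ne hz.le hδ'
  have hx := j3410_re hz.le
  have h3 : lc δ δ' z - 1 = -((δ' : ℂ) / (1 - z + δ') + (1 - z) / (1 - z + δ) *
      ((1 - z) / (1 - z + δ'))) := by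
    unfold lc
    field_simp
    ring
  rw [h3, norm_neg]
  refine (norm_add_le _ _).trans ?_
  apply add_le_add
  · rw [norm_div, Complex.norm_real, Real.norm_of_nonneg hδ'.le]
    apply div_le_div_of_nonneg_left hδ'.le (by linarith)
    have h4 := Complex.re_le_norm (1 - z + δ' : ℂ)
    rw [Complex.add_re, Complex.ofReal_re, Complex.sub_re, Complex.one_re] at h4
    have h5 := Complex.re_le_norm z
    linarith
  · rw [norm_mul, norm_div, norm_div]
    have h4 : ‖(1 - z : ℂ)‖ / ‖(1 - z + δ' : ℂ)‖ ≤ 1 := by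
      rw [div_le_one (norm_pos_iff.2 h2)]
      apply le_of_sq_le_sq _ (norm_nonneg _)
      rw [← Complex.normSq_eq_norm_sq, ← Complex.normSq_eq_norm_sq, Complex.normSq_apply,
        Complex.normSq_apply, Complex.add_re, Complex.add_im, Complex.ofReal_re,
        Complex.ofReal_im, add_zero]
      nlinarith
    have h5 : ‖(1 - z : ℂ)‖ / ‖(1 - z + δ : ℂ)‖ ≤ ‖(1 - z : ℂ)‖ / δ := by
      apply div_le_div_of_nonneg_left (norm_nonneg _) hδ
      have h6 := Complex.re_le_norm (1 - z + δ : ℂ)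
      rw [Complex.add_re, Complex.ofReal_re] at h6
      linarith
    calc _ ≤ ‖(1 - z : ℂ)‖ / δ * 1 := by
          apply mul_le_mul h5 h4 (by positivity) (by positivity)
      _ = _ := mul_one _

end NC
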