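import Pool.Agent.Helper859.NC.Defs
import Pool.Agent.Helper859.NC.N1
import Pool.Agent.Helper859.NC.N2
import Pool.Agent.Helper859.NC.N3
import Pool.Agent.MP58366f.Wiener
import Pool.Agent.MP58366f.Block
set_option autoImplicit false
open Finset

namespace NC

end NC

namespace NC

end NC

namespace NC

end NC

namespace NC

/-! GIVEN (proved elsewhere, leave the sorries) -/
theorem AN_norm_le {c : ℝ} {f : ℂ → ℂ} (hf : AN c f) {z : ℂ} (hz : ‖z‖ ≤ 1) : ‖f z‖ ≤ c := by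
  obtain ⟨k, hk, hkc, hkf⟩ := hf
  rw [hkf z hz]
  have h1 := W702.AN_summable hk hz
  refine (norm_tsum_le_tsum_norm h1).trans (le_trans ?_ hkc)
  refine h1.tsum_le_tsum (fun m => ?_) hk
  rw [norm_mul, norm_pow]
  exact mul_le_of_le_one_right (norm_nonneg _) (pow_le_one₀ (norm_nonneg _) hz)

theorem AN_sum_ex (s : Finset ℕ) (f : ℕ → ℂ → ℂ) (h : ∀ i ∈ s, ∃ c, AN c (f i)) :
    ∃ c, AN c (fun z => ∑ i ∈ s, f i z) := by
  induction s using Finset.induction_on with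
  | empty =>
    refine ⟨‖(0 : ℂ)‖, ?_⟩
    exact W702.AN_congr (W702.AN_const 0) (fun z _ => by simp)
  | insert a s ha ih =>
    obtain ⟨c, hc⟩ := h a (Finset.mem_insert_self _ _)
    obtain ⟨c', hc'⟩ := ih (fun i hi => h i (Finset.mem_insert_of_mem hi))
    refine ⟨c + c', W702.AN_congr (W702.AN_add hc hc') (fun z _ => ?_)⟩
    rw [Finset.sum_insert ha]

theorem AN_rsP (s D : ℕ) : ∃ c, AN c (fun z => rsP s (z ^ D)) := by
  obtain ⟨ε, _, hε⟩ := rsP_coef s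
  obtain ⟨c, hc⟩ := AN_sum_ex (range (2 ^ s)) (fun m z => (ε m : ℂ) * z ^ (D * m))
    (fun m _ => ⟨_, W702.AN_monomial _ _⟩)
  refine ⟨c, W702.AN_congr hc (fun z _ => ?_)⟩
  rw [hε]
  apply Finset.sum_congr rfl
  intro m _
  rw [pow_mul]

theorem rsP_norm (σ : ℕ) {w : ℂ} (hw : ‖w‖ ≤ 1) : ‖rsP (4 * σ) w‖ ≤ 2 * 4 ^ σ := by
  have h := rsP_bound (4 * σ) hw
  have h0 : (2 : ℝ) ^ (4 * σ + 1) = 2 * (4 ^ σ) ^ 2 := by
    rw [pow_succ, pow_mul, ← pow_mul 4 σ 2, mul_comm σ 2, pow_mul]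
    norm_num
    ring
  rw [h0] at h
  have h4 : (0 : ℝ) < 4 ^ σ := by positivity
  have h1 : ‖rsP (4 * σ) w‖ ^ 2 ≤ (2 * 4 ^ σ) ^ 2 := by nlinarith
  exact (pow_le_pow_iff_left₀ (norm_nonneg _) (by positivity) two_ne_zero).1 h1

theorem S_norm (σ q M : ℕ) (hq : 1 ≤ q) (t : ℕ → ℂ) (ht : ∀ i, ‖t i‖ = 1) {z : ℂ}
    (hz : ‖z‖ ≤ 1) :
    ‖(1 / (q : ℂ)) * (1 / 8 ^ σ) *
      ∑ i ∈ range q, t i * rsP (4 * σ) (z ^ (M * 2 ^ (4 * σ * i)))‖ ≤ 2 / 2 ^ σ := by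
  have hq' : (0 : ℝ) < q := by exact_mod_cast hq
  have h1 : ‖∑ i ∈ range q, t i * rsP (4 * σ) (z ^ (M * 2 ^ (4 * σ * i)))‖ ≤
      q * (2 * 4 ^ σ) := by
    refine (norm_sum_le _ _).trans ?_
    have : ∑ i ∈ range q, ‖t i * rsP (4 * σ) (z ^ (M * 2 ^ (4 * σ * i)))‖ ≤
        ∑ i ∈ range q, (2 * 4 ^ σ : ℝ) := by
      apply Finset.sum_le_sum
      intro i _
      rw [norm_mul, ht i, one_mul]
      apply rsP_norm
      rw [norm_pow]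
      exact pow_le_one₀ (norm_nonneg _) hz
    rw [Finset.sum_const, Finset.card_range, nsmul_eq_mul] at this
    exact this
  rw [norm_mul, norm_mul, norm_div, norm_div, norm_one, norm_pow]
  have e8 : ‖(8 : ℂ)‖ = 8 := by norm_num
  rw [e8, Complex.norm_natCast]
  calc 1 / (q : ℝ) * (1 / 8 ^ σ) * ‖∑ i ∈ range q, t i * rsP (4 * σ) (z ^ (M * 2 ^ (4 * σ * i)))‖
      ≤ 1 / (q : ℝ) * (1 / 8 ^ σ) * (q * (2 * 4 ^ σ)) := by gcongr
    _ = 2 / 2 ^ σ := by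
      have e : (8 : ℝ) ^ σ = 2 ^ σ * 4 ^ σ := by
        rw [← mul_pow]
        norm_num
      rw [e]
      field_simp

/-! TARGET -/
theorem Vb_props (σ q M : ℕ) (hσ : 7 ≤ σ) (hq : 1 ≤ q) (δ δ' : ℝ) (hδ : 0 < δ) (hδ' : 0 < δ')
    (t : ℕ → ℂ) (ht : ∀ i, ‖t i‖ = 1) :
    (∃ c, AN c (Vb σ q M δ δ' t)) ∧ Vb σ q M δ δ' t 1 = 1 ∧
    (∀ z : ℂ, ‖z‖ ≤ 1 → ‖Vb σ q M δ δ' t z‖ ≤ 1) ∧
    (∀ z : ℂ, ‖z‖ ≤ 1 → 1 - 64 / 2 ^ σ ≤ ‖Vb σ q M δ δ' t z‖) ∧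
    (∀ (N : ℕ) [NeZero N], IM.MB 300 (fun j : ZMod N => Vb σ q M δ δ' t (IM.E j))) ∧
    (∀ (N : ℕ) [NeZero N], IM.MB (200 * δ) (fun j : ZMod N => (1 - IM.E j) * (Vb σ q M δ δ' t (IM.E j) - 1))) ∧
    (∀ z : ℂ, ‖z‖ ≤ 1 → ‖(1 - z) * (Vb σ q M δ δ' t z - 1)‖ ≤ 200 * δ) := by
  have h2σ : (128 : ℝ) ≤ 2 ^ σ := by
    calc (128 : ℝ) = 2 ^ 7 := by norm_num
      _ ≤ 2 ^ σ := pow_le_pow_right₀ (by norm_num) hσ
  have h2σ0 : (0 : ℝ) < 2 ^ σ := by positivity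
  obtain ⟨ν, hν⟩ : ∃ ν : ℝ, ν = 2 / 2 ^ σ := ⟨_, rfl⟩
  have hν0 : 0 < ν := by rw [hν]; positivity
  have hν1 : ν ≤ 1 / 64 := by
    rw [hν, div_le_div_iff₀ h2σ0 (by norm_num)]
    linarith
  have hq' : (0 : ℝ) < q := by exact_mod_cast hq
  have hqC : (q : ℂ) ≠ 0 := by
    exact_mod_cast hq'.ne'
  -- the function S
  obtain ⟨S, hS⟩ : ∃ S : ℂ → ℂ, S = fun z => (1 / (q : ℂ)) * (1 / 8 ^ σ) *
      ∑ i ∈ range q, t i * rsP (4 * σ) (z ^ (M * 2 ^ (4 * σ * i))) := ⟨_, rfl⟩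
  have hSn : ∀ z : ℂ, ‖z‖ ≤ 1 → ‖S z‖ ≤ ν := by
    intro z hz
    rw [hS, hν]
    exact S_norm σ q M hq t ht hz
  have hVb : ∀ z, Vb σ q M δ δ' t z =
      1 - ((24 * ν : ℝ) : ℂ) * lc δ δ' z + 8 * (lc δ δ' z * lc δ δ' z) * S z := by
    intro z
    have e : ((24 * ν : ℝ) : ℂ) = 48 / 2 ^ σ := by
      rw [hν]
      push_cast
      ring
    rw [e, hS]
    unfold Vb
    ring
  have hSAN : ∃ c, AN c S := by
    obtain ⟨c, hc⟩ := AN_sum_ex (range q)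
      (fun i z => t i * rsP (4 * σ) (z ^ (M * 2 ^ (4 * σ * i)))) (by
        intro i _
        obtain ⟨c, hc⟩ := AN_rsP (4 * σ) (M * 2 ^ (4 * σ * i))
        exact ⟨_, W702.AN_mul (W702.AN_const (t i)) hc⟩)
    rw [hS]
    exact ⟨_, W702.AN_mul (W702.AN_const ((1 / (q : ℂ)) * (1 / 8 ^ σ))) hc⟩
  obtain ⟨hA1, hA2⟩ := lc_AN δ δ' hδ hδ'
  refine ⟨?_, ?_, ?_, ?_, ?_, ?_, ?_⟩
  · obtain ⟨c, hc⟩ := hSAN
    have h1 := W702.AN_mul (W702.AN_const (-((24 * ν : ℝ) : ℂ))) hA1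
    have h2 := W702.AN_mul (W702.AN_mul (W702.AN_const 8) (W702.AN_mul hA1 hA1)) hc
    have h3 := W702.AN_add (W702.AN_add (W702.AN_const 1) h1) h2
    refine ⟨_, W702.AN_congr h3 (fun z _ => ?_)⟩
    rw [hVb]
    ring
  · rw [hVb, lc_one]
    ring
  · intro z hz
    rw [hVb]
    have hP := lc_norm δ δ' hδ hδ' hz
    have hPr := lc_re δ δ' hδ hδ' hz
    have hSz := hSn z hz
    generalize lc δ δ' z = P at *
    generalize S z = s at *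
    obtain ⟨Q, hQ⟩ : ∃ Q : ℂ, Q = ((24 * ν : ℝ) : ℂ) * P - 8 * (P * P) * s := ⟨_, rfl⟩
    have e : 1 - ((24 * ν : ℝ) : ℂ) * P + 8 * (P * P) * s = 1 - Q := by rw [hQ]; ring
    rw [e]
    have hb : ‖8 * (P * P) * s‖ ≤ 8 * ν * ‖P‖ ^ 2 := by
      rw [norm_mul, norm_mul, norm_mul]
      have e8 : ‖(8 : ℂ)‖ = 8 := by norm_num
      rw [e8]
      calc 8 * (‖P‖ * ‖P‖) * ‖s‖ ≤ 8 * (‖P‖ * ‖P‖) * ν := by gcongr
        _ = _ := by ring
    have hQre : 16 * ν * ‖P‖ ^ 2 ≤ Q.re := by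
      have h1 : Q.re = 24 * ν * P.re - (8 * (P * P) * s).re := by
        rw [hQ, Complex.sub_re, Complex.re_ofReal_mul]
      have h2 : (8 * (P * P) * s).re ≤ 8 * ν * ‖P‖ ^ 2 := (Complex.re_le_norm _).trans hb
      have h3 : 24 * ν * ‖P‖ ^ 2 ≤ 24 * ν * P.re := by gcongr
      rw [h1]
      linarith
    have hQn : ‖Q‖ ≤ 32 * ν * ‖P‖ := by
      have h1 : ‖Q‖ ≤ ‖((24 * ν : ℝ) : ℂ) * P‖ + ‖8 * (P * P) * s‖ := by
        rw [hQ]
        exact norm_sub_le _ _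
      rw [norm_mul, Complex.norm_real, Real.norm_of_nonneg (by positivity)] at h1
      have h2 : ‖P‖ ^ 2 ≤ ‖P‖ := by nlinarith [norm_nonneg P]
      have h3 : 8 * ν * ‖P‖ ^ 2 ≤ 8 * ν * ‖P‖ := by gcongr
      linarith
    have hsq : ‖1 - Q‖ ^ 2 = 1 - 2 * Q.re + ‖Q‖ ^ 2 := by
      rw [Complex.sq_norm, Complex.sq_norm, Complex.normSq_apply, Complex.normSq_apply]
      simp only [Complex.sub_re, Complex.sub_im, Complex.one_re, Complex.one_im]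
      ring
    have h1 : ‖Q‖ ^ 2 ≤ (32 * ν * ‖P‖) ^ 2 := by gcongr
    have h2 : (32 * ν * ‖P‖) ^ 2 ≤ 32 * ν * ‖P‖ ^ 2 := by
      have h3 : 32 * ν ≤ 1 := by linarith
      have : (32 * ν) * (32 * ν * ‖P‖ ^ 2) ≤ 1 * (32 * ν * ‖P‖ ^ 2) := by gcongr
      nlinarith
    have h4 : ‖1 - Q‖ ^ 2 ≤ 1 ^ 2 := by
      rw [hsq]
      linarith
    exact (pow_le_pow_iff_left₀ (norm_nonneg _) (by norm_num) two_ne_zero).1 h4
  · intro z hz
    rw [hVb]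
    have hP := lc_norm δ δ' hδ hδ' hz
    have hSz := hSn z hz
    generalize lc δ δ' z = P at *
    generalize S z = s at *
    obtain ⟨Q, hQ⟩ : ∃ Q : ℂ, Q = ((24 * ν : ℝ) : ℂ) * P - 8 * (P * P) * s := ⟨_, rfl⟩
    have e : 1 - ((24 * ν : ℝ) : ℂ) * P + 8 * (P * P) * s = 1 - Q := by rw [hQ]; ring
    rw [e]
    have hb : ‖8 * (P * P) * s‖ ≤ 8 * ν := by
      rw [norm_mul, norm_mul, norm_mul]
      have e8 : ‖(8 : ℂ)‖ = 8 := by norm_num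
      rw [e8]
      calc 8 * (‖P‖ * ‖P‖) * ‖s‖ ≤ 8 * (1 * 1) * ν := by gcongr
        _ = _ := by ring
    have hQn : ‖Q‖ ≤ 32 * ν := by
      have h1 : ‖Q‖ ≤ ‖((24 * ν : ℝ) : ℂ) * P‖ + ‖8 * (P * P) * s‖ := by
        rw [hQ]
        exact norm_sub_le _ _
      rw [norm_mul, Complex.norm_real, Real.norm_of_nonneg (by positivity)] at h1
      have h2 : 24 * ν * ‖P‖ ≤ 24 * ν * 1 := by gcongr
      linarith
    have h1 : ‖(1 : ℂ)‖ - ‖Q‖ ≤ ‖1 - Q‖ := norm_sub_norm_le _ _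
    rw [norm_one] at h1
    have h2 : (64 : ℝ) / 2 ^ σ = 32 * ν := by
      rw [hν]
      ring
    rw [h2]
    linarith
  · intro N _
    have hP := IM.AN_mb (N := N) hA1
    have hSig : IM.MB (∑ i ∈ range q, ‖t i‖ * (2 * 8 ^ σ)) (fun j : ZMod N =>
        ∑ i ∈ range q, t i * rsP (4 * σ) (IM.E j ^ (M * 2 ^ (4 * σ * i)))) :=
      IM.MB.sum (range q) _ _ (fun i _ => (rsP_MB σ N (M * 2 ^ (4 * σ * i))).smul (t i))
    have hSig' : ∑ i ∈ range q, ‖t i‖ * (2 * 8 ^ σ) = q * (2 * 8 ^ σ) := by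
      simp [ht]
    rw [hSig'] at hSig
    have hSm : IM.MB 2 (fun j : ZMod N => S (IM.E j)) := by
      have h1 := hSig.smul ((1 / (q : ℂ)) * (1 / 8 ^ σ))
      have h2 : ‖(1 / (q : ℂ)) * (1 / 8 ^ σ)‖ * (q * (2 * 8 ^ σ)) = 2 := by
        rw [norm_mul, norm_div, norm_div, norm_one, norm_pow, Complex.norm_natCast]
        have e8 : ‖(8 : ℂ)‖ = 8 := by norm_num
        rw [e8]
        field_simp
      rw [h2] at h1
      rw [hS]
      exact h1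
    have h1 := hP.smul (-((24 * ν : ℝ) : ℂ))
    have h2 := ((hP.mul (by norm_num) hP).mul (by norm_num) hSm).smul 8
    have h3 := ((IM.MB.one (N := N)).add h1).add h2
    refine (h3.mono ?_).congr (fun j => ?_)
    · rw [norm_neg, Complex.norm_real, Real.norm_of_nonneg (by positivity)]
      have e8 : ‖(8 : ℂ)‖ = 8 := by norm_num
      rw [e8]
      linarith
    · rw [hVb]
      ring
  · intro N _
    have hP := IM.AN_mb (N := N) hA1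
    have hP' := IM.AN_mb (N := N) hA2
    have hSig : IM.MB (∑ i ∈ range q, ‖t i‖ * (2 * 8 ^ σ)) (fun j : ZMod N =>
        ∑ i ∈ range q, t i * rsP (4 * σ) (IM.E j ^ (M * 2 ^ (4 * σ * i)))) :=
      IM.MB.sum (range q) _ _ (fun i _ => (rsP_MB σ N (M * 2 ^ (4 * σ * i))).smul (t i))
    have hSig' : ∑ i ∈ range q, ‖t i‖ * (2 * 8 ^ σ) = q * (2 * 8 ^ σ) := by
      simp [ht]
    rw [hSig'] at hSig
    have hSm : IM.MB 2 (fun j : ZMod N => S (IM.E j)) := by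
      have h1 := hSig.smul ((1 / (q : ℂ)) * (1 / 8 ^ σ))
      have h2 : ‖(1 / (q : ℂ)) * (1 / 8 ^ σ)‖ * (q * (2 * 8 ^ σ)) = 2 := by
        rw [norm_mul, norm_div, norm_div, norm_one, norm_pow, Complex.norm_natCast]
        have e8 : ‖(8 : ℂ)‖ = 8 := by norm_num
        rw [e8]
        field_simp
      rw [h2] at h1
      rw [hS]
      exact h1
    have h1 := hP'.smul (-((24 * ν : ℝ) : ℂ))
    have h2 := ((hP'.mul (by positivity) hP).mul (by positivity) hSm).smul 8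
    have h3 := h1.add h2
    refine (h3.mono ?_).congr (fun j => ?_)
    · rw [norm_neg, Complex.norm_real, Real.norm_of_nonneg (by positivity)]
      have e8 : ‖(8 : ℂ)‖ = 8 := by norm_num
      rw [e8]
      have : 24 * ν * (4 * δ) ≤ 24 * (1 / 64) * (4 * δ) := by gcongr
      nlinarith
    · rw [hVb]
      ring
  · intro z hz
    rw [hVb]
    have hP := lc_norm δ δ' hδ hδ' hz
    have hSz := hSn z hz
    have hP' : ‖(1 - z) * lc δ δ' z‖ ≤ 4 * δ := AN_norm_le hA2 hz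
    have e : (1 - z) * (1 - ((24 * ν : ℝ) : ℂ) * lc δ δ' z +
        8 * (lc δ δ' z * lc δ δ' z) * S z - 1) =
        ((1 - z) * lc δ δ' z) * (-((24 * ν : ℝ) : ℂ) + 8 * lc δ δ' z * S z) := by ring
    rw [e, norm_mul]
    have h1 : ‖-((24 * ν : ℝ) : ℂ) + 8 * lc δ δ' z * S z‖ ≤ 32 * ν := by
      refine (norm_add_le _ _).trans ?_
      rw [norm_neg, Complex.norm_real, Real.norm_of_nonneg (by positivity), norm_mul, norm_mul]
      have e8 : ‖(8 : ℂ)‖ = 8 := by norm_num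
      rw [e8]
      have : 8 * ‖lc δ δ' z‖ * ‖S z‖ ≤ 8 * 1 * ν := by gcongr
      linarith
    calc ‖(1 - z) * lc δ δ' z‖ * ‖-((24 * ν : ℝ) : ℂ) + 8 * lc δ δ' z * S z‖
        ≤ (4 * δ) * (32 * ν) := by gcongr
      _ ≤ (4 * δ) * (32 * (1 / 64)) := by gcongr
      _ ≤ 200 * δ := by linarith

end NC
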