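import Mathlib
set_option autoImplicit false
open Finset

namespace NC

/-- multi-variable Cauchy estimate for the multilinear coefficient -/
theorem cauchy_multi {ι : Type*} (s : Finset ι) (q : ℕ) (w A : ι → ℂ) (B : ℕ → ι → ℂ) (S : ℝ)
    (hAB : ∀ k ∈ s, ∑ i ∈ range q, ‖B i k‖ < ‖A k‖)
    (hS : ∀ t : ℕ → ℂ, (∀ i, ‖t i‖ = 1) → ‖∑ k ∈ s, w k / (A k + ∑ i ∈ range q, t i * B i k)‖ ≤ S) :
    (q.factorial : ℝ) * ‖∑ k ∈ s, w k * (∏ i ∈ range q, B i k) / A k ^ (q + 1)‖ ≤ S := by
  have hne : ∀ k ∈ s, ∀ c : ℕ → ℂ, (∀ l, ‖c l‖ ≤ 1) → ∀ i,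
      A k + ∑ l ∈ Ico i q, c l * B l k ≠ 0 := by
    intro k hk c hc i h0
    have h1 : A k = -∑ l ∈ Ico i q, c l * B l k := by linear_combination h0
    have h2 : ‖A k‖ ≤ ∑ l ∈ range q, ‖B l k‖ := by
      rw [h1, norm_neg]
      refine (norm_sum_le _ _).trans ?_
      calc ∑ l ∈ Ico i q, ‖c l * B l k‖ ≤ ∑ l ∈ Ico i q, ‖B l k‖ := by
            refine sum_le_sum fun l _ => ?_
            rw [norm_mul]
            exact mul_le_of_le_one_left (norm_nonneg _) (hc l)
        _ ≤ ∑ l ∈ range q, ‖B l k‖ := by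
            refine sum_le_sum_of_subset_of_nonneg ?_ fun _ _ _ => norm_nonneg _
            intro l hl
            rw [mem_Ico] at hl
            exact mem_range.2 hl.2
    exact absurd (hAB k hk) (not_lt.2 h2)
  have key : ∀ i, i ≤ q → ∀ t : ℕ → ℂ, (∀ l, ‖t l‖ = 1) →
      (i.factorial : ℝ) * ‖∑ k ∈ s, w k * (∏ l ∈ range i, B l k) /
        (A k + ∑ l ∈ Ico i q, t l * B l k) ^ (i + 1)‖ ≤ S := by
    intro i
    induction i with
    | zero =>
      intro _ t ht
      have := hS t ht
      simpa using this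
    | succ i ih =>
      intro hi t ht
      have hi' : i < q := hi
      have hsum : ∀ (τ : ℂ) k, A k + ∑ l ∈ Ico i q, (Function.update t i τ) l * B l k =
          (A k + ∑ l ∈ Ico (i+1) q, t l * B l k) + τ * B i k := by
        intro τ k
        rw [Finset.sum_eq_sum_Ico_succ_bot hi', Function.update_self]
        have : ∑ l ∈ Ico (i+1) q, (Function.update t i τ) l * B l k =
            ∑ l ∈ Ico (i+1) q, t l * B l k := by
          refine sum_congr rfl fun l hl => ?_
          rw [mem_Ico] at hl
          rw [Function.update_of_ne (by omega)]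
        rw [this]; ring
      let φ : ℂ → ℂ := fun τ => ∑ k ∈ s, w k * (∏ l ∈ range i, B l k) /
        ((A k + ∑ l ∈ Ico (i+1) q, t l * B l k) + τ * B i k) ^ (i + 1)
      have hnz : ∀ k ∈ s, ∀ τ : ℂ, ‖τ‖ ≤ 1 →
          (A k + ∑ l ∈ Ico (i+1) q, t l * B l k) + τ * B i k ≠ 0 := by
        intro k hk τ hτ
        rw [← hsum]
        refine hne k hk _ (fun l => ?_) i
        by_cases hl : l = i
        · subst hl; rw [Function.update_self]; exact hτ
        · rw [Function.update_of_ne hl]; exact (ht l).le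
      have hder : ∀ k ∈ s, ∀ τ : ℂ, ‖τ‖ ≤ 1 →
          HasDerivAt (fun τ : ℂ => w k * (∏ l ∈ range i, B l k) /
            ((A k + ∑ l ∈ Ico (i+1) q, t l * B l k) + τ * B i k) ^ (i + 1))
            (-((i : ℂ) + 1) * (w k * (∏ l ∈ range (i+1), B l k) /
            ((A k + ∑ l ∈ Ico (i+1) q, t l * B l k) + τ * B i k) ^ (i + 1 + 1))) τ := by
        intro k hk τ hτ
        have hz := hnz k hk τ hτ
        have h1 : HasDerivAt (fun τ : ℂ => (A k + ∑ l ∈ Ico (i+1) q, t l * B l k) + τ * B i k)
            (B i k) τ := by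
          simpa using ((hasDerivAt_id τ).mul_const (B i k)).const_add
            (A k + ∑ l ∈ Ico (i+1) q, t l * B l k)
        have h2 := (h1.pow (i + 1)).inv (pow_ne_zero _ hz)
        have h3 := h2.const_mul (w k * (∏ l ∈ range i, B l k))
        refine (h3.congr_deriv ?_).congr_of_eventuallyEq ?_
        · rw [prod_range_succ]
          simp only [Nat.add_sub_cancel, Pi.pow_apply]
          set D := (A k + ∑ l ∈ Ico (i+1) q, t l * B l k) + τ * B i k with hD
          push_cast
          field_simp
          try ring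
        · filter_upwards with x
          simp [div_eq_mul_inv]
      have hC : ∀ z ∈ Metric.sphere (0 : ℂ) 1, ‖φ z‖ ≤ S / i.factorial := by
        intro z hz
        have hz1 : ‖z‖ = 1 := by simpa using hz
        have h1 := ih hi'.le (Function.update t i z) (by
          intro l
          by_cases hl : l = i
          · subst hl; rw [Function.update_self]; exact hz1
          · rw [Function.update_of_ne hl]; exact ht l)
        rw [le_div_iff₀ (by positivity), mul_comm]
        simp only [hsum] at h1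
        exact h1
      have hdiff : DiffContOnCl ℂ φ (Metric.ball 0 1) := by
        refine DifferentiableOn.diffContOnCl_ball (U := Metric.closedBall 0 1) ?_ subset_rfl
        intro z hz
        have hz1 : ‖z‖ ≤ 1 := by simpa using hz
        refine DifferentiableAt.differentiableWithinAt ?_
        exact DifferentiableAt.fun_sum fun k hk => (hder k hk z hz1).differentiableAt
      have hest := Complex.norm_deriv_le_of_forall_mem_sphere_norm_le one_pos hdiff hC
      have hd0 : HasDerivAt φ (∑ k ∈ s, (-((i : ℂ) + 1) * (w k * (∏ l ∈ range (i+1), B l k) /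
            ((A k + ∑ l ∈ Ico (i+1) q, t l * B l k) + 0 * B i k) ^ (i + 1 + 1)))) 0 :=
        HasDerivAt.fun_sum fun k hk => hder k hk 0 (by simp)
      rw [hd0.deriv, ← mul_sum, norm_mul, div_one, le_div_iff₀ (by positivity)] at hest
      simp only [zero_mul, add_zero] at hest
      have hn : ‖-((i : ℂ) + 1)‖ = (i : ℝ) + 1 := by
        rw [norm_neg]
        have : ((i : ℂ) + 1) = ((i + 1 : ℕ) : ℂ) := by push_cast; ring
        rw [this, Complex.norm_natCast]; push_cast; ring
      rw [hn] at hest
      rw [Nat.factorial_succ]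
      push_cast
      calc _ = ((i : ℝ) + 1) * ‖∑ k ∈ s, w k * (∏ l ∈ range (i+1), B l k) /
            (A k + ∑ l ∈ Ico (i+1) q, t l * B l k) ^ (i + 1 + 1)‖ * (i.factorial : ℝ) := by ring
        _ ≤ S := hest
  have := key q le_rfl (fun _ => 1) (fun _ => by simp)
  simpa using this

end NC
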