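import Pool.Agent.Helper859.NC.Defs
set_option autoImplicit false
open Finset

namespace NC

end NC

namespace NC

/-! ### auxiliary: unit circle -/

/-- point on the unit circle -/
noncomputable def EE (t : ℝ) : ℂ := Complex.exp ((t : ℂ) * Complex.I)

theorem norm_EE (t : ℝ) : ‖EE t‖ = 1 := Complex.norm_exp_ofReal_mul_I t

theorem EE_add (s t : ℝ) : EE (s + t) = EE s * EE t := by
  unfold EE
  rw [← Complex.exp_add]
  congr 1
  push_cast
  ring

theorem EE_zero : EE 0 = 1 := by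
  unfold EE
  simp

theorem EE_nat_mul (m : ℕ) (t : ℝ) : EE (m * t) = EE t ^ m := by
  unfold EE
  rw [← Complex.exp_nat_mul]
  congr 1
  push_cast
  ring

theorem EE_ne_zero (t : ℝ) : EE t ≠ 0 := Complex.exp_ne_zero _

theorem EE_conj (t : ℝ) : (starRingEnd ℂ) (EE t) = EE (-t) := by
  unfold EE
  rw [← Complex.exp_conj]
  congr 1
  simp

theorem EE_two_pi_int (m : ℤ) : EE (2 * Real.pi * m) = 1 := by
  unfold EE
  rw [Complex.exp_eq_one_iff]
  refine ⟨m, ?_⟩
  push_cast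
  ring

theorem EE_pi : EE Real.pi = -1 := by
  unfold EE
  exact Complex.exp_pi_mul_I

theorem EE_ne_one {u : ℝ} (h0 : 0 < u) (h1 : u < 1) : EE (2 * Real.pi * u) ≠ 1 := by
  intro h
  unfold EE at h
  rw [Complex.exp_eq_one_iff] at h
  obtain ⟨m, hm⟩ := h
  have h2 : ((2 * Real.pi * u : ℝ) : ℂ) * Complex.I = ((m * (2 * Real.pi) : ℝ) : ℂ) * Complex.I := by
    rw [hm]
    push_cast
    ring
  have h3 := mul_right_cancel₀ Complex.I_ne_zero h2
  have h4 : (2 * Real.pi * u : ℝ) = m * (2 * Real.pi) := by exact_mod_cast h3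
  have h5 : u = m := by
    have hp := Real.pi_pos
    have : (2 * Real.pi) * u = (2 * Real.pi) * m := by linarith
    exact mul_left_cancel₀ (by positivity) this
  rw [h5] at h0 h1
  have h6 : (0 : ℤ) < m := by exact_mod_cast h0
  have h7 : m < (1 : ℤ) := by exact_mod_cast h1
  omega

theorem norm_one_sub_EE (t : ℝ) : ‖1 - EE t‖ = 2 * |Real.sin (t / 2)| := by
  have h := Complex.norm_exp_I_mul_ofReal_sub_one t
  rw [mul_comm Complex.I] at h
  rw [norm_sub_rev]
  unfold EE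
  rw [h]
  rw [Real.norm_eq_abs, abs_mul]
  simp

theorem norm_one_sub_EE_le (t : ℝ) : ‖1 - EE t‖ ≤ |t| := by
  rw [norm_one_sub_EE]
  have h : |Real.sin (t / 2)| ≤ |t / 2| := Real.abs_sin_le_abs
  rw [abs_div, abs_of_pos (two_pos : (0 : ℝ) < 2)] at h
  linarith

/-- geometric sums -/
theorem norm_geom_le {w : ℂ} (hw : ‖w‖ = 1) (h1 : w ≠ 1) (m : ℕ) :
    ‖∑ k ∈ range m, w ^ k‖ ≤ 2 / ‖1 - w‖ := by
  rw [geom_sum_eq h1, norm_div, norm_sub_rev w 1]
  have h0 : 0 < ‖1 - w‖ := norm_pos_iff.2 (sub_ne_zero.2 (Ne.symm h1))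
  apply div_le_div_of_nonneg_right _ h0.le
  calc ‖w ^ m - 1‖ ≤ ‖w ^ m‖ + ‖(1 : ℂ)‖ := norm_sub_le _ _
    _ = 2 := by rw [norm_pow, hw, one_pow, norm_one]; norm_num

theorem geom_zero {w : ℂ} (h1 : w ≠ 1) {m : ℕ} (hm : w ^ m = 1) :
    ∑ k ∈ range m, w ^ k = 0 := by
  rw [geom_sum_eq h1, hm, sub_self, zero_div]

/-- lower bound -/
theorem norm_one_sub_EE_ge {u : ℝ} (h0 : 0 < u) (h1 : u < 1) :
    4 * min u (1 - u) ≤ ‖1 - EE (2 * Real.pi * u)‖ := by
  rw [norm_one_sub_EE]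
  have hpi := Real.pi_pos
  have e : 2 * Real.pi * u / 2 = Real.pi * u := by ring
  rw [e]
  have key : 2 * min u (1 - u) ≤ Real.sin (Real.pi * u) := by
    rcases le_total u (1 / 2) with h | h
    · have := Real.mul_le_sin (x := Real.pi * u) (by positivity) (by nlinarith)
      have e2 : 2 / Real.pi * (Real.pi * u) = 2 * u := by field_simp
      rw [e2] at this
      exact le_trans (by have := min_le_left u (1 - u); linarith) this
    · have := Real.mul_le_sin (x := Real.pi * (1 - u)) (by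
          apply mul_nonneg hpi.le; linarith) (by nlinarith)
      have e2 : 2 / Real.pi * (Real.pi * (1 - u)) = 2 * (1 - u) := by field_simp
      rw [e2] at this
      have e3 : Real.sin (Real.pi * (1 - u)) = Real.sin (Real.pi * u) := by
        rw [← Real.sin_pi_sub]
        congr 1
        ring
      rw [e3] at this
      exact le_trans (by have := min_le_right u (1 - u); linarith) this
  have := le_abs_self (Real.sin (Real.pi * u))
  linarith

/-! ### auxiliary: harmonic -/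

theorem harm_le (N : ℕ) : ∑ l ∈ Ico (1 : ℕ) (2 ^ N), (1 : ℝ) / l ≤ N := by
  induction N with
  | zero => simp
  | succ N ih =>
    have h1 : (1 : ℕ) ≤ 2 ^ N := Nat.one_le_two_pow
    have h2 : (2 : ℕ) ^ N ≤ 2 ^ (N + 1) := Nat.pow_le_pow_right (by norm_num) (by omega)
    rw [← Finset.sum_Ico_consecutive _ h1 h2]
    have h3 : ∑ l ∈ Ico (2 ^ N : ℕ) (2 ^ (N + 1)), (1 : ℝ) / l ≤ 1 := by
      calc ∑ l ∈ Ico (2 ^ N : ℕ) (2 ^ (N + 1)), (1 : ℝ) / l
          ≤ ∑ l ∈ Ico (2 ^ N : ℕ) (2 ^ (N + 1)), (1 : ℝ) / (2 ^ N : ℕ) := by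
            apply Finset.sum_le_sum
            intro l hl
            rw [Finset.mem_Ico] at hl
            apply one_div_le_one_div_of_le
            · positivity
            · exact_mod_cast hl.1
        _ = 1 := by
            rw [Finset.sum_const, Nat.card_Ico, nsmul_eq_mul]
            have : 2 ^ (N + 1) - 2 ^ N = 2 ^ N := by
              rw [pow_succ]; omega
            rw [this]
            field_simp
    push_cast
    linarith

/-! ### the angles -/

/-- angles -/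
noncomputable def th (n L k : ℕ) : ℝ := 2 * Real.pi * ((k : ℝ) - n + 1 / 2) / L

theorem lam_eq (n L k : ℕ) : lam n L k = (rad L : ℂ) * EE (th n L k) := by
  unfold lam EE th
  congr 2
  push_cast
  ring

theorem lam_pow (n L k x : ℕ) : lam n L k ^ x = (rad L : ℂ) ^ x * EE (th n L k * x) := by
  rw [lam_eq, mul_pow, ← EE_nat_mul, mul_comm (x : ℝ)]

theorem rad_aux {L : ℕ} (hL : 100 ≤ L) : 0 < Real.pi * 10 / L ∧ Real.pi * 10 / L ≤ 0.32 := by
  have hL' : (100 : ℝ) ≤ L := by exact_mod_cast hL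
  have hpi := Real.pi_pos
  have hpi2 := Real.pi_lt_d2
  constructor
  · positivity
  · rw [div_le_iff₀ (by linarith)]
    nlinarith

theorem rad_pos {L : ℕ} (hL : 100 ≤ L) : 0 < rad L := by
  obtain ⟨h1, h2⟩ := rad_aux hL
  unfold rad
  apply div_pos <;> norm_num at h2 ⊢ <;> linarith

theorem rad_one_sub {L : ℕ} (hL : 100 ≤ L) : 1 - rad L = 20 * Real.pi / (L + 10 * Real.pi) := by
  have hL' : (100 : ℝ) ≤ L := by exact_mod_cast hL
  have hpi := Real.pi_pos
  unfold rad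
  have h1 : (L : ℝ) ≠ 0 := by linarith
  have h2 : (L : ℝ) + Real.pi * 10 ≠ 0 := by positivity
  have h3 : (L : ℝ) + 10 * Real.pi ≠ 0 := by positivity
  have h4 : 1 + Real.pi * 10 / (L : ℝ) ≠ 0 := by positivity
  field_simp
  ring

theorem rad_lt {L : ℕ} (hL : 100 ≤ L) : 1 / (L : ℝ) ≤ 1 - rad L := by
  have hL' : (100 : ℝ) ≤ L := by exact_mod_cast hL
  have hpi := Real.pi_pos
  have hpi3 := Real.pi_gt_three
  have hpi4 := Real.pi_lt_four
  rw [rad_one_sub hL, div_le_div_iff₀ (by linarith) (by positivity)]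
  nlinarith

theorem rad_le_one {L : ℕ} (hL : 100 ≤ L) : rad L ≤ 1 := by
  have h := rad_lt hL
  have : 0 ≤ 1 / (L : ℝ) := by positivity
  linarith

theorem rad_pow {L : ℕ} (hL : 100 ≤ L) : Real.exp (-100) ≤ rad L ^ L := by
  obtain ⟨h1, h2⟩ := rad_aux hL
  have hr := rad_pos hL
  have hL' : (100 : ℝ) ≤ L := by exact_mod_cast hL
  have hpi := Real.pi_pos
  have hpi2 := Real.pi_lt_d2
  obtain ⟨x, hx⟩ : ∃ x, x = Real.pi * 10 / (L : ℝ) := ⟨_, rfl⟩
  have hrx : rad L = (1 - x) / (1 + x) := by unfold rad; rw [hx]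
  rw [← hx] at h1 h2
  norm_num at h2
  have h1x : 0 < 1 - x := by linarith
  have h3 : (rad L)⁻¹ ≤ Real.exp (2 * x / (1 - x)) := by
    have := Real.add_one_le_exp (2 * x / (1 - x))
    refine le_trans (le_of_eq ?_) this
    rw [hrx]
    field_simp
    ring
  have h4 : ((rad L)⁻¹) ^ L ≤ Real.exp 100 := by
    calc ((rad L)⁻¹) ^ L ≤ (Real.exp (2 * x / (1 - x))) ^ L :=
          pow_le_pow_left₀ (inv_nonneg.2 hr.le) h3 L
      _ = Real.exp (L * (2 * x / (1 - x))) := by rw [← Real.exp_nat_mul]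
      _ ≤ Real.exp 100 := by
          apply Real.exp_le_exp.2
          have e : (L : ℝ) * (2 * x / (1 - x)) = (20 * Real.pi) / (1 - x) := by
            have : (L : ℝ) * x = Real.pi * 10 := by
              rw [hx]; field_simp
            calc (L : ℝ) * (2 * x / (1 - x)) = 2 * ((L : ℝ) * x) / (1 - x) := by ring
              _ = _ := by rw [this]; ring
          rw [e, div_le_iff₀ h1x]
          norm_num at hpi2
          nlinarith
  rw [inv_pow] at h4
  rw [Real.exp_neg]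
  exact inv_le_of_inv_le₀ (by positivity) h4

theorem norm_lam (n : ℕ) {L : ℕ} (hL : 100 ≤ L) (k : ℕ) : ‖lam n L k‖ = rad L := by
  rw [lam_eq, norm_mul, norm_EE, mul_one, Complex.norm_real, Real.norm_eq_abs,
    abs_of_pos (rad_pos hL)]

theorem lam_near {n L k : ℕ} (hL : 100 ≤ L) (hn : 1 ≤ n) (hk : k < 2 * n) : ‖1 - lam n L k‖ ≤ 100 * n / L := by
  have hL' : (100 : ℝ) ≤ L := by exact_mod_cast hL
  have hn' : (1 : ℝ) ≤ n := by exact_mod_cast hn
  have hk' : (k : ℝ) + 1 ≤ 2 * n := by exact_mod_cast hk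
  have hk0 : (0 : ℝ) ≤ k := by positivity
  have hpi := Real.pi_pos
  have hpi2 := Real.pi_lt_d2
  norm_num at hpi2
  have hr := rad_pos hL
  have e : 1 - lam n L k = ((1 - rad L : ℝ) : ℂ) + (rad L : ℂ) * (1 - EE (th n L k)) := by
    rw [lam_eq]; push_cast; ring
  rw [e]
  have h1 : ‖((1 - rad L : ℝ) : ℂ)‖ ≤ 20 * Real.pi / L := by
    rw [Complex.norm_real, Real.norm_eq_abs, abs_of_nonneg (by linarith [rad_le_one hL]),
      rad_one_sub hL]
    apply div_le_div_of_nonneg_left (by positivity) (by linarith) (by linarith)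
  have h2 : ‖(rad L : ℂ) * (1 - EE (th n L k))‖ ≤ 2 * Real.pi * n / L := by
    rw [norm_mul, Complex.norm_real, Real.norm_eq_abs, abs_of_pos hr]
    calc rad L * ‖1 - EE (th n L k)‖ ≤ 1 * |th n L k| := by
          apply mul_le_mul (rad_le_one hL) (norm_one_sub_EE_le _) (norm_nonneg _) (by norm_num)
      _ ≤ 2 * Real.pi * n / L := by
          rw [one_mul]
          unfold th
          rw [abs_div, abs_of_pos (show (0 : ℝ) < L by linarith), abs_mul,
            abs_of_pos (show (0 : ℝ) < 2 * Real.pi by positivity)]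
          apply div_le_div_of_nonneg_right _ (by linarith)
          apply mul_le_mul_of_nonneg_left _ (by positivity)
          rw [abs_le]
          constructor <;> linarith
  refine (norm_add_le _ _).trans ((add_le_add h1 h2).trans ?_)
  rw [← add_div]
  apply div_le_div_of_nonneg_right _ (by linarith)
  nlinarith

/-! ### Dirichlet kernel -/

/-- Dirichlet kernel -/
noncomputable def DD (n L : ℕ) (y : ℤ) : ℂ :=
  (1 / (2 * n : ℂ)) * ∑ k ∈ range (2 * n), EE (th n L k * y)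

theorem norm_DD_le_one {n : ℕ} (hn : 1 ≤ n) (L : ℕ) (y : ℤ) : ‖DD n L y‖ ≤ 1 := by
  unfold DD
  have hn' : (0 : ℝ) < 2 * n := by
    have : (1 : ℝ) ≤ n := by exact_mod_cast hn
    linarith
  have e : ‖(1 / (2 * n : ℂ))‖ = 1 / (2 * n : ℝ) := by
    rw [norm_div, norm_one, norm_mul, Complex.norm_natCast]
    simp
  rw [norm_mul, e]
  have : ‖∑ k ∈ range (2 * n), EE (th n L k * y)‖ ≤ 2 * n := by
    calc ‖∑ k ∈ range (2 * n), EE (th n L k * y)‖ ≤ ∑ k ∈ range (2 * n), ‖EE (th n L k * y)‖ :=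
          norm_sum_le _ _
      _ = 2 * n := by
          simp only [norm_EE, Finset.sum_const, Finset.card_range, nsmul_eq_mul, mul_one]
          push_cast
          ring
  calc 1 / (2 * n : ℝ) * ‖∑ k ∈ range (2 * n), EE (th n L k * y)‖ ≤ 1 / (2 * n : ℝ) * (2 * n) :=
        mul_le_mul_of_nonneg_left this (by positivity)
    _ = 1 := by field_simp

theorem norm_DD_add {n L : ℕ} (hL : 0 < L) (y : ℤ) : ‖DD n L (y + L)‖ = ‖DD n L y‖ := by
  have : DD n L (y + L) = - DD n L y := by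
    unfold DD
    rw [← mul_neg, ← Finset.sum_neg_distrib]
    congr 1
    apply Finset.sum_congr rfl
    intro k _
    have hL' : (L : ℝ) ≠ 0 := by positivity
    have e : th n L k * ((y + L : ℤ) : ℝ) = th n L k * (y : ℝ) +
        (2 * Real.pi * ((k - n : ℤ) : ℝ) + Real.pi) := by
      unfold th
      push_cast
      field_simp
    rw [e, EE_add, EE_add, EE_two_pi_int, EE_pi]
    ring
  rw [this, norm_neg]

theorem DD_zero {n : ℕ} (hn : 1 ≤ n) (L : ℕ) : DD n L 0 = 1 := by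
  unfold DD
  have hn' : (n : ℂ) ≠ 0 := by
    have : n ≠ 0 := by omega
    exact_mod_cast this
  simp only [Int.cast_zero, mul_zero, EE_zero, Finset.sum_const, Finset.card_range, nsmul_eq_mul,
    mul_one]
  push_cast
  field_simp

theorem DD_form (n L : ℕ) (y : ℤ) : DD n L y = (1 / (2 * n : ℂ)) *
    (EE (th n L 0 * y) * ∑ k ∈ range (2 * n), (EE (2 * Real.pi * ((y : ℝ) / L))) ^ k) := by
  unfold DD
  congr 1
  rw [Finset.mul_sum]
  apply Finset.sum_congr rfl
  intro k _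
  rw [← EE_nat_mul, ← EE_add]
  congr 1
  unfold th
  push_cast
  ring

theorem DD_mul_eq_zero_pos {n M : ℕ} (hn : 1 ≤ n) (hM : 1 ≤ M) {d : ℕ} (hd : 0 < d)
    (hd2 : d < 2 * n) : DD n (2 * n * M) ((M : ℤ) * d) = 0 := by
  rw [DD_form]
  have hM' : (M : ℝ) ≠ 0 := by positivity
  have hn' : (n : ℝ) ≠ 0 := by positivity
  have e : ((((M : ℤ) * d : ℤ) : ℝ)) / ((2 * n * M : ℕ) : ℝ) = (d : ℝ) / (2 * n : ℝ) := by
    push_cast
    field_simp
  rw [e, geom_zero, mul_zero, mul_zero]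
  · apply EE_ne_one
    · positivity
    · rw [div_lt_one (by positivity)]
      exact_mod_cast hd2
  · rw [← EE_nat_mul]
    have e2 : ((2 * n : ℕ) : ℝ) * (2 * Real.pi * ((d : ℝ) / (2 * n : ℝ))) = 2 * Real.pi * ((d : ℤ) : ℝ) := by
      push_cast
      field_simp
    rw [e2, EE_two_pi_int]

theorem DD_neg (n L : ℕ) (y : ℤ) : DD n L (-y) = (starRingEnd ℂ) (DD n L y) := by
  unfold DD
  rw [map_mul, map_sum]
  congr 1
  · rw [map_div₀, map_one, map_mul, map_ofNat, map_natCast]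
  · apply Finset.sum_congr rfl
    intro k _
    rw [EE_conj]
    congr 1
    push_cast
    ring

theorem DD_mul {n M : ℕ} (hn : 1 ≤ n) (hM : 1 ≤ M) {a b : ℕ} (ha : a < 2 * n) (hb : b < 2 * n) :
    DD n (2 * n * M) ((M : ℤ) * a - (M : ℤ) * b) = if b = a then 1 else 0 := by
  split_ifs with h
  · rw [h, sub_self, DD_zero hn]
  · rcases lt_or_gt_of_ne h with h | h
    · have e : ((M : ℤ) * a - (M : ℤ) * b) = (M : ℤ) * ((a - b : ℕ) : ℤ) := by
        rw [Nat.cast_sub h.le]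
        ring
      rw [e]
      exact DD_mul_eq_zero_pos hn hM (by omega) (by omega)
    · have e : ((M : ℤ) * a - (M : ℤ) * b) = -((M : ℤ) * ((b - a : ℕ) : ℤ)) := by
        rw [Nat.cast_sub h.le]
        ring
      rw [e, DD_neg, DD_mul_eq_zero_pos hn hM (by omega) (by omega), map_zero]

theorem norm_DD_le {n M : ℕ} (hn : 1 ≤ n) (hM : 1 ≤ M) {l v : ℕ} (hv : v < M) (hl : 1 ≤ l)
    (hl2 : l < 2 * n - 1) : ‖DD n (2 * n * M) ((M : ℤ) * l + v)‖ ≤
      1 / 2 * (1 / (l : ℝ) + 1 / ((2 * n - 1 - l : ℕ) : ℝ)) := by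
  have hM' : (0 : ℝ) < M := by positivity
  have hn' : (0 : ℝ) < n := by positivity
  have hl' : (0 : ℝ) < l := by positivity
  have hv' : (v : ℝ) < M := by exact_mod_cast hv
  have hv0 : (0 : ℝ) ≤ v := by positivity
  have hl3 : (0 : ℝ) < ((2 * n - 1 - l : ℕ) : ℝ) := by
    have : 0 < 2 * n - 1 - l := by omega
    exact_mod_cast this
  have hl4 : ((2 * n - 1 - l : ℕ) : ℝ) = 2 * n - 1 - l := by
    rw [Nat.cast_sub (by omega), Nat.cast_sub (by omega)]
    push_cast
    ring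
  rw [DD_form]
  obtain ⟨u, hu⟩ : ∃ u : ℝ, u = ((((M : ℤ) * l + v : ℤ) : ℝ)) / ((2 * n * M : ℕ) : ℝ) := ⟨_, rfl⟩
  rw [← hu]
  have hu2 : u = ((M : ℝ) * l + v) / (2 * n * M) := by rw [hu]; push_cast; ring
  have hu0 : (l : ℝ) / (2 * n) ≤ u := by
    rw [hu2, div_le_div_iff₀ (by positivity) (by positivity)]
    have : (l : ℝ) * (2 * n * M) = M * l * (2 * n) := by ring
    rw [this]
    apply mul_le_mul_of_nonneg_right (by linarith) (by positivity)
  have hu1 : ((2 * n - 1 - l : ℕ) : ℝ) / (2 * n) ≤ 1 - u := by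
    have : 1 - u = (2 * n * M - (M * l + v)) / (2 * n * M) := by
      rw [hu2]; field_simp
    rw [this, hl4, div_le_div_iff₀ (by positivity) (by positivity)]
    have : ((2 : ℝ) * n - 1 - l) * (2 * n * M) = (2 * n * M - (M * l + M)) * (2 * n) := by ring
    rw [this]
    apply mul_le_mul_of_nonneg_right (by linarith) (by positivity)
  have hupos : 0 < u := lt_of_lt_of_le (by positivity) hu0
  have hu1pos : 0 < 1 - u := lt_of_lt_of_le (by positivity) hu1
  have hge := norm_one_sub_EE_ge hupos (by linarith)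
  have hmin : 0 < min u (1 - u) := lt_min hupos hu1pos
  have hge0 : 0 < ‖1 - EE (2 * Real.pi * u)‖ := lt_of_lt_of_le (by positivity) hge
  have hne : EE (2 * Real.pi * u) ≠ 1 := EE_ne_one hupos (by linarith)
  have hgeom := norm_geom_le (norm_EE (2 * Real.pi * u)) hne (2 * n)
  have e : ‖(1 / (2 * n : ℂ))‖ = 1 / (2 * n : ℝ) := by
    rw [norm_div, norm_one, norm_mul, Complex.norm_natCast]
    simp
  rw [norm_mul, norm_mul, norm_EE, one_mul, e]
  have h1 : ‖∑ k ∈ range (2 * n), EE (2 * Real.pi * u) ^ k‖ ≤ 1 / 2 * (1 / u + 1 / (1 - u)) := by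
    refine hgeom.trans ?_
    calc 2 / ‖1 - EE (2 * Real.pi * u)‖ ≤ 2 / (4 * min u (1 - u)) :=
          div_le_div_of_nonneg_left (by norm_num) (by positivity) hge
      _ = 1 / 2 * (1 / min u (1 - u)) := by field_simp; ring
      _ ≤ 1 / 2 * (1 / u + 1 / (1 - u)) := by
          apply mul_le_mul_of_nonneg_left _ (by norm_num)
          rcases min_choice u (1 - u) with h | h
          · rw [h]
            have : 0 ≤ 1 / (1 - u) := by positivity
            linarith
          · rw [h]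
            have : 0 ≤ 1 / u := by positivity
            linarith
  have h2 : 1 / u ≤ 2 * n * (1 / (l : ℝ)) := by
    calc 1 / u ≤ 1 / ((l : ℝ) / (2 * n)) := one_div_le_one_div_of_le (by positivity) hu0
      _ = 2 * n * (1 / (l : ℝ)) := by field_simp
  have h3 : 1 / (1 - u) ≤ 2 * n * (1 / ((2 * n - 1 - l : ℕ) : ℝ)) := by
    calc 1 / (1 - u) ≤ 1 / (((2 * n - 1 - l : ℕ) : ℝ) / (2 * n)) :=
          one_div_le_one_div_of_le (by positivity) hu1
      _ = 2 * n * (1 / ((2 * n - 1 - l : ℕ) : ℝ)) := by field_simp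
  calc 1 / (2 * n : ℝ) * ‖∑ k ∈ range (2 * n), EE (2 * Real.pi * u) ^ k‖
      ≤ 1 / (2 * n : ℝ) * (1 / 2 * (2 * n * (1 / (l : ℝ)) + 2 * n * (1 / ((2 * n - 1 - l : ℕ) : ℝ)))) := by
        apply mul_le_mul_of_nonneg_left _ (by positivity)
        linarith
    _ = 1 / 2 * (1 / (l : ℝ) + 1 / ((2 * n - 1 - l : ℕ) : ℝ)) := by
        field_simp

/-! ### the key estimate -/

theorem row_sum {N n M : ℕ} (hn : 2 * n = 2 ^ N) (hn1 : 1 ≤ n) (hM : 1 ≤ M) {v : ℕ} (hv : v < M) :
    ∑ l ∈ range (2 * n), ‖DD n (2 * n * M) ((M : ℤ) * l + v)‖ ≤ 2 + N := by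
  obtain ⟨f, hf⟩ : ∃ f : ℕ → ℝ, f = fun l : ℕ => ‖DD n (2 * n * M) ((M : ℤ) * l + v)‖ := ⟨_, rfl⟩
  have hf1 : ∀ l, f l ≤ 1 := by
    intro l; rw [hf]; exact norm_DD_le_one hn1 _ _
  have hf2 : ∀ l, 1 ≤ l → l < 2 * n - 1 → f l ≤ 1 / 2 * (1 / (l : ℝ) + 1 / ((2 * n - 1 - l : ℕ) : ℝ)) := by
    intro l h1 h2; rw [hf]; exact norm_DD_le hn1 hM hv h1 h2
  have e0 : ∑ l ∈ range (2 * n), ‖DD n (2 * n * M) ((M : ℤ) * l + v)‖ = ∑ l ∈ range (2 * n), f l := by
    rw [hf]
  rw [e0]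
  have e1 : 2 * n = (2 * n - 1) + 1 := by omega
  rw [e1, Finset.sum_range_succ, Finset.range_eq_Ico,
    Finset.sum_eq_sum_Ico_succ_bot (show 0 < 2 * n - 1 by omega)]
  have h3 : ∑ l ∈ Ico (0 + 1) (2 * n - 1), f l ≤
      ∑ l ∈ Ico 1 (2 * n - 1), (1 / 2 * (1 / (l : ℝ) + 1 / ((2 * n - 1 - l : ℕ) : ℝ))) := by
    apply Finset.sum_le_sum
    intro l hl
    rw [Finset.mem_Ico] at hl
    exact hf2 l (by omega) (by omega)
  have h4 : ∑ l ∈ Ico 1 (2 * n - 1), (1 / 2 * (1 / (l : ℝ) + 1 / ((2 * n - 1 - l : ℕ) : ℝ))) =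
      ∑ l ∈ Ico 1 (2 * n - 1), 1 / (l : ℝ) := by
    rw [← Finset.mul_sum, Finset.sum_add_distrib]
    have h5 : ∑ l ∈ Ico 1 (2 * n - 1), 1 / ((2 * n - 1 - l : ℕ) : ℝ) =
        ∑ l ∈ Ico 1 (2 * n - 1), 1 / (l : ℝ) := by
      apply Finset.sum_nbij' (fun l => 2 * n - 1 - l) (fun l => 2 * n - 1 - l)
      · intro l hl
        simp only [Finset.mem_Ico] at hl ⊢
        omega
      · intro l hl
        simp only [Finset.mem_Ico] at hl ⊢
        omega
      · intro l hl
        simp only [Finset.mem_Ico] at hl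
        omega
      · intro l hl
        simp only [Finset.mem_Ico] at hl
        omega
      · intro l hl
        rfl
    rw [h5]
    ring
  have h6 : ∑ l ∈ Ico 1 (2 * n - 1), 1 / (l : ℝ) ≤ N := by
    calc ∑ l ∈ Ico 1 (2 * n - 1), 1 / (l : ℝ) ≤ ∑ l ∈ Ico (1 : ℕ) (2 ^ N), 1 / (l : ℝ) := by
          apply Finset.sum_le_sum_of_subset_of_nonneg
          · apply Finset.Ico_subset_Ico_right
            omega
          · intro l _ _
            positivity
      _ ≤ N := harm_le N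
  have := hf1 0
  have := hf1 (2 * n - 1)
  rw [h4] at h3
  linarith

theorem periodic_sum (f : ℤ → ℝ) (P : ℕ) (hP : 1 ≤ P) (hf : ∀ y, f (y + P) = f y) (u : ℤ) :
    ∑ m ∈ range P, f (u - m) = ∑ l ∈ range P, f l := by
  have step : ∀ u : ℤ, ∑ m ∈ range P, f (u + 1 - m) = ∑ m ∈ range P, f (u - m) := by
    intro u
    obtain ⟨Q, rfl⟩ : ∃ Q, P = Q + 1 := ⟨P - 1, by omega⟩
    rw [Finset.sum_range_succ', Finset.sum_range_succ]
    congr 1
    · apply Finset.sum_congr rfl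
      intro m _
      congr 1
      push_cast
      ring
    · rw [← hf (u - Q)]
      congr 1
      push_cast
      ring
  have all : ∀ u : ℤ, ∑ m ∈ range P, f (u - m) = ∑ m ∈ range P, f (0 - m) := by
    intro u
    induction u using Int.induction_on with
    | zero => rfl
    | succ i ih => rw [step, ih]
    | pred i ih =>
      rw [← ih, ← step (-(i : ℤ) - 1)]
      apply Finset.sum_congr rfl
      intro m _
      congr 1
      ring
  rw [all u, ← all ((P - 1 : ℕ) : ℤ), ← Finset.sum_range_reflect]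
  apply Finset.sum_congr rfl
  intro m hm
  rw [Finset.mem_range] at hm
  congr 1
  omega

theorem key_sum {N n M : ℕ} (hn : 2 * n = 2 ^ N) (hn1 : 1 ≤ n) (hM : 1 ≤ M) (y : ℤ) :
    ∑ m ∈ range (2 * n), ‖DD n (2 * n * M) (y - (M : ℤ) * m)‖ ≤ 2 + N := by
  have hMz : (M : ℤ) ≠ 0 := by
    have : M ≠ 0 := by omega
    exact_mod_cast this
  obtain ⟨v, hv⟩ : ∃ v : ℕ, (v : ℤ) = y % M := ⟨(y % M).toNat, by
    rw [Int.toNat_of_nonneg (Int.emod_nonneg _ hMz)]⟩
  have hvM : v < M := by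
    have : y % M < M := Int.emod_lt_of_pos _ (by omega)
    omega
  obtain ⟨u, hu⟩ : ∃ u : ℤ, u = y / M := ⟨_, rfl⟩
  have hy : y = (M : ℤ) * u + v := by
    rw [hv, hu]
    exact (Int.mul_ediv_add_emod y M).symm
  have hper := periodic_sum (fun l : ℤ => ‖DD n (2 * n * M) ((M : ℤ) * l + v)‖) (2 * n) (by omega)
    (by
      intro l
      have := norm_DD_add (n := n) (L := 2 * n * M) (by positivity) ((M : ℤ) * l + v)
      rw [← this]
      congr 2
      push_cast
      ring) u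
  have e : ∀ m : ℕ, ‖DD n (2 * n * M) (y - (M : ℤ) * m)‖ =
      ‖DD n (2 * n * M) ((M : ℤ) * (u - m) + v)‖ := by
    intro m
    rw [hy]
    congr 2
    ring
  simp only [e]
  rw [hper]
  exact row_sum hn hn1 hM hvM

theorem sum_range_mul_blocks (f : ℕ → ℝ) (a M : ℕ) :
    ∑ x ∈ range (a * M), f x = ∑ l ∈ range a, ∑ v ∈ range M, f (M * l + v) := by
  induction a with
  | zero => simp
  | succ a ih =>
    rw [Nat.succ_mul, Finset.sum_range_add, ih, Finset.sum_range_succ]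
    congr 1
    apply Finset.sum_congr rfl
    intro v _
    rw [mul_comm a M]

theorem full_sum {N n M : ℕ} (hn : 2 * n = 2 ^ N) (hn1 : 1 ≤ n) (hM : 1 ≤ M) :
    ∑ x ∈ range (2 * n * M), ‖DD n (2 * n * M) (x : ℤ)‖ ≤ M * (2 + N) := by
  rw [sum_range_mul_blocks (fun x => ‖DD n (2 * n * M) (x : ℤ)‖) (2 * n) M, Finset.sum_comm]
  calc ∑ v ∈ range M, ∑ l ∈ range (2 * n), ‖DD n (2 * n * M) ((M * l + v : ℕ) : ℤ)‖
      ≤ ∑ v ∈ range M, ((2 : ℝ) + N) := by
        apply Finset.sum_le_sum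
        intro v hv
        rw [Finset.mem_range] at hv
        have := row_sum hn hn1 hM hv
        refine le_trans (le_of_eq ?_) this
        apply Finset.sum_congr rfl
        intro l _
        congr 2
    _ = M * (2 + N) := by
        rw [Finset.sum_const, Finset.card_range, nsmul_eq_mul]

theorem n_pos_of {N n : ℕ} (hn : 2 * n = 2 ^ N) : 1 ≤ n := by
  rcases Nat.eq_zero_or_pos n with h | h
  · rw [h] at hn
    have : 0 < 2 ^ N := by positivity
    omega
  · exact h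

theorem M_pos_of {n M : ℕ} (hL : 100 ≤ 2 * n * M) : 1 ≤ M := by
  rcases Nat.eq_zero_or_pos M with h | h
  · rw [h] at hL
    omega
  · exact h

theorem lattice_interp (N n M : ℕ) (hn : 2 * n = 2 ^ N) (hL : 100 ≤ 2 * n * M) (h : ℕ → ℂ)
    (hh : ∀ m, ‖h m‖ ≤ 1) : ∃ η : ℕ → ℂ, (∀ k, ‖η k‖ ≤ 1) ∧
      (∀ m < 2 * n, ∑ k ∈ range (2 * n), η k * lam n (2 * n * M) k ^ (M * m) = (rad (2 * n * M) : ℂ) ^ (M * m) * h m) ∧
      ∀ x : ℕ, ‖∑ k ∈ range (2 * n), η k * lam n (2 * n * M) k ^ x‖ ≤ (2 + N) * rad (2 * n * M) ^ x := by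
  have hn1 : 1 ≤ n := n_pos_of hn
  have hM1 : 1 ≤ M := M_pos_of hL
  have hr := rad_pos hL
  have hn' : (0 : ℝ) < 2 * n := by positivity
  have e : ‖(1 / (2 * n : ℂ))‖ = 1 / (2 * n : ℝ) := by
    rw [norm_div, norm_one, norm_mul, Complex.norm_natCast]
    simp
  have main : ∀ x : ℕ, ∑ k ∈ range (2 * n), ((1 / (2 * n : ℂ)) * ∑ m ∈ range (2 * n), h m *
      EE (-(th n (2 * n * M) k * (M * m : ℝ)))) * lam n (2 * n * M) k ^ x =
      (rad (2 * n * M) : ℂ) ^ x * ∑ m ∈ range (2 * n), h m * DD n (2 * n * M) ((x : ℤ) - (M : ℤ) * m) := by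
    intro x
    have e1 : ∀ k, ((1 / (2 * n : ℂ)) * ∑ m ∈ range (2 * n), h m *
      EE (-(th n (2 * n * M) k * (M * m : ℝ)))) * lam n (2 * n * M) k ^ x =
      ∑ m ∈ range (2 * n), (rad (2 * n * M) : ℂ) ^ x * (h m * ((1 / (2 * n : ℂ)) *
        EE (th n (2 * n * M) k * (((x : ℤ) - (M : ℤ) * m : ℤ) : ℝ)))) := by
      intro k
      rw [Finset.mul_sum, Finset.sum_mul]
      apply Finset.sum_congr rfl
      intro m _
      rw [lam_pow]
      have e2 : th n (2 * n * M) k * (((x : ℤ) - (M : ℤ) * m : ℤ) : ℝ) =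
          -(th n (2 * n * M) k * (M * m : ℝ)) + th n (2 * n * M) k * x := by
        push_cast
        ring
      rw [e2, EE_add]
      ring
    rw [Finset.sum_congr rfl (fun k _ => e1 k), Finset.sum_comm, Finset.mul_sum]
    apply Finset.sum_congr rfl
    intro m _
    unfold DD
    simp only [Finset.mul_sum]
  refine ⟨fun k => (1 / (2 * n : ℂ)) * ∑ m ∈ range (2 * n), h m *
      EE (-(th n (2 * n * M) k * (M * m : ℝ))), ?_, ?_, ?_⟩
  · intro k
    simp only
    rw [norm_mul, e]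
    have : ‖∑ m ∈ range (2 * n), h m * EE (-(th n (2 * n * M) k * (M * m : ℝ)))‖ ≤ 2 * n := by
      calc ‖∑ m ∈ range (2 * n), h m * EE (-(th n (2 * n * M) k * (M * m : ℝ)))‖
          ≤ ∑ m ∈ range (2 * n), ‖h m * EE (-(th n (2 * n * M) k * (M * m : ℝ)))‖ :=
            norm_sum_le _ _
        _ ≤ ∑ m ∈ range (2 * n), (1 : ℝ) := by
            apply Finset.sum_le_sum
            intro m _
            rw [norm_mul, norm_EE, mul_one]
            exact hh m
        _ = 2 * n := by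
            simp
    calc 1 / (2 * n : ℝ) * ‖∑ m ∈ range (2 * n), h m * EE (-(th n (2 * n * M) k * (M * m : ℝ)))‖
        ≤ 1 / (2 * n : ℝ) * (2 * n) := mul_le_mul_of_nonneg_left this (by positivity)
      _ = 1 := by field_simp
  · intro m hm
    simp only
    rw [main (M * m)]
    congr 1
    rw [Finset.sum_eq_single m]
    · have := DD_mul hn1 hM1 hm hm
      rw [if_pos rfl] at this
      push_cast
      rw [this, mul_one]
    · intro b hb hbm
      rw [Finset.mem_range] at hb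
      have := DD_mul hn1 hM1 hm hb
      rw [if_neg hbm] at this
      push_cast
      rw [this, mul_zero]
    · intro hm'
      exact absurd (Finset.mem_range.2 hm) hm'
  · intro x
    simp only
    rw [main x, norm_mul, norm_pow, Complex.norm_real, Real.norm_eq_abs, abs_of_pos hr,
      mul_comm]
    apply mul_le_mul_of_nonneg_right _ (by positivity)
    calc ‖∑ m ∈ range (2 * n), h m * DD n (2 * n * M) ((x : ℤ) - (M : ℤ) * m)‖
        ≤ ∑ m ∈ range (2 * n), ‖h m * DD n (2 * n * M) ((x : ℤ) - (M : ℤ) * m)‖ :=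
          norm_sum_le _ _
      _ ≤ ∑ m ∈ range (2 * n), ‖DD n (2 * n * M) ((x : ℤ) - (M : ℤ) * m)‖ := by
          apply Finset.sum_le_sum
          intro m _
          rw [norm_mul]
          calc ‖h m‖ * ‖DD n (2 * n * M) ((x : ℤ) - (M : ℤ) * m)‖
              ≤ 1 * ‖DD n (2 * n * M) ((x : ℤ) - (M : ℤ) * m)‖ :=
                mul_le_mul_of_nonneg_right (hh m) (norm_nonneg _)
            _ = _ := one_mul _
      _ ≤ 2 + N := key_sum hn hn1 hM1 x

/-! ### lower bound -/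

theorem orth {n L : ℕ} (hL : 2 * n ≤ L) (hL0 : 0 < L) {k l : ℕ} (hk : k < 2 * n) (hl : l < 2 * n) :
    ∑ x ∈ range L, EE (th n L k * x) * EE (-(th n L l * x)) = if k = l then (L : ℂ) else 0 := by
  have hL' : (0 : ℝ) < L := by positivity
  split_ifs with h
  · rw [h]
    have : ∀ x : ℕ, EE (th n L l * x) * EE (-(th n L l * x)) = 1 := by
      intro x
      rw [← EE_add, add_neg_cancel, EE_zero]
    simp only [this, Finset.sum_const, Finset.card_range, nsmul_eq_mul, mul_one]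
  · have e : ∀ x : ℕ, EE (th n L k * x) * EE (-(th n L l * x)) =
        (EE (2 * Real.pi * (((k : ℤ) - l : ℤ) : ℝ) / L)) ^ x := by
      intro x
      rw [← EE_add, ← EE_nat_mul]
      congr 1
      unfold th
      push_cast
      ring
    simp only [e]
    apply geom_zero
    · rcases lt_or_gt_of_ne h with h | h
      · intro h1
        have h2 : EE (2 * Real.pi * (((l : ℝ) - k) / L)) = 1 := by
          have e3 : 2 * Real.pi * (((l : ℝ) - k) / L) = -(2 * Real.pi * (((k : ℤ) - l : ℤ) : ℝ) / L) := by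
            push_cast
            ring
          rw [e3, ← EE_conj, h1, map_one]
        refine EE_ne_one ?_ ?_ h2
        · have : (k : ℝ) < l := by exact_mod_cast h
          apply div_pos (by linarith) hL'
        · rw [div_lt_one hL']
          have h3 : (l : ℝ) < L := by
            have : l < L := by omega
            exact_mod_cast this
          have : (0 : ℝ) ≤ k := by positivity
          linarith
      · intro h1
        have h2 : EE (2 * Real.pi * (((k : ℝ) - l) / L)) = 1 := by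
          rw [← h1]
          congr 1
          push_cast
          ring
        refine EE_ne_one ?_ ?_ h2
        · have : (l : ℝ) < k := by exact_mod_cast h
          apply div_pos (by linarith) hL'
        · rw [div_lt_one hL']
          have h3 : (k : ℝ) < L := by
            have : k < L := by omega
            exact_mod_cast this
          have : (0 : ℝ) ≤ l := by positivity
          linarith
    · rw [← EE_nat_mul]
      have : (L : ℝ) * (2 * Real.pi * (((k : ℤ) - l : ℤ) : ℝ) / L) =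
          2 * Real.pi * (((k : ℤ) - l : ℤ) : ℝ) := by
        field_simp
      rw [this, EE_two_pi_int]

theorem holder4 {ι : Type*} (s : Finset ι) (w a : ι → ℝ) (hw : ∀ i ∈ s, 0 ≤ w i)
    : (∑ i ∈ s, w i * a i) ^ 4 ≤ (∑ i ∈ s, w i) ^ 3 * ∑ i ∈ s, w i * a i ^ 4 := by
  have hW : 0 ≤ ∑ i ∈ s, w i := Finset.sum_nonneg hw
  have h1 : (∑ i ∈ s, w i * a i) ^ 2 ≤ (∑ i ∈ s, w i) * ∑ i ∈ s, w i * a i ^ 2 := by
    apply Finset.sum_sq_le_sum_mul_sum_of_sq_le_mul s hw
    · intro i hi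
      exact mul_nonneg (hw i hi) (sq_nonneg _)
    · intro i hi
      apply le_of_eq
      ring
  have h2 : (∑ i ∈ s, w i * a i ^ 2) ^ 2 ≤ (∑ i ∈ s, w i) * ∑ i ∈ s, w i * a i ^ 4 := by
    apply Finset.sum_sq_le_sum_mul_sum_of_sq_le_mul s hw
    · intro i hi
      exact mul_nonneg (hw i hi) (by positivity)
    · intro i hi
      apply le_of_eq
      ring
  calc (∑ i ∈ s, w i * a i) ^ 4 = ((∑ i ∈ s, w i * a i) ^ 2) ^ 2 := by ring
    _ ≤ ((∑ i ∈ s, w i) * ∑ i ∈ s, w i * a i ^ 2) ^ 2 :=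
        pow_le_pow_left₀ (sq_nonneg _) h1 2
    _ = (∑ i ∈ s, w i) ^ 2 * (∑ i ∈ s, w i * a i ^ 2) ^ 2 := by ring
    _ ≤ (∑ i ∈ s, w i) ^ 2 * ((∑ i ∈ s, w i) * ∑ i ∈ s, w i * a i ^ 4) :=
        mul_le_mul_of_nonneg_left h2 (sq_nonneg _)
    _ = (∑ i ∈ s, w i) ^ 3 * ∑ i ∈ s, w i * a i ^ 4 := by ring

theorem lattice_lower (N n M : ℕ) (hn : 2 * n = 2 ^ N) (hL : 100 ≤ 2 * n * M) (η : ℕ → ℂ) :
    (M : ℝ) * (rad (2 * n * M) ^ (2 * n * M)) ^ 4 * ‖∑ k ∈ range (2 * n), η k‖ ^ 4 ≤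
      (2 + N) ^ 3 * ∑ x ∈ range (2 * n * M), ‖∑ k ∈ range (2 * n), η k * lam n (2 * n * M) k ^ x‖ ^ 4 := by
  have hn1 : 1 ≤ n := n_pos_of hn
  have hM1 : 1 ≤ M := M_pos_of hL
  have hr := rad_pos hL
  have hr1 := rad_le_one hL
  have hn' : (0 : ℝ) < 2 * n := by positivity
  have hM' : (0 : ℝ) < M := by positivity
  obtain ⟨r, hrr⟩ : ∃ r, r = rad (2 * n * M) := ⟨_, rfl⟩
  obtain ⟨L, hLL⟩ : ∃ L, L = 2 * n * M := ⟨_, rfl⟩
  have hLn : 2 * n ≤ L := by
    rw [hLL]
    exact Nat.le_mul_of_pos_right _ hM1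
  have hL0 : 0 < L := by omega
  obtain ⟨H, hH⟩ : ∃ H : ℕ → ℂ, H = fun x => ∑ k ∈ range (2 * n), η k * lam n L k ^ x := ⟨_, rfl⟩
  -- main identity
  have id1 : (M : ℂ) * ∑ k ∈ range (2 * n), η k =
      ∑ x ∈ range L, ((r : ℂ) ^ x)⁻¹ * H x * (starRingEnd ℂ) (DD n L x) := by
    have e1 : ∀ x : ℕ, ((r : ℂ) ^ x)⁻¹ * H x * (starRingEnd ℂ) (DD n L x) =
        ∑ k ∈ range (2 * n), ∑ l ∈ range (2 * n), (1 / (2 * n : ℂ)) * η k *
          (EE (th n L k * x) * EE (-(th n L l * x))) := by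
      intro x
      rw [hH]
      have hrx : (r : ℂ) ^ x ≠ 0 := by
        apply pow_ne_zero
        rw [hrr]
        exact_mod_cast hr.ne'
      have e2 : ∑ k ∈ range (2 * n), η k * lam n L k ^ x =
          (r : ℂ) ^ x * ∑ k ∈ range (2 * n), η k * EE (th n L k * x) := by
        rw [Finset.mul_sum]
        apply Finset.sum_congr rfl
        intro k _
        rw [lam_pow, hrr, hLL]
        ring
      simp only
      rw [e2, inv_mul_cancel_left₀ hrx]
      have e3 : (starRingEnd ℂ) (DD n L x) = ∑ l ∈ range (2 * n), (1 / (2 * n : ℂ)) *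
          EE (-(th n L l * x)) := by
        unfold DD
        rw [map_mul, map_sum, Finset.mul_sum]
        apply Finset.sum_congr rfl
        intro l _
        rw [EE_conj]
        congr 1
        rw [map_div₀, map_one, map_mul, map_ofNat, map_natCast]
      rw [e3, Finset.sum_mul_sum]
      apply Finset.sum_congr rfl
      intro k _
      apply Finset.sum_congr rfl
      intro l _
      ring
    rw [Finset.sum_congr rfl (fun x _ => e1 x), Finset.sum_comm, Finset.mul_sum]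
    apply Finset.sum_congr rfl
    intro k hk
    rw [Finset.mem_range] at hk
    rw [Finset.sum_comm]
    have e4 : ∀ l ∈ range (2 * n), ∑ x ∈ range L, (1 / (2 * n : ℂ)) * η k *
          (EE (th n L k * x) * EE (-(th n L l * x))) =
          (1 / (2 * n : ℂ)) * η k * (if k = l then (L : ℂ) else 0) := by
      intro l hl
      rw [Finset.mem_range] at hl
      rw [← Finset.mul_sum, orth hLn hL0 hk hl]
    rw [Finset.sum_congr rfl e4, ← Finset.mul_sum, Finset.sum_ite_eq, if_pos (Finset.mem_range.2 hk),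
      hLL]
    have hn0 : (n : ℂ) ≠ 0 := by
      have : n ≠ 0 := by omega
      exact_mod_cast this
    push_cast
    field_simp
  have h1 : r ^ L * (M * ‖∑ k ∈ range (2 * n), η k‖) ≤ ∑ x ∈ range L, ‖DD n L x‖ * ‖H x‖ := by
    have e5 : (M : ℝ) * ‖∑ k ∈ range (2 * n), η k‖ = ‖(M : ℂ) * ∑ k ∈ range (2 * n), η k‖ := by
      rw [norm_mul, Complex.norm_natCast]
    rw [e5, id1]
    have hrL : 0 < r ^ L := by rw [hrr]; positivity
    calc r ^ L * ‖∑ x ∈ range L, ((r : ℂ) ^ x)⁻¹ * H x * (starRingEnd ℂ) (DD n L x)‖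
        ≤ r ^ L * ∑ x ∈ range L, ‖((r : ℂ) ^ x)⁻¹ * H x * (starRingEnd ℂ) (DD n L x)‖ :=
          mul_le_mul_of_nonneg_left (norm_sum_le _ _) hrL.le
      _ = ∑ x ∈ range L, r ^ L * ‖((r : ℂ) ^ x)⁻¹ * H x * (starRingEnd ℂ) (DD n L x)‖ := by
          rw [Finset.mul_sum]
      _ ≤ ∑ x ∈ range L, ‖DD n L x‖ * ‖H x‖ := by
          apply Finset.sum_le_sum
          intro x hx
          rw [Finset.mem_range] at hx
          rw [norm_mul, norm_mul, norm_inv, norm_pow, Complex.norm_real, Real.norm_eq_abs,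
            abs_of_pos (by rw [hrr]; exact hr), RCLike.norm_conj]
          have hrx : 0 < r ^ x := by rw [hrr]; positivity
          have h6 : r ^ L * (r ^ x)⁻¹ ≤ 1 := by
            rw [← div_eq_mul_inv, div_le_one hrx]
            apply pow_le_pow_of_le_one (by rw [hrr]; exact hr.le) (by rw [hrr]; exact hr1) hx.le
          calc r ^ L * ((r ^ x)⁻¹ * ‖H x‖ * ‖DD n L x‖) = (r ^ L * (r ^ x)⁻¹) * (‖DD n L x‖ * ‖H x‖) := by
                ring
            _ ≤ 1 * (‖DD n L x‖ * ‖H x‖) :=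
                mul_le_mul_of_nonneg_right h6 (by positivity)
            _ = _ := one_mul _
  have h2 := holder4 (range L) (fun x => ‖DD n L x‖) (fun x => ‖H x‖) (fun _ _ => norm_nonneg _)
  have h3 : ∑ x ∈ range L, ‖DD n L (x : ℤ)‖ ≤ M * (2 + N) := by
    rw [hLL]
    exact full_sum hn hn1 hM1
  have h4 : ∑ x ∈ range L, ‖DD n L x‖ * ‖H x‖ ^ 4 ≤ ∑ x ∈ range L, ‖H x‖ ^ 4 := by
    apply Finset.sum_le_sum
    intro x _
    calc ‖DD n L x‖ * ‖H x‖ ^ 4 ≤ 1 * ‖H x‖ ^ 4 :=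
          mul_le_mul_of_nonneg_right (norm_DD_le_one hn1 _ _) (by positivity)
      _ = _ := one_mul _
  have hrL : 0 < r ^ L := by rw [hrr]; positivity
  have h5 : (r ^ L * (M * ‖∑ k ∈ range (2 * n), η k‖)) ^ 4 ≤
      (M * (2 + N)) ^ 3 * ∑ x ∈ range L, ‖H x‖ ^ 4 := by
    calc (r ^ L * (M * ‖∑ k ∈ range (2 * n), η k‖)) ^ 4
        ≤ (∑ x ∈ range L, ‖DD n L x‖ * ‖H x‖) ^ 4 := pow_le_pow_left₀ (by positivity) h1 4
      _ ≤ (∑ x ∈ range L, ‖DD n L x‖) ^ 3 * ∑ x ∈ range L, ‖DD n L x‖ * ‖H x‖ ^ 4 := h2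
      _ ≤ (M * (2 + N)) ^ 3 * ∑ x ∈ range L, ‖H x‖ ^ 4 := by
          apply mul_le_mul
          · apply pow_le_pow_left₀ (Finset.sum_nonneg (fun _ _ => norm_nonneg _)) h3
          · exact h4
          · exact Finset.sum_nonneg (fun _ _ => by positivity)
          · positivity
  have h7 : (M : ℝ) ^ 3 * ((M : ℝ) * (r ^ L) ^ 4 * ‖∑ k ∈ range (2 * n), η k‖ ^ 4) ≤
      (M : ℝ) ^ 3 * ((2 + N) ^ 3 * ∑ x ∈ range L, ‖H x‖ ^ 4) := by
    calc (M : ℝ) ^ 3 * ((M : ℝ) * (r ^ L) ^ 4 * ‖∑ k ∈ range (2 * n), η k‖ ^ 4)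
        = (r ^ L * (M * ‖∑ k ∈ range (2 * n), η k‖)) ^ 4 := by ring
      _ ≤ (M * (2 + N)) ^ 3 * ∑ x ∈ range L, ‖H x‖ ^ 4 := h5
      _ = _ := by ring
  have h8 := le_of_mul_le_mul_left h7 (by positivity)
  rw [hrr, hLL] at h8
  rw [hH] at h8
  simp only at h8
  rw [hLL] at h8
  exact h8

end NC
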