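import Pool.Agent.Helper859.NC.Defs
import Pool.Agent.Helper859.NC.N2
import Pool.Agent.Helper859.NC.N3
import Pool.Agent.Helper859.NC.N5
import Pool.Agent.Helper859.NC.N6
set_option autoImplicit false
open Finset

namespace NC

end NC

namespace NC

end NC

namespace NC

end NC

namespace NC

end NC

namespace NC

/-! GIVEN (proved elsewhere, leave the sorries) -/
/-! TARGETS -/
theorem choose_q (σ : ℕ) (M0 : ℝ) : ∃ q : ℕ, 1 ≤ q ∧
    2 * (M0 + 1) * (2 + 4 * σ * q) ^ 2 * Real.exp 200 < (q.factorial : ℝ) * (8 / q) ^ q := by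
  have ht := tendsto_pow_const_div_const_pow_of_one_lt 2 (r := (2:ℝ)) (by norm_num)
  set C : ℝ := 2 * (|M0| + 1) * (2 + 4 * σ) ^ 2 * Real.exp 200 with hC
  have hCpos : 0 < C := by
    have := abs_nonneg M0
    positivity
  have hev : ∀ᶠ q : ℕ in Filter.atTop, (q : ℝ) ^ 2 / 2 ^ q < 1 / C := 
    ht.eventually_lt_const (by positivity)
  obtain ⟨q, hq1, hq⟩ := ((Filter.eventually_ge_atTop 1).and hev).exists
  refine ⟨q, hq1, ?_⟩
  have hq0 : (1 : ℝ) ≤ q := by exact_mod_cast hq1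
  have h2 : C * (q : ℝ) ^ 2 < 2 ^ q := by
    rw [div_lt_div_iff₀ (by positivity) hCpos] at hq
    linarith
  have h3 : (2 : ℝ) ^ q ≤ (q.factorial : ℝ) * (8 / q) ^ q := by
    have h4 := Real.pow_div_factorial_le_exp (q : ℝ) (by positivity) q
    have h5 : Real.exp (q : ℝ) ≤ 3 ^ q := by
      have : Real.exp (q : ℝ) = Real.exp 1 ^ q := by
        rw [← Real.exp_nat_mul]; simp
      rw [this]
      exact pow_le_pow_left₀ (Real.exp_pos _).le (by have := Real.exp_one_lt_d9; linarith) _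
    have h6 : (q : ℝ) ^ q ≤ 3 ^ q * q.factorial := by
      have hf : (0 : ℝ) < q.factorial := by exact_mod_cast q.factorial_pos
      rw [div_le_iff₀ hf] at h4
      calc (q : ℝ) ^ q ≤ Real.exp q * q.factorial := h4
        _ ≤ _ := by gcongr
    rw [div_pow, mul_div_assoc', le_div_iff₀ (by positivity)]
    calc (2 : ℝ) ^ q * q ^ q ≤ 2 ^ q * (3 ^ q * q.factorial) := by gcongr
      _ = q.factorial * 6 ^ q := by
        rw [show (6 : ℝ) = 2 * 3 by norm_num, mul_pow]; ring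
      _ ≤ q.factorial * 8 ^ q := by gcongr; norm_num
  refine lt_of_le_of_lt ?_ (lt_of_lt_of_le h2 h3)
  rw [hC]
  have h7 : (2 + 4 * (σ : ℝ) * q) ^ 2 ≤ (2 + 4 * σ) ^ 2 * q ^ 2 := by
    rw [← mul_pow]
    gcongr
    nlinarith [Nat.cast_nonneg (α := ℝ) σ]
  have h8 : M0 + 1 ≤ |M0| + 1 := by have := le_abs_self M0; linarith
  calc 2 * (M0 + 1) * (2 + 4 * (σ : ℝ) * q) ^ 2 * Real.exp 200 
      ≤ 2 * (|M0| + 1) * (2 + 4 * (σ : ℝ) * q) ^ 2 * Real.exp 200 := by gcongr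
    _ ≤ 2 * (|M0| + 1) * ((2 + 4 * (σ : ℝ)) ^ 2 * q ^ 2) * Real.exp 200 := by
        have := abs_nonneg M0
        gcongr
    _ = _ := by ring


/-- the function F -/
noncomputable def nzF (σ q : ℕ) (P : ℂ) : ℂ := P ^ (2 * q) / (1 - (48 / 2 ^ σ) * P) ^ (q + 1)

theorem nz_e_le (σ : ℕ) (hσ : 7 ≤ σ) : (48 : ℝ) / 2 ^ σ ≤ 3 / 8 := by
  have : (2 : ℝ) ^ 7 ≤ 2 ^ σ := pow_le_pow_right₀ (by norm_num) hσ
  rw [div_le_div_iff₀ (by positivity) (by norm_num)]
  norm_num at this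
  linarith

theorem nz_A_lower (σ : ℕ) (hσ : 7 ≤ σ) (P : ℂ) (hP : ‖P‖ ≤ 1) :
    5 / 8 ≤ ‖(1 : ℂ) - (48 / 2 ^ σ) * P‖ := by
  have h1 : ‖((48 : ℂ) / 2 ^ σ) * P‖ ≤ 3 / 8 := by
    rw [norm_mul, norm_div, norm_pow]
    simp only [Complex.norm_ofNat]
    calc (48 : ℝ) / 2 ^ σ * ‖P‖ ≤ 48 / 2 ^ σ * 1 := by gcongr
      _ ≤ _ := by rw [mul_one]; exact nz_e_le σ hσ
  have h2 := norm_sub_norm_le (1 : ℂ) ((48 / 2 ^ σ) * P)
  rw [norm_one] at h2
  linarith

theorem nz_F_one (σ q : ℕ) (hσ : 7 ≤ σ) : 1 ≤ ‖nzF σ q 1‖ := by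
  unfold nzF
  have h1 : ((1 : ℂ) - (48 / 2 ^ σ) * 1) = ((1 - 48 / 2 ^ σ : ℝ) : ℂ) := by push_cast; ring
  rw [h1, one_pow, norm_div, norm_one, norm_pow, Complex.norm_real]
  have h2 := nz_e_le σ hσ
  have h3 : (0 : ℝ) < 48 / 2 ^ σ := by positivity
  rw [Real.norm_of_nonneg (by linarith)]
  rw [one_le_div (by apply pow_pos; linarith)]
  exact pow_le_one₀ (by linarith) (by linarith)

theorem nz_F_cont (σ q : ℕ) (hσ : 7 ≤ σ) : ContinuousAt (nzF σ q) 1 := by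
  unfold nzF
  apply ContinuousAt.div
  · fun_prop
  · fun_prop
  · apply pow_ne_zero
    have := nz_A_lower σ hσ 1 (by simp)
    intro h
    rw [h] at this
    norm_num at this

theorem nz_F_near (σ q : ℕ) (hσ : 7 ≤ σ) (ε : ℝ) (hε : 0 < ε) : ∃ τ : ℝ, 0 < τ ∧ ∀ P : ℂ, ‖P - 1‖ ≤ τ →
    ‖nzF σ q P - nzF σ q 1‖ ≤ ε := by
  have h := Metric.continuousAt_iff.1 (nz_F_cont σ q hσ) ε hε
  obtain ⟨δ, hδ, h⟩ := h
  refine ⟨δ / 2, by positivity, fun P hP => ?_⟩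
  have := @h P (by rw [dist_eq_norm]; linarith)
  rw [dist_eq_norm] at this
  exact this.le

/-- summability of geometric combinations -/
theorem nz_summable_geo (s : Finset ℕ) (η lm : ℕ → ℂ) (r : ℝ) (hr0 : 0 ≤ r) (hr : r < 1)
    (hl : ∀ k ∈ s, ‖lm k‖ = r) : Summable (fun x : ℕ => ‖∑ k ∈ s, η k * lm k ^ x‖ ^ 4) := by
  set C : ℝ := ∑ k ∈ s, ‖η k‖ with hC
  have hCn : 0 ≤ C := Finset.sum_nonneg fun k _ => norm_nonneg _
  have hb : ∀ x : ℕ, ‖∑ k ∈ s, η k * lm k ^ x‖ ^ 4 ≤ C ^ 4 * (r ^ 4) ^ x := by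
    intro x
    have : ‖∑ k ∈ s, η k * lm k ^ x‖ ≤ C * r ^ x := by
      rw [hC, Finset.sum_mul]
      refine (norm_sum_le _ _).trans (Finset.sum_le_sum fun k hk => ?_)
      rw [norm_mul, norm_pow, hl k hk]
    calc ‖∑ k ∈ s, η k * lm k ^ x‖ ^ 4 ≤ (C * r ^ x) ^ 4 := by gcongr
      _ = _ := by rw [mul_pow, ← pow_mul, ← pow_mul, mul_comm x 4]
  refine Summable.of_nonneg_of_le (fun x => by positivity) hb ?_
  exact (summable_geometric_of_lt_one (by positivity) (pow_lt_one₀ hr0 hr (by norm_num))).mul_left _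

theorem noise (σ : ℕ) (hσ : 7 ≤ σ) (M0 : ℝ) (hM0 : 0 ≤ M0) : ∃ q : ℕ, 1 ≤ q ∧ ∀ n : ℕ, 2 * n = 2 ^ (4 * σ * q) →
    ∀ δ : ℝ, 0 < δ → ∃ M1 : ℕ, ∀ M : ℕ, M1 ≤ M → ∃ δ' : ℝ, 0 < δ' ∧ ∃ t : ℕ → ℂ, (∀ i, ‖t i‖ = 1) ∧ ∃ η : ℕ → ℂ,
      Summable (fun x : ℕ => ‖∑ k ∈ range (2 * n), η k * lam n (2 * n * M) k ^ x‖ ^ 4) ∧
      Summable (fun x : ℕ => ‖∑ k ∈ range (2 * n), η k / Vb σ q M δ δ' t (lam n (2 * n * M) k) *
        lam n (2 * n * M) k ^ x‖ ^ 4) ∧
      M0 ^ 4 * ∑' x : ℕ, ‖∑ k ∈ range (2 * n), η k * lam n (2 * n * M) k ^ x‖ ^ 4 <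
        ∑' x : ℕ, ‖∑ k ∈ range (2 * n), η k / Vb σ q M δ δ' t (lam n (2 * n * M) k) *
          lam n (2 * n * M) k ^ x‖ ^ 4 := by
  obtain ⟨q, hq1, hq⟩ := choose_q σ M0
  refine ⟨q, hq1, fun n hn δ hδ => ?_⟩
  have hn1 : 1 ≤ n := by
    rcases Nat.eq_zero_or_pos n with h | h
    · subst h
      have : 0 < 2 ^ (4 * σ * q) := by positivity
      omega
    · exact h
  have hnR : (1 : ℝ) ≤ n := by exact_mod_cast hn1
  obtain ⟨τ, hτ, hF⟩ := nz_F_near σ q hσ (Real.exp (-100) / (4 * n)) (by positivity)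
  obtain ⟨M1, hM1⟩ := exists_nat_gt (max 100 (100 / (τ * δ)))
  refine ⟨M1, fun M hM => ?_⟩
  have hMr : (M1 : ℝ) ≤ M := by exact_mod_cast hM
  have hM100 : (100 : ℝ) < M := lt_of_lt_of_le ((le_max_left _ _).trans_lt hM1) hMr
  have hMτ : 100 / (τ * δ) < M := lt_of_lt_of_le ((le_max_right _ _).trans_lt hM1) hMr
  have hM100' : 100 ≤ M := by
    have : (100 : ℕ) < M := by exact_mod_cast hM100
    omega
  set L : ℕ := 2 * n * M with hLdef
  have hL : 100 ≤ L := by rw [hLdef]; nlinarith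
  have hLR : (L : ℝ) = 2 * n * M := by rw [hLdef]; push_cast; ring
  have hLpos : (0 : ℝ) < L := by
    have : (100 : ℝ) ≤ L := by exact_mod_cast hL
    linarith
  have hrp := rad_pos hL
  have hrl := rad_lt hL
  have hrlt1 : rad L < 1 := by
    have : 0 < 1 / (L : ℝ) := by positivity
    linarith
  set δ' : ℝ := (1 / L) * (τ / 2) with hδ'
  have hδ'pos : 0 < δ' := by positivity
  refine ⟨δ', hδ'pos, ?_⟩
  -- P near one
  have hnear : ∀ k < 2 * n, ‖lc δ δ' (lam n L k) - 1‖ ≤ τ := by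
    intro k hk
    have hnl := norm_lam n hL k
    have h1 := lc_near δ δ' hδ hδ'pos (z := lam n L k) (by rw [hnl]; exact hrlt1)
    rw [hnl] at h1
    have h2 : δ' / (1 - rad L) ≤ τ / 2 := by
      rw [div_le_iff₀ (by linarith), hδ', mul_comm]
      exact mul_le_mul_of_nonneg_left hrl (by positivity)
    have h3 : ‖1 - lam n L k‖ / δ ≤ τ / 2 := by
      have h4 := lam_near hL hn1 hk
      rw [div_le_iff₀ hδ]
      refine h4.trans ?_
      rw [hLR, div_le_iff₀ (by positivity)]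
      rw [div_lt_iff₀ (by positivity)] at hMτ
      nlinarith
    linarith
  -- product
  obtain ⟨g, hg, hprod⟩ := prod_rs (4 * σ) q
  obtain ⟨η, hη1, hη2, hη3⟩ := lattice_interp (4 * σ * q) n M hn hL (fun m => (g m : ℂ)) (by
    intro m
    rcases hg m with h | h <;> simp [h])
  rw [← hLdef] at hη2 hη3
  have hgsq : ∀ m, (g m : ℂ) * (g m : ℂ) = 1 := by
    intro m
    rcases hg m with h | h <;> simp [h]
  have hsum1 : Summable (fun x : ℕ => ‖∑ k ∈ range (2 * n), η k * lam n L k ^ x‖ ^ 4) :=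
    nz_summable_geo _ _ _ (rad L) hrp.le hrlt1 (fun k _ => norm_lam n hL k)
  have hsum2 : ∀ t : ℕ → ℂ, Summable (fun x : ℕ => ‖∑ k ∈ range (2 * n), η k / Vb σ q M δ δ' t (lam n L k) *
        lam n L k ^ x‖ ^ 4) := fun t =>
    nz_summable_geo _ (fun k => η k / Vb σ q M δ δ' t (lam n L k)) _ (rad L) hrp.le hrlt1 (fun k _ => norm_lam n hL k)
  by_contra hcon
  push Not at hcon
  -- the bound on the sum
  have hNR : ((2 : ℝ) * n) = (2 ^ (σ * q)) ^ 4 := by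
    have : ((2 * n : ℕ) : ℝ) = ((2 ^ (4 * σ * q) : ℕ) : ℝ) := by rw [hn]
    push_cast at this
    rw [this, ← pow_mul]
    congr 1
    ring
  set N : ℝ := ((4 * σ * q : ℕ) : ℝ) with hN
  have hN0 : 0 ≤ N := by positivity
  have htot : ∑' x : ℕ, ‖∑ k ∈ range (2 * n), η k * lam n L k ^ x‖ ^ 4 ≤ (2 + N) ^ 4 * L := by
    have hgeo : HasSum (fun x : ℕ => (2 + N) ^ 4 * (rad L ^ 4) ^ x) ((2 + N) ^ 4 * (1 - rad L ^ 4)⁻¹) :=
      (hasSum_geometric_of_lt_one (by positivity) (pow_lt_one₀ hrp.le hrlt1 (by norm_num))).mul_left _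
    have h1 : ∑' x : ℕ, ‖∑ k ∈ range (2 * n), η k * lam n L k ^ x‖ ^ 4 ≤ (2 + N) ^ 4 * (1 - rad L ^ 4)⁻¹ := by
      rw [← hgeo.tsum_eq]
      refine hsum1.tsum_le_tsum (fun x => ?_) hgeo.summable
      calc ‖∑ k ∈ range (2 * n), η k * lam n L k ^ x‖ ^ 4 ≤ ((2 + N) * rad L ^ x) ^ 4 := by
            have := hη3 x
            gcongr
        _ = _ := by rw [mul_pow, ← pow_mul, ← pow_mul, mul_comm x 4]
    refine h1.trans ?_
    have h2 : rad L ^ 4 ≤ rad L := by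
      calc rad L ^ 4 ≤ rad L ^ 1 := pow_le_pow_of_le_one hrp.le hrlt1.le (by norm_num)
        _ = rad L := pow_one _
    have h3 : 1 / (L : ℝ) ≤ 1 - rad L ^ 4 := by linarith
    have h4 : (1 - rad L ^ 4)⁻¹ ≤ (L : ℝ) := by
      rw [inv_le_comm₀ (by linarith [show 0 < 1 / (L : ℝ) by positivity]) hLpos, ← one_div]
      exact h3
    gcongr
  set S : ℝ := (2 + N) ^ 2 * M0 * 2 ^ (σ * q) * Real.exp 100 with hS
  have hS0 : 0 ≤ S := by positivity
  have hbound : ∀ t : ℕ → ℂ, (∀ i, ‖t i‖ = 1) →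
      ‖∑ k ∈ range (2 * n), η k / Vb σ q M δ δ' t (lam n L k)‖ ≤ S := by
    intro t ht
    have h1 := hcon t ht η hsum1 (hsum2 t)
    have h2 := lattice_lower (4 * σ * q) n M hn hL (fun k => η k / Vb σ q M δ δ' t (lam n L k))
    rw [← hLdef] at h2
    have h3 : ∑ x ∈ range L, ‖∑ k ∈ range (2 * n), η k / Vb σ q M δ δ' t (lam n L k) * lam n L k ^ x‖ ^ 4 ≤
        ∑' x : ℕ, ‖∑ k ∈ range (2 * n), η k / Vb σ q M δ δ' t (lam n L k) * lam n L k ^ x‖ ^ 4 :=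
      (hsum2 t).sum_le_tsum _ (fun x _ => by positivity)
    set T : ℝ := ‖∑ k ∈ range (2 * n), η k / Vb σ q M δ δ' t (lam n L k)‖ with hT
    have hT0 : 0 ≤ T := norm_nonneg _
    have h4 : (M : ℝ) * (rad L ^ L) ^ 4 * T ^ 4 ≤ (2 + N) ^ 3 * (M0 ^ 4 * ((2 + N) ^ 4 * L)) := by
      refine h2.trans ?_
      have : (0 : ℝ) ≤ (2 + N) ^ 3 := by positivity
      refine mul_le_mul_of_nonneg_left (h3.trans (h1.trans ?_)) this
      exact mul_le_mul_of_nonneg_left htot (by positivity)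
    have hMpos : (0 : ℝ) < M := by linarith
    have h5 : Real.exp (-100) ^ 4 * T ^ 4 ≤ (2 + N) ^ 7 * M0 ^ 4 * (2 * n) := by
      have h6 : (M : ℝ) * (Real.exp (-100) ^ 4 * T ^ 4) ≤ M * ((2 + N) ^ 7 * M0 ^ 4 * (2 * n)) := by
        have h7 := rad_pow hL
        calc (M : ℝ) * (Real.exp (-100) ^ 4 * T ^ 4) ≤ M * ((rad L ^ L) ^ 4 * T ^ 4) := by gcongr
          _ = (M : ℝ) * (rad L ^ L) ^ 4 * T ^ 4 := by ring
          _ ≤ _ := h4
          _ = _ := by rw [hLR]; ring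
      exact le_of_mul_le_mul_left h6 hMpos
    have h8 : T ^ 4 ≤ S ^ 4 := by
      have h9 : Real.exp 100 ^ 4 * (Real.exp (-100) ^ 4 * T ^ 4) = T ^ 4 := by
        rw [← mul_assoc, ← mul_pow, ← Real.exp_add]
        norm_num
      rw [← h9]
      calc Real.exp 100 ^ 4 * (Real.exp (-100) ^ 4 * T ^ 4) 
          ≤ Real.exp 100 ^ 4 * ((2 + N) ^ 7 * M0 ^ 4 * (2 * n)) := by gcongr
        _ ≤ Real.exp 100 ^ 4 * ((2 + N) ^ 8 * M0 ^ 4 * (2 * n)) := by
            have : (2 + N) ^ 7 ≤ (2 + N) ^ 8 := pow_le_pow_right₀ (by linarith) (by norm_num)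
            gcongr
        _ = S ^ 4 := by rw [hNR, hS]; ring
    exact le_of_pow_le_pow_left₀ (by norm_num) hS0 h8
  -- Cauchy
  set P : ℕ → ℂ := fun k => lc δ δ' (lam n L k) with hP
  have hPn : ∀ k, ‖P k‖ ≤ 1 := fun k => lc_norm δ δ' hδ hδ'pos (by rw [norm_lam n hL k]; exact hrlt1.le)
  set A : ℕ → ℂ := fun k => 1 - (48 / 2 ^ σ) * P k with hA
  set B : ℕ → ℕ → ℂ := fun i k => (8 / q) * (1 / 8 ^ σ) * P k ^ 2 * rsP (4 * σ) (lam n L k ^ (M * 2 ^ (4 * σ * i))) with hB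
  have hVb : ∀ t k, Vb σ q M δ δ' t (lam n L k) = A k + ∑ i ∈ range q, t i * B i k := by
    intro t k
    simp only [Vb, hA, hB, hP, Finset.mul_sum]
    congr 1
    refine Finset.sum_congr rfl fun i _ => ?_
    ring
  have hlamn : ∀ k x, ‖lam n L k ^ x‖ ≤ 1 := by
    intro k x
    rw [norm_pow, norm_lam n hL k]
    exact pow_le_one₀ hrp.le hrlt1.le
  have hq0 : (0 : ℝ) < q := by exact_mod_cast hq1
  have hBn : ∀ i k, ‖B i k‖ ≤ (8 / q) * (1 / 8 ^ σ) * (2 * 4 ^ σ) := by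
    intro i k
    simp only [hB, norm_mul, norm_div, norm_pow, Complex.norm_ofNat, norm_one, Complex.norm_natCast]
    have h1 := rsP_bound (4 * σ) (hlamn k (M * 2 ^ (4 * σ * i)))
    have h2 : ‖rsP (4 * σ) (lam n L k ^ (M * 2 ^ (4 * σ * i)))‖ ≤ 2 * 4 ^ σ := by
      refine le_of_pow_le_pow_left₀ (n := 2) (by norm_num) (by positivity) ?_
      refine h1.trans ?_
      have e1 : (2 : ℝ) ^ (4 * σ + 1) = 2 * 16 ^ σ := by
        rw [pow_succ, pow_mul]; norm_num; ring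
      have e2 : ((2 : ℝ) * 4 ^ σ) ^ 2 = 4 * 16 ^ σ := by
        rw [mul_pow, ← pow_mul, mul_comm σ 2, pow_mul]; norm_num
      rw [e1, e2]
      nlinarith [pow_pos (show (0 : ℝ) < 16 by norm_num) σ]
    have h3 : ‖P k‖ ^ 2 ≤ 1 := pow_le_one₀ (norm_nonneg _) (hPn k)
    calc 8 / (q : ℝ) * (1 / 8 ^ σ) * ‖P k‖ ^ 2 * ‖rsP (4 * σ) (lam n L k ^ (M * 2 ^ (4 * σ * i)))‖ 
        ≤ 8 / (q : ℝ) * (1 / 8 ^ σ) * 1 * (2 * 4 ^ σ) := by gcongr
      _ = _ := by ring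
  have hAB : ∀ k ∈ range (2 * n), ∑ i ∈ range q, ‖B i k‖ < ‖A k‖ := by
    intro k _
    have h1 : ∑ i ∈ range q, ‖B i k‖ ≤ q * ((8 / q) * (1 / 8 ^ σ) * (2 * 4 ^ σ)) := by
      calc ∑ i ∈ range q, ‖B i k‖ ≤ ∑ i ∈ range q, (8 / (q : ℝ)) * (1 / 8 ^ σ) * (2 * 4 ^ σ) :=
            Finset.sum_le_sum fun i _ => hBn i k
        _ = _ := by simp
    have h2 : (q : ℝ) * ((8 / q) * (1 / 8 ^ σ) * (2 * 4 ^ σ)) = 16 / 2 ^ σ := by
      have : (8 : ℝ) ^ σ = 2 ^ σ * 4 ^ σ := by rw [← mul_pow]; norm_num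
      rw [this]
      field_simp
      norm_num
    have h3 : (16 : ℝ) / 2 ^ σ ≤ 1 / 8 := by
      have := nz_e_le σ hσ
      have h4 : (48 : ℝ) / 2 ^ σ = 3 * (16 / 2 ^ σ) := by ring
      linarith
    have h4 := nz_A_lower σ hσ (P k) (hPn k)
    rw [h2] at h1
    calc ∑ i ∈ range q, ‖B i k‖ ≤ 16 / 2 ^ σ := h1
      _ ≤ 1 / 8 := h3
      _ < 5 / 8 := by norm_num
      _ ≤ _ := h4
  have hcau := cauchy_multi (range (2 * n)) q η A B S hAB (fun t ht => by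
    have := hbound t ht
    simpa only [hVb] using this)
  -- compute product
  set Pi : ℕ → ℂ := fun k => ∑ m ∈ range (2 * n), (g m : ℂ) * (lam n L k ^ M) ^ m with hPi
  have hPin : ∀ k, ‖Pi k‖ ≤ 2 * n := by
    intro k
    refine (norm_sum_le _ _).trans ?_
    calc ∑ m ∈ range (2 * n), ‖(g m : ℂ) * (lam n L k ^ M) ^ m‖ ≤ ∑ m ∈ range (2 * n), (1 : ℝ) := by
          refine Finset.sum_le_sum fun m _ => ?_
          rw [norm_mul, ← pow_mul]
          have h1 : ‖(g m : ℂ)‖ = 1 := by rcases hg m with h | h <;> simp [h]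
          rw [h1, one_mul]
          exact hlamn _ _
      _ = _ := by simp
  have hterm : ∀ k, η k * (∏ i ∈ range q, B i k) / A k ^ (q + 1) =
      ((8 / q) ^ q * (1 / 8 ^ σ) ^ q) * (η k * Pi k * nzF σ q (P k)) := by
    intro k
    have h1 : ∏ i ∈ range q, B i k = ((8 / q) * (1 / 8 ^ σ) * P k ^ 2) ^ q * Pi k := by
      simp only [hB, hPi]
      rw [Finset.prod_mul_distrib, Finset.prod_const, Finset.card_range]
      congr 1
      have := hprod (lam n L k ^ M)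
      rw [hn, ← this]
      refine Finset.prod_congr rfl fun i _ => ?_
      rw [← pow_mul]
    rw [h1, nzF, mul_pow, mul_pow, ← pow_mul]
    simp only [hA]
    ring
  have hsumPi : ∑ k ∈ range (2 * n), η k * Pi k = ∑ m ∈ range (2 * n), ((rad L : ℂ)) ^ (M * m) := by
    simp only [hPi, Finset.mul_sum]
    rw [Finset.sum_comm]
    refine Finset.sum_congr rfl fun m hm => ?_
    have h1 := hη2 m (Finset.mem_range.1 hm)
    calc ∑ k ∈ range (2 * n), η k * ((g m : ℂ) * (lam n L k ^ M) ^ m) = 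
          g m * ∑ k ∈ range (2 * n), η k * lam n L k ^ (M * m) := by
            rw [Finset.mul_sum]
            refine Finset.sum_congr rfl fun k _ => ?_
            rw [pow_mul]
            ring
      _ = _ := by
        rw [h1]
        calc (g m : ℂ) * ((rad L : ℂ) ^ (M * m) * g m) = (g m * g m) * (rad L : ℂ) ^ (M * m) := by ring
          _ = _ := by rw [hgsq, one_mul]
  have hsumPin : 2 * n * Real.exp (-100) ≤ ‖∑ k ∈ range (2 * n), η k * Pi k‖ := by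
    rw [hsumPi]
    have h1 : ∑ m ∈ range (2 * n), ((rad L : ℂ)) ^ (M * m) = ((∑ m ∈ range (2 * n), (rad L) ^ (M * m) : ℝ) : ℂ) := by
      push_cast; rfl
    rw [h1, Complex.norm_real, Real.norm_of_nonneg (Finset.sum_nonneg fun m _ => by positivity)]
    calc 2 * n * Real.exp (-100) = ∑ m ∈ range (2 * n), Real.exp (-100) := by simp
      _ ≤ _ := by
        refine Finset.sum_le_sum fun m hm => ?_
        refine (rad_pow hL).trans ?_
        apply pow_le_pow_of_le_one hrp.le hrlt1.le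
        rw [hLdef, mul_comm]
        exact Nat.mul_le_mul_right _ (Finset.mem_range.1 hm).le
  have hmain : n * Real.exp (-100) ≤ ‖∑ k ∈ range (2 * n), η k * Pi k * nzF σ q (P k)‖ := by
    have h1 : ∑ k ∈ range (2 * n), η k * Pi k * nzF σ q (P k) = 
        nzF σ q 1 * (∑ k ∈ range (2 * n), η k * Pi k) + 
          ∑ k ∈ range (2 * n), η k * Pi k * (nzF σ q (P k) - nzF σ q 1) := by
      rw [Finset.mul_sum, ← Finset.sum_add_distrib]
      refine Finset.sum_congr rfl fun k _ => ?_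
      ring
    have h2 : ‖∑ k ∈ range (2 * n), η k * Pi k * (nzF σ q (P k) - nzF σ q 1)‖ ≤ n * Real.exp (-100) := by
      refine (norm_sum_le _ _).trans ?_
      calc ∑ k ∈ range (2 * n), ‖η k * Pi k * (nzF σ q (P k) - nzF σ q 1)‖ 
          ≤ ∑ k ∈ range (2 * n), 1 * (2 * n) * (Real.exp (-100) / (4 * n)) := by
            refine Finset.sum_le_sum fun k hk => ?_
            rw [norm_mul, norm_mul]
            have h3 := hF (P k) (hnear k (Finset.mem_range.1 hk))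
            have h4 := hη1 k
            have h5 := hPin k
            gcongr
        _ = n * Real.exp (-100) := by
            simp only [Finset.sum_const, Finset.card_range, nsmul_eq_mul]
            push_cast
            field_simp
            ring
    have h3 : 2 * n * Real.exp (-100) ≤ ‖nzF σ q 1 * (∑ k ∈ range (2 * n), η k * Pi k)‖ := by
      rw [norm_mul]
      calc 2 * n * Real.exp (-100) = 1 * (2 * n * Real.exp (-100)) := by ring
        _ ≤ _ := by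
          have := nz_F_one σ q hσ
          gcongr
    rw [h1]
    have h4 := norm_sub_le_norm_add (nzF σ q 1 * (∑ k ∈ range (2 * n), η k * Pi k))
      (∑ k ∈ range (2 * n), η k * Pi k * (nzF σ q (P k) - nzF σ q 1))
    linarith
  have hfin : (q.factorial : ℝ) * (((8 / q) ^ q * (1 / 8 ^ σ) ^ q) * (n * Real.exp (-100))) ≤ S := by
    refine le_trans ?_ hcau
    rw [Finset.sum_congr rfl (fun k _ => hterm k), ← Finset.mul_sum, norm_mul]
    have h1 : ‖((8 / (q : ℂ)) ^ q * (1 / 8 ^ σ) ^ q)‖ = ((8 / q) ^ q * (1 / 8 ^ σ) ^ q) := by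
      simp only [norm_mul, norm_div, norm_pow, Complex.norm_ofNat, norm_one, Complex.norm_natCast]
    rw [h1]
    gcongr
  -- final arithmetic
  have hn' : (n : ℝ) = (2 ^ (σ * q)) ^ 4 / 2 := by linarith
  have h8 : ((1 : ℝ) / 8 ^ σ) ^ q = 1 / (2 ^ (σ * q)) ^ 3 := by
    rw [div_pow, one_pow, ← pow_mul, ← pow_mul, mul_comm (σ * q) 3, pow_mul 2 3]
    norm_num
  rw [h8, hn'] at hfin
  set X : ℝ := 2 ^ (σ * q) with hX
  have hXpos : 0 < X := by positivity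
  have hfin2 : (q.factorial : ℝ) * (8 / q) ^ q * (Real.exp (-100) / 2) * X ≤ (2 + N) ^ 2 * M0 * Real.exp 100 * X := by
    calc (q.factorial : ℝ) * (8 / q) ^ q * (Real.exp (-100) / 2) * X = 
        (q.factorial : ℝ) * (((8 / q) ^ q * (1 / X ^ 3)) * (X ^ 4 / 2 * Real.exp (-100))) := by
          field_simp
      _ ≤ S := hfin
      _ = _ := by rw [hS]; ring
  have hfin3 := le_of_mul_le_mul_right hfin2 hXpos
  have hfin4 : (q.factorial : ℝ) * (8 / q) ^ q ≤ 2 * M0 * (2 + N) ^ 2 * Real.exp 200 := by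
    have h1 : Real.exp 100 * Real.exp (-100) = 1 := by rw [← Real.exp_add]; norm_num
    have h2 : Real.exp 200 = Real.exp 100 * Real.exp 100 := by rw [← Real.exp_add]; norm_num
    calc (q.factorial : ℝ) * (8 / q) ^ q = 2 * Real.exp 100 * ((q.factorial : ℝ) * (8 / q) ^ q * (Real.exp (-100) / 2)) := by
          linear_combination (-(q.factorial : ℝ) * (8 / q) ^ q) * h1
      _ ≤ 2 * Real.exp 100 * ((2 + N) ^ 2 * M0 * Real.exp 100) := by gcongr
      _ = _ := by rw [h2]; ring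
  have hNe : N = 4 * σ * q := by rw [hN]; push_cast; ring
  rw [hNe] at hfin4
  have hfin5 : 2 * M0 * (2 + 4 * σ * q) ^ 2 * Real.exp 200 ≤ 2 * (M0 + 1) * (2 + 4 * (σ : ℝ) * q) ^ 2 * Real.exp 200 := by
    gcongr
    linarith
  linarith

end NC
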