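import Mathlib
set_option autoImplicit false
open Finset

namespace NC

private lemma summ4 (n : ℕ) (lam θ : ℕ → ℂ) (hlam : ∀ k < n, ‖lam k‖ < 1) :
    Summable (fun x : ℕ => ‖∑ k ∈ range n, θ k * lam k ^ x‖ ^ 4) := by
  set M : ℝ := ∑ k ∈ range n, ‖θ k‖ with hM
  have hM0 : 0 ≤ M := Finset.sum_nonneg (fun _ _ => norm_nonneg _)
  have hb : ∀ x : ℕ, ‖∑ k ∈ range n, θ k * lam k ^ x‖ ≤ M := by
    intro x
    refine (norm_sum_le _ _).trans (Finset.sum_le_sum ?_)
    intro k hk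
    rw [norm_mul, norm_pow]
    have h1 : ‖lam k‖ ^ x ≤ 1 := pow_le_one₀ (norm_nonneg _) (hlam k (mem_range.1 hk)).le
    exact mul_le_of_le_one_right (norm_nonneg _) h1
  have hs : Summable (fun x : ℕ => M ^ 3 * ∑ k ∈ range n, ‖θ k‖ * ‖lam k‖ ^ x) := by
    apply Summable.mul_left
    apply summable_sum
    intro k hk
    exact (summable_geometric_of_lt_one (norm_nonneg _) (hlam k (mem_range.1 hk))).mul_left _
  refine Summable.of_nonneg_of_le (fun x => by positivity) (fun x => ?_) hs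
  have h2 : ‖∑ k ∈ range n, θ k * lam k ^ x‖ ≤ ∑ k ∈ range n, ‖θ k‖ * ‖lam k‖ ^ x := by
    refine (norm_sum_le _ _).trans (Finset.sum_le_sum ?_)
    intro k hk
    rw [norm_mul, norm_pow]
  calc ‖∑ k ∈ range n, θ k * lam k ^ x‖ ^ 4
      = ‖∑ k ∈ range n, θ k * lam k ^ x‖ ^ 3 * ‖∑ k ∈ range n, θ k * lam k ^ x‖ := by ring
    _ ≤ M ^ 3 * ∑ k ∈ range n, ‖θ k‖ * ‖lam k‖ ^ x := by
        gcongr
        exact hb x

/-- evaluation of an analytic `ℓ⁴` multiplier on combinations of geometric sequences -/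
theorem eval_transfer (K : ℝ) (hK : 0 ≤ K) (c : ℤ → ℂ) (hc0 : ∀ n : ℤ, n < 0 → c n = 0)
    (hb : ∀ (a : ℤ →₀ ℂ) (s : Finset ℤ),
      ∑ n ∈ s, ‖∑ m ∈ a.support, c (n - m) * a m‖ ^ 4 ≤ K ^ 4 * ∑ m ∈ a.support, ‖a m‖ ^ 4)
    (g : ℂ → ℂ) (hg : ∀ z : ℂ, ‖z‖ < 1 → HasSum (fun u : ℕ => c u * z ^ u) (g z))
    (n : ℕ) (lam η : ℕ → ℂ) (hlam : ∀ k < n, ‖lam k‖ < 1) :
    Summable (fun x : ℕ => ‖∑ k ∈ range n, η k * lam k ^ x‖ ^ 4) ∧
    Summable (fun x : ℕ => ‖∑ k ∈ range n, η k * g (lam k) * lam k ^ x‖ ^ 4) ∧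
    ∑' x : ℕ, ‖∑ k ∈ range n, η k * g (lam k) * lam k ^ x‖ ^ 4 ≤
      K ^ 4 * ∑' x : ℕ, ‖∑ k ∈ range n, η k * lam k ^ x‖ ^ 4 := by
  have S1 := summ4 n lam η hlam
  have S2 := summ4 n lam (fun k => η k * g (lam k)) hlam
  refine ⟨S1, S2, ?_⟩
  set H : ℕ → ℂ := fun x => ∑ k ∈ range n, η k * lam k ^ x with hH
  set Hg : ℕ → ℂ := fun x => ∑ k ∈ range n, η k * g (lam k) * lam k ^ x with hHg
  have e1 : ∀ x : ℕ, HasSum (fun u : ℕ => c u * H (u + x)) (Hg x) := by
    intro x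
    have : HasSum (fun u : ℕ => ∑ k ∈ range n, η k * lam k ^ x * (c u * lam k ^ u))
        (∑ k ∈ range n, η k * lam k ^ x * g (lam k)) := by
      apply hasSum_sum
      intro k hk
      exact (hg (lam k) (hlam k (mem_range.1 hk))).mul_left _
    have e2 : (fun u : ℕ => ∑ k ∈ range n, η k * lam k ^ x * (c u * lam k ^ u))
        = fun u : ℕ => c u * H (u + x) := by
      funext u
      simp only [hH, Finset.mul_sum]
      refine Finset.sum_congr rfl (fun k _ => ?_)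
      rw [pow_add]; ring
    have e3 : (∑ k ∈ range n, η k * lam k ^ x * g (lam k)) = Hg x := by
      simp only [hHg]
      refine Finset.sum_congr rfl (fun k _ => ?_)
      ring
    rw [e2, e3] at this
    exact this
  have e4 : ∀ x : ℕ, HasSum (fun y : ℕ => c ((y : ℤ) - x) * H y) (Hg x) := by
    intro x
    rw [← hasSum_nat_add_iff' x]
    have z : ∑ i ∈ range x, c ((i : ℤ) - x) * H i = 0 := by
      apply Finset.sum_eq_zero
      intro i hi
      rw [hc0 _ (by have := mem_range.1 hi; omega), zero_mul]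
    rw [z, sub_zero]
    have e5 : (fun u : ℕ => c (((u + x : ℕ) : ℤ) - x) * H (u + x)) = fun u : ℕ => c u * H (u + x) := by
      funext u
      congr 2
      push_cast
      ring
    rw [e5]
    exact e1 x
  have key : ∀ x0 X : ℕ, ∑ x ∈ range x0, ‖∑ y ∈ range X, c ((y : ℤ) - x) * H y‖ ^ 4
      ≤ K ^ 4 * ∑ y ∈ range X, ‖H y‖ ^ 4 := by
    intro x0 X
    have inj : Function.Injective (fun y : ℕ => -(y : ℤ)) := by
      intro a b hab
      simpa using hab
    let a : ℤ →₀ ℂ := Finsupp.onFinset ((range X).image (fun y : ℕ => -(y : ℤ)))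
      (fun m => if m ∈ (range X).image (fun y : ℕ => -(y : ℤ)) then H m.natAbs else 0)
      (by
        intro m hm
        by_contra h
        simp [h] at hm)
    have ha : ∀ y ∈ range X, a (-(y : ℤ)) = H y := by
      intro y hy
      have : (-(y : ℤ)) ∈ (range X).image (fun y : ℕ => -(y : ℤ)) := mem_image_of_mem _ hy
      simp only [a, Finsupp.onFinset_apply, this, if_true]
      congr 1
      simp
    have hsub : a.support ⊆ (range X).image (fun y : ℕ => -(y : ℤ)) := Finsupp.support_onFinset_subset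
    have h := hb a ((range x0).image (fun y : ℕ => -(y : ℤ)))
    rw [Finset.sum_image (fun _ _ _ _ h => inj h)] at h
    have l1 : ∀ x : ℕ, ∑ m ∈ a.support, c (-(x : ℤ) - m) * a m
        = ∑ y ∈ range X, c ((y : ℤ) - x) * H y := by
      intro x
      rw [Finset.sum_subset hsub (by
        intro m _ hm
        rw [Finsupp.notMem_support_iff.1 hm, mul_zero])]
      rw [Finset.sum_image (fun _ _ _ _ h => inj h)]
      refine Finset.sum_congr rfl (fun y hy => ?_)
      rw [ha y hy]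
      congr 2
      ring
    have l2 : ∑ m ∈ a.support, ‖a m‖ ^ 4 = ∑ y ∈ range X, ‖H y‖ ^ 4 := by
      rw [Finset.sum_subset hsub (by
        intro m _ hm
        rw [Finsupp.notMem_support_iff.1 hm]; simp)]
      rw [Finset.sum_image (fun _ _ _ _ h => inj h)]
      refine Finset.sum_congr rfl (fun y hy => ?_)
      rw [ha y hy]
    rw [l2] at h
    simp only [l1] at h
    exact h
  have key2 : ∀ x0 : ℕ, ∑ x ∈ range x0, ‖Hg x‖ ^ 4 ≤ K ^ 4 * ∑' x : ℕ, ‖H x‖ ^ 4 := by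
    intro x0
    have ht : Filter.Tendsto (fun X : ℕ => ∑ x ∈ range x0, ‖∑ y ∈ range X, c ((y : ℤ) - x) * H y‖ ^ 4)
        Filter.atTop (nhds (∑ x ∈ range x0, ‖Hg x‖ ^ 4)) := by
      apply tendsto_finsetSum
      intro x _
      exact ((e4 x).tendsto_sum_nat.norm).pow 4
    refine le_of_tendsto' ht (fun X => (key x0 X).trans ?_)
    gcongr
    exact S1.sum_le_tsum _ (fun _ _ => by positivity)
  exact Real.tsum_le_of_sum_range_le (fun _ => by positivity) key2

end NC
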