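import Pool.Agent.Helper859.NC.Defs
import Pool.Agent.MP58366f.Block
import Pool.Agent.MP58366f.Wiener
import Pool.Agent.MP58366f.VBound
set_option autoImplicit false
open Finset

namespace NC

end NC

namespace NC


theorem AN_pt {c : ℝ} {f : ℂ → ℂ} (h : AN c f) (z : ℂ) (hz : ‖z‖ ≤ 1) : ‖f z‖ ≤ c := by
  obtain ⟨k, hk, hkc, hf⟩ := h
  rw [hf z hz]
  have hle : ∀ m, ‖k m * z ^ m‖ ≤ ‖k m‖ := by
    intro m
    rw [norm_mul, norm_pow]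
    have : ‖z‖ ^ m ≤ 1 := pow_le_one₀ (norm_nonneg _) hz
    nlinarith [norm_nonneg (k m)]
  have hs : Summable (fun m => ‖k m * z ^ m‖) :=
    Summable.of_nonneg_of_le (fun m => norm_nonneg _) hle hk
  calc ‖∑' m, k m * z ^ m‖ ≤ ∑' m, ‖k m * z ^ m‖ := norm_tsum_le_tsum_norm hs
    _ ≤ ∑' m, ‖k m‖ := hs.tsum_le_tsum hle hk
    _ ≤ c := hkc

theorem vB_zero (n L k : ℕ) (hk : k < 2 * n) : vB 10 n L (lam n L k) = 0 := by
  unfold vB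
  apply Finset.prod_eq_zero (i := k) (Finset.mem_range.mpr hk)
  apply div_eq_zero_iff.mpr
  left
  unfold lam rad
  have hex : Complex.exp (-(2 * Real.pi * Complex.I * ((k : ℂ) - n + 1 / 2) / ((L : ℝ) : ℂ))) *
      Complex.exp (2 * Real.pi * Complex.I * ((k : ℂ) - n + 1 / 2) / L) = 1 := by
    rw [← Complex.exp_add, Complex.ofReal_natCast, neg_add_cancel, Complex.exp_zero]
  rw [mul_left_comm, hex, mul_one, sub_self]

theorem U_props : ∃ C : ℝ, 1 ≤ C ∧ ∀ (n : ℕ) (μ : ℝ), 1 ≤ n → 0 < μ → ∃ L0 : ℕ, ∀ L : ℕ, L0 ≤ L →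
    (∃ c, AN c (vB 10 n L)) ∧ (∀ z : ℂ, ‖z‖ ≤ 1 → ‖vB 10 n L z‖ ≤ 1) ∧ (∀ z : ℂ, ‖z‖ = 1 → ‖vB 10 n L z‖ = 1) ∧
    vB 10 n L 1 = 1 ∧ (∀ (N : ℕ) [NeZero N], IM.MB C (fun j : ZMod N => vB 10 n L (IM.E j))) ∧
    (∀ (N : ℕ) [NeZero N], IM.MB μ (fun j : ZMod N => (1 - IM.E j) * (vB 10 n L (IM.E j) - 1))) ∧
    (∀ z : ℂ, ‖z‖ ≤ 1 → ‖(1 - z) * (vB 10 n L z - 1)‖ ≤ μ) ∧
    ∀ k < 2 * n, vB 10 n L (lam n L k) = 0 := by
  obtain ⟨C, hC1, -, hC⟩ := IM.v_bound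
  refine ⟨C, hC1, ?_⟩
  intro n μ hn hμ
  obtain ⟨L0, hL0⟩ := W702.vB_small 10 (by norm_num) n μ hμ
  refine ⟨max ⌈L0⌉₊ (max (2 * n + 1) 32), ?_⟩
  intro L hL
  have h1 : ⌈L0⌉₊ ≤ L := le_trans (le_max_left _ _) hL
  have h2 : 2 * n + 1 ≤ L := le_trans (le_trans (le_max_left _ _) (le_max_right _ _)) hL
  have h3 : 32 ≤ L := le_trans (le_trans (le_max_right _ _) (le_max_right _ _)) hL
  have h1' : L0 ≤ (L : ℝ) := le_trans (Nat.le_ceil _) (by exact_mod_cast h1)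
  have h3' : Real.pi * 10 < (L : ℝ) := by
    have : (32 : ℝ) ≤ L := by exact_mod_cast h3
    have := Real.pi_lt_d2
    linarith
  obtain ⟨⟨R, hR1, hR⟩, hle, hun, h11⟩ := W702.vB_basic 10 (by norm_num) n (L : ℝ) h3'
  have hsm := hL0 L h1'
  refine ⟨W702.AN_of_analytic hR1 hR, hle, hun, h11, ?_, ?_, ?_, ?_⟩
  · intro N _
    exact hC N n L hn (by omega) h3'
  · intro N _
    exact IM.AN_mb (N := N) (f := fun z => (1 - z) * (vB 10 n L z - 1)) hsm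
  · intro z hz
    exact AN_pt hsm z hz
  · intro k hk
    exact vB_zero n L k hk


end NC
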