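import Pool.Agent.Helper859.NC.Defs
import Pool.Agent.Helper859.NC.N1
import Pool.Agent.Helper859.NC.N2
import Pool.Agent.Helper859.NC.N3
import Pool.Agent.Helper859.NC.N4
import Pool.Agent.Helper859.NC.N5
import Pool.Agent.Helper859.NC.N6
import Pool.Agent.Helper859.NC.N7
import Pool.Agent.Helper859.NC.N8
import Pool.Agent.Helper859.NC.N9
import Pool.Agent.Helper859.NC.N10
import Pool.Agent.Helper859.NC.N11
import Pool.Agent.Helper859.NC.N12
import Pool.Agent.Helper859.VG.Main
import Pool.Agent.MP58366f.Block
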