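import Pool.Agent.Helper859.NC.Blk

set_option autoImplicit false
open Finset Filter Topology

namespace NC
open VG

/-- sequences chosen one after the other -/
lemma exists_seq {X : Type*} [Inhabited X] (P : ℕ → (ℕ → X) → X → Prop)
    (hP : ∀ J h h' x, (∀ i < J, h i = h' i) → P J h x → P J h' x)
    (step : ∀ J h, (∀ i < J, P i h (h i)) → ∃ x, P J h x) : ∃ h : ℕ → X, ∀ J, P J h (h J) := by
  classical
  have step' : ∀ (J : ℕ) (s : {h : ℕ → X // ∀ i < J, P i h (h i)}),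
      ∃ s' : {h : ℕ → X // ∀ i < J + 1, P i h (h i)}, ∀ i < J, s'.1 i = s.1 i := by
    rintro J ⟨h, hh⟩
    obtain ⟨x, hx⟩ := step J h hh
    refine ⟨⟨Function.update h J x, ?_⟩, ?_⟩
    · intro i hi
      rcases Nat.lt_succ_iff_lt_or_eq.1 hi with h1 | h1
      · rw [Function.update_of_ne (ne_of_lt h1)]
        refine hP i h _ _ (fun l hl => ?_) (hh i h1)
        rw [Function.update_of_ne (by omega)]
      · subst h1
        rw [Function.update_self]
        refine hP i h _ _ (fun l hl => ?_) hx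
        rw [Function.update_of_ne (by omega)]
    · intro i hi
      exact Function.update_of_ne (ne_of_lt hi) _ _
  choose f hf using step'
  let S : (n : ℕ) → {h : ℕ → X // ∀ i < n, P i h (h i)} := fun n =>
    Nat.rec (motive := fun n => {h : ℕ → X // ∀ i < n, P i h (h i)})
      ⟨fun _ => default, fun i hi => absurd hi (Nat.not_lt_zero i)⟩ (fun j s => f j s) n
  have hS : ∀ n, S (n + 1) = f n (S n) := fun n => rfl
  have hmono : ∀ n m i, i < n → (S (n + m)).1 i = (S n).1 i := by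
    intro n m i hi
    induction m with
    | zero => rfl
    | succ m ih =>
      rw [← add_assoc, hS, hf _ _ i (by omega), ih]
  refine ⟨fun J => (S (J + 1)).1 J, fun J => ?_⟩
  have h1 := (S (J + 1)).2 J (Nat.lt_succ_self J)
  refine hP J _ _ _ (fun i hi => ?_) h1
  show (S (J + 1)).1 i = (S (i + 1)).1 i
  have h2 := hmono (i + 1) (J - i) i (Nat.lt_succ_self i)
  have h3 : i + 1 + (J - i) = J + 1 := by omega
  rw [h3] at h2
  exact h2

/-- data of one stage -/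
structure XD where
  U : ℂ → ℂ
  V : ℂ → ℂ
  n : ℕ
  ev : ℕ → ℂ
  η : ℕ → ℂ
  κU : ℤ → ℂ
  κV : ℤ → ℂ
  μ : ℝ
  l : ℕ
  l' : ℕ

instance : Inhabited XD := ⟨⟨fun _ => 0, fun _ => 0, 0, fun _ => 0, fun _ => 0, fun _ => 0, fun _ => 0, 0, 0, 0⟩⟩

structure KP (U : ℂ → ℂ) (κ : ℤ → ℂ) (l' : ℕ) (er : ℝ) : Prop where
  s : Summable fun n => ‖κ n‖
  z : ∑' n, κ n = 0
  e : ∀ (N : ℕ) [NeZero N] (j : ZMod N), IM.psym2 N κ j = U (IM.E j) - 1
  η : IM.eta2 l' κ ≤ er

structure GD (C ε₀ : ℝ) (J : ℕ) (h : ℕ → XD) (x : XD) : Prop where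
  pb : PB C ((1 / 2) ^ (J + 2)) J x.μ x.U x.V x.n x.ev x.η
  μ0 : 0 < x.μ
  μJ : x.μ ≤ (1 / 2) ^ J
  l0 : 0 < x.l'
  ldvd : x.l ∣ x.l'
  lμ : 4 * (x.l : ℝ) * x.μ ≤ ε₀ / 6 * (1 / 2) ^ J
  kU : KP x.U x.κU x.l' (ε₀ / 6 * (1 / 2) ^ J)
  kV : KP x.V x.κV x.l' (ε₀ / 6 * (1 / 2) ^ J)
  gU : ∀ (N : ℕ) [NeZero N], IM.MB (ε₀ / 6 * (1 / 2) ^ J)
    (fun i : ZMod N => (∏ i' ∈ range J, (h i').U (IM.E i) - 1) * (x.U (IM.E i) - 1))
  gV : ∀ S ⊆ range J, ∀ (N : ℕ) [NeZero N], IM.MB (ε₀ / 6 * (1 / 2) ^ J)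
    (fun i : ZMod N => (∏ i' ∈ S, (h i').V (IM.E i) - 1) * (x.V (IM.E i) - 1))
  link0 : J = 0 → x.l = 1
  link : ∀ i, J = i + 1 → x.l = (h i).l'

lemma TN_prod_one {V : ℕ → ℂ → ℂ} (S : Finset ℕ) (hV : ∀ i ∈ S, (∃ c, AN c (V i)) ∧ V i 1 = 1) :
    (∃ c, TN 0 c (fun z => ∏ i ∈ S, V i z)) ∧ ∏ i ∈ S, V i 1 = 1 := by
  classical
  induction S using Finset.induction_on with
  | empty => exact ⟨⟨_, TN_congr (TN_const 0 1) fun z _ => by simp⟩, by simp⟩
  | insert a S ha ih =>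
    obtain ⟨⟨c, hc⟩, h1⟩ := ih (fun i hi => hV i (Finset.mem_insert_of_mem hi))
    obtain ⟨⟨c', hc'⟩, h1'⟩ := hV a (Finset.mem_insert_self _ _)
    refine ⟨⟨_, TN_congr (TN_mul (TN_of_AN hc') hc) fun z _ => ?_⟩, ?_⟩
    · rw [Finset.prod_insert ha]
    · rw [Finset.prod_insert ha, h1, h1', one_mul]

theorem stage_exists (C ε₀ : ℝ) (hC : 1 ≤ C) (hε : 0 < ε₀)
    (hpb : ∀ ρ M0 μ : ℝ, 0 < ρ → 0 ≤ M0 → 0 < μ →
      ∃ (U V : ℂ → ℂ) (n : ℕ) (ev η : ℕ → ℂ), PB C ρ M0 μ U V n ev η)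
    (J : ℕ) (h : ℕ → XD) (hh : ∀ i < J, GD C ε₀ i h (h i)) : ∃ x, GD C ε₀ J h x := by
  classical
  set e : ℝ := ε₀ / 6 * (1 / 2) ^ J with he
  have he0 : 0 < e := by positivity
  -- the chain length
  obtain ⟨l, hl, hl0, hl1⟩ : ∃ l : ℕ, 0 < l ∧ (J = 0 → l = 1) ∧ ∀ i, J = i + 1 → l = (h i).l' := by
    cases J with
    | zero => exact ⟨1, one_pos, fun _ => rfl, fun i hi => absurd hi (by omega)⟩
    | succ J => exact ⟨(h J).l', (hh J (Nat.lt_succ_self J)).l0, fun h => absurd h (by omega),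
        fun i hi => by rw [Nat.succ_injective hi]⟩
  -- smallness for U
  obtain ⟨⟨cU, hcU⟩, hU1⟩ := TN_prod_one (V := fun i => (h i).U) (range J)
    (fun i hi => ⟨(hh i (Finset.mem_range.1 hi)).pb.u.an, (hh i (Finset.mem_range.1 hi)).pb.u.one⟩)
  obtain ⟨μU, hμU0, hμU⟩ := lemS2 hC hcU hU1 he0
  -- smallness for V, all subsets
  have hV : ∀ S ∈ (range J).powerset, ∃ μ0 : ℝ, 0 < μ0 ∧ ∀ μ : ℝ, 0 < μ → μ ≤ μ0 → ∀ (u : ℂ → ℂ) (N : ℕ) [NeZero N],
      IM.MB C (fun i : ZMod N => u (IM.E i)) → IM.MB μ (fun i : ZMod N => (1 - IM.E i) * (u (IM.E i) - 1)) →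
      IM.MB e (fun i : ZMod N => (∏ i' ∈ S, (h i').V (IM.E i) - 1) * (u (IM.E i) - 1)) := by
    intro S hS
    have hS' := Finset.mem_powerset.1 hS
    obtain ⟨⟨c, hc⟩, h1⟩ := TN_prod_one (V := fun i => (h i).V) S
      (fun i hi => ⟨(hh i (Finset.mem_range.1 (hS' hi))).pb.v.an, (hh i (Finset.mem_range.1 (hS' hi))).pb.v.one⟩)
    exact lemS2 hC hc h1 he0
  obtain ⟨μV, hμV0, hμV⟩ : ∃ μV : ℝ, 0 < μV ∧ ∀ S ∈ (range J).powerset, ∀ μ : ℝ, 0 < μ → μ ≤ μV →
      ∀ (u : ℂ → ℂ) (N : ℕ) [NeZero N],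
      IM.MB C (fun i : ZMod N => u (IM.E i)) → IM.MB μ (fun i : ZMod N => (1 - IM.E i) * (u (IM.E i) - 1)) →
      IM.MB e (fun i : ZMod N => (∏ i' ∈ S, (h i').V (IM.E i) - 1) * (u (IM.E i) - 1)) := by
    choose! m hm0 hm using hV
    have hne : ((range J).powerset).Nonempty := ⟨∅, Finset.empty_mem_powerset _⟩
    refine ⟨((range J).powerset).inf' hne m, ?_, ?_⟩
    · rw [Finset.lt_inf'_iff]; exact hm0
    · intro S hS μ hμ0 hμ
      exact hm S hS μ hμ0 (hμ.trans (Finset.inf'_le _ hS))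
  have hlpos : (0 : ℝ) < l := by exact_mod_cast hl
  set μ : ℝ := min (min μU μV) (min ((1 / 2) ^ J) (e / (4 * l))) with hμ
  have hμ0 : 0 < μ := by rw [hμ]; positivity
  obtain ⟨U, V, n, ev, η, hPB⟩ := hpb ((1 / 2) ^ (J + 2)) J μ (by positivity) (by positivity) hμ0
  obtain ⟨c1, hc1⟩ := hPB.u.an
  obtain ⟨c2, hc2⟩ := hPB.v.an
  obtain ⟨κU, a1, a2, a3⟩ := exists_kernel (TN_of_AN hc1) hPB.u.one
  obtain ⟨κV, b1, b2, b3⟩ := exists_kernel (TN_of_AN hc2) hPB.v.one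
  obtain ⟨ℓ1, hℓ1⟩ := eta2_small a1 he0
  obtain ⟨ℓ2, hℓ2⟩ := eta2_small b1 he0
  refine ⟨⟨U, V, n, ev, η, κU, κV, μ, l, l * (max ℓ1 ℓ2 + 1)⟩, ?_⟩
  have hle : max ℓ1 ℓ2 ≤ l * (max ℓ1 ℓ2 + 1) :=
    calc max ℓ1 ℓ2 ≤ 1 * (max ℓ1 ℓ2 + 1) := by omega
      _ ≤ l * (max ℓ1 ℓ2 + 1) := Nat.mul_le_mul_right _ hl
  constructor
  · exact hPB
  · exact hμ0
  · exact (min_le_right _ _).trans (min_le_left _ _)
  · positivity
  · exact Dvd.intro _ rfl
  · have h1 : μ ≤ e / (4 * l) := (min_le_right _ _).trans (min_le_right _ _)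
    rw [le_div_iff₀ (by positivity)] at h1
    show 4 * (l : ℝ) * μ ≤ e
    linarith
  · exact ⟨a1, a2, a3, hℓ1 _ ((le_max_left _ _).trans hle)⟩
  · exact ⟨b1, b2, b3, hℓ2 _ ((le_max_right _ _).trans hle)⟩
  · intro N _
    exact hμU μ hμ0 ((min_le_left _ _).trans (min_le_left _ _)) U N (hPB.u.mb N) (hPB.u.mbs N)
  · intro S hS N _
    exact hμV S (Finset.mem_powerset.2 hS) μ hμ0 ((min_le_left _ _).trans (min_le_right _ _)) V N
      (hPB.v.mb N) (hPB.v.mbs N)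
  · exact hl0
  · exact hl1

theorem rec2_exists : ∃ (K C ε₀ : ℝ) (h : ℕ → XD), 0 ≤ K ∧ (∀ J, GD C ε₀ J h (h J)) ∧
    (∀ J (N : ℕ) [NeZero N], (h J).l ∣ N → IM.MB K (fun i : ZMod N => ∏ j ∈ range J, (h j).U (IM.E i))) ∧
    (∀ J (S : Finset ℕ) (N : ℕ) [NeZero N], (h J).l ∣ N →
      IM.MB K (fun i : ZMod N => ∏ j ∈ range J, if j ∈ S then (h j).V (IM.E i) else 1)) ∧ ∀ J, 0 < (h J).l := by
  classical
  obtain ⟨C, hC, hpb⟩ := pb_exists
  obtain ⟨K, ε₀, hK, hε, hglue⟩ := IM.gluing2 C hC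
  obtain ⟨h, hG⟩ := exists_seq (X := XD) (fun J h x => GD C ε₀ J h x) (by
      intro J h h' x hhh hx
      have hp : ∀ (S : Finset ℕ), S ⊆ range J → ∀ i' ∈ S, h' i' = h i' := fun S hS i' hi' =>
        (hhh i' (Finset.mem_range.1 (hS hi'))).symm
      refine ⟨hx.pb, hx.μ0, hx.μJ, hx.l0, hx.ldvd, hx.lμ, hx.kU, hx.kV, ?_, ?_, hx.link0, ?_⟩
      · intro N _
        refine (hx.gU N).congr fun j => ?_
        congr 2
        exact Finset.prod_congr rfl fun i hi => by rw [hp _ subset_rfl i hi]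
      · intro S hS N _
        refine (hx.gV S hS N).congr fun j => ?_
        congr 2
        exact Finset.prod_congr rfl fun i hi => by rw [hp S hS i hi]
      · intro i hi
        rw [hx.link i hi, hhh i (by omega)])
    (fun J h hh => stage_exists C ε₀ hC hε hpb J h hh)
  have hl0 : ∀ J, 0 < (h J).l := by
    intro J
    cases J with
    | zero => rw [(hG 0).link0 rfl]; exact one_pos
    | succ J => rw [(hG (J + 1)).link J rfl]; exact (hG J).l0
  have hsum : ∀ (J : ℕ) (κ : ℕ → ℤ → ℂ), (∀ j, IM.eta2 (h (j + 1)).l (κ j) ≤ ε₀ / 6 * (1 / 2) ^ j) →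
      ∑ j ∈ range J, (ε₀ / 6 * (1 / 2 : ℝ) ^ j + 4 * ((h j).l : ℝ) * (h j).μ + IM.eta2 (h (j + 1)).l (κ j)) ≤ ε₀ := by
    intro J κ hκ
    have h1 : ∀ j ∈ range J, ε₀ / 6 * (1 / 2 : ℝ) ^ j + 4 * ((h j).l : ℝ) * (h j).μ +
        IM.eta2 (h (j + 1)).l (κ j) ≤ 3 * (ε₀ / 6 * (1 / 2 : ℝ) ^ j) := by
      intro j _
      have a1 := (hG j).lμ
      have a2 := hκ j
      linarith
    calc _ ≤ ∑ j ∈ range J, 3 * (ε₀ / 6 * (1 / 2 : ℝ) ^ j) := Finset.sum_le_sum h1
      _ = ε₀ / 2 * ∑ j ∈ range J, (1 / 2 : ℝ) ^ j := by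
          rw [Finset.mul_sum]; apply Finset.sum_congr rfl; intro j _; ring
      _ ≤ ε₀ / 2 * 2 := by
          gcongr
          calc _ ≤ ∑' j : ℕ, (1 / 2 : ℝ) ^ j := summable_geometric_two.sum_le_tsum _ (fun _ _ => by positivity)
            _ = 2 := tsum_geometric_two
      _ = ε₀ := by ring
  have hlink : ∀ j, (h (j + 1)).l = (h j).l' := fun j => (hG (j + 1)).link j rfl
  refine ⟨K, C, ε₀, h, hK.le, hG, ?_, ?_, hl0⟩
  · intro J N _ hN
    have key := hglue N J (fun j => (h j).κU) (fun j => (h j).l) (fun j => (h j).μ)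
      (fun j => ε₀ / 6 * (1 / 2) ^ j) ((hG 0).link0 rfl) (fun j _ => by
        show (h j).l ∣ (h (j + 1)).l
        rw [hlink]; exact (hG j).ldvd) hN (fun j _ => (hG j).kU.s) (fun j _ => (hG j).kU.z) ?_ ?_ ?_ ?_
        (hsum J (fun j => (h j).κU) (fun j => by rw [hlink]; exact (hG j).kU.η))
        (fun j _ => by positivity) (fun j _ => (hG j).μ0.le)
    · refine key.congr fun i => ?_
      exact Finset.prod_congr rfl fun j _ => by rw [(hG j).kU.e]; ring
    · intro j _ i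
      show ‖1 + IM.psym2 N (h j).κU i‖ ≤ 1
      rw [(hG j).kU.e, add_sub_cancel]
      exact (hG j).pb.u.le_one _ (IM.E_norm i).le
    · intro j _
      refine ((hG j).pb.u.mb N).congr fun i => ?_
      rw [(hG j).kU.e]; ring
    · intro j _
      refine ((hG j).pb.u.mbs N).congr fun i => ?_
      rw [(hG j).kU.e]
    · intro j _
      refine ((hG j).gU N).congr fun i => ?_
      show _ = (∏ i' ∈ range j, (1 + IM.psym2 N (h i').κU i) - 1) * IM.psym2 N (h j).κU i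
      rw [(hG j).kU.e]
      congr 2
      exact Finset.prod_congr rfl fun i' _ => by rw [(hG i').kU.e]; ring
  · intro J S N _ hN
    have hzero : ∀ (i : ZMod N), IM.psym2 N (fun _ => 0) i = 0 := by
      intro i; unfold IM.psym2; simp
    have hk : ∀ j (i : ZMod N), 1 + IM.psym2 N (if j ∈ S then (h j).κV else fun _ => 0) i =
        if j ∈ S then (h j).V (IM.E i) else 1 := by
      intro j i
      split_ifs with hj
      · rw [(hG j).kV.e]; ring
      · rw [hzero]; ring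
    have hk' : ∀ j (i : ZMod N), IM.psym2 N (if j ∈ S then (h j).κV else fun _ => 0) i =
        if j ∈ S then (h j).V (IM.E i) - 1 else 0 := by
      intro j i
      split_ifs with hj
      · rw [(hG j).kV.e]
      · rw [hzero]
    have key := hglue N J (fun j => if j ∈ S then (h j).κV else fun _ => 0) (fun j => (h j).l) (fun j => (h j).μ)
      (fun j => ε₀ / 6 * (1 / 2) ^ j) ((hG 0).link0 rfl) (fun j _ => by
        show (h j).l ∣ (h (j + 1)).l
        rw [hlink]; exact (hG j).ldvd) hN ?_ ?_ ?_ ?_ ?_ ?_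
        (hsum J (fun j => if j ∈ S then (h j).κV else fun _ => 0) ?_)
        (fun j _ => by positivity) (fun j _ => (hG j).μ0.le)
    · refine key.congr fun i => ?_
      exact Finset.prod_congr rfl fun j _ => hk j i
    · intro j _
      split_ifs with hj
      · exact (hG j).kV.s
      · simp
    · intro j _
      split_ifs with hj
      · exact (hG j).kV.z
      · simp
    · intro j _ i
      show ‖1 + IM.psym2 N (if j ∈ S then (h j).κV else fun _ => 0) i‖ ≤ 1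
      rw [hk]
      split_ifs with hj
      · exact (hG j).pb.v.le_one _ (IM.E_norm i).le
      · simp
    · intro j _
      by_cases hj : j ∈ S
      · refine ((hG j).pb.v.mb N).congr fun i => ?_
        rw [hk, if_pos hj]
      · refine (IM.MB.one.mono hC).congr fun i => ?_
        rw [hk, if_neg hj]
    · intro j _
      by_cases hj : j ∈ S
      · refine ((hG j).pb.v.mbs N).congr fun i => ?_
        rw [hk', if_pos hj]
      · have h0 : IM.MB (0 : ℝ) (fun _ : ZMod N => (0 : ℂ)) := by simpa using IM.MB.const (N := N) 0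
        refine (h0.mono (hG j).μ0.le).congr fun i => ?_
        rw [hk', if_neg hj, mul_zero]
    · intro j _
      by_cases hj : j ∈ S
      · refine ((hG j).gV ((range j).filter (· ∈ S)) (Finset.filter_subset _ _) N).congr fun i => ?_
        show _ = (∏ i' ∈ range j, (1 + IM.psym2 N (if i' ∈ S then (h i').κV else fun _ => 0) i) - 1) *
          IM.psym2 N (if j ∈ S then (h j).κV else fun _ => 0) i
        rw [hk', if_pos hj, Finset.prod_congr rfl (fun i' _ => hk i' i), Finset.prod_ite, Finset.prod_const_one,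
          mul_one]
      · have h0 : IM.MB (0 : ℝ) (fun _ : ZMod N => (0 : ℂ)) := by simpa using IM.MB.const (N := N) 0
        refine (h0.mono (by positivity)).congr fun i => ?_
        show _ = (∏ i' ∈ range j, (1 + IM.psym2 N (if i' ∈ S then (h i').κV else fun _ => 0) i) - 1) *
          IM.psym2 N (if j ∈ S then (h j).κV else fun _ => 0) i
        rw [hk', if_neg hj, mul_zero]
    · intro j
      split_ifs with hj
      · rw [hlink]; exact (hG j).kV.η
      · unfold IM.eta2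
        simp
        positivity

end NC
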